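import Mathlib

/-!
Graphs without a complete bipartite subgraph `K_{s,s}`: few vertices are adjacent to almost all of
a large set, and independent transversals of large sets exist.
-/

set_option linter.unusedSectionVars false

namespace Pool.Agent.Helper286_biclique

open Finset

variable {V : Type*} [Fintype V] [DecidableEq V] (G : SimpleGraph V) [DecidableRel G.Adj]

/-- the neighbours of `v` inside `U` -/
def nb (U : Finset V) (v : V) : Finset V := U.filter (fun u => G.Adj v u)

/-- no complete bipartite subgraph with both sides of size `s` -/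
def KFree (s : ℕ) : Prop :=
  ∀ A B : Finset V, A.card = s → B.card = s → ¬ ∀ a ∈ A, ∀ b ∈ B, G.Adj a b

variable {G}

lemma mem_nb {U : Finset V} {v u : V} : u ∈ nb G U v ↔ u ∈ U ∧ G.Adj v u := by
  simp [nb]

lemma nb_subset (U : Finset V) (v : V) : nb G U v ⊆ U := filter_subset _ _

lemma nb_mono {U W : Finset V} (h : U ⊆ W) (v : V) : nb G U v ⊆ nb G W v :=
  filter_subset_filter _ h

lemma KFree.pos {s : ℕ} (hK : KFree G s) : 0 < s := by
  rcases Nat.eq_zero_or_pos s with h | h
  · subst h
    exact absurd (by simp) (hK ∅ ∅ (by simp) (by simp))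
  · exact h

lemma exc_card_lt {s : ℕ} (hK : KFree G s) (U : Finset V) (hU : 2 * s ≤ U.card) :
    (univ.filter (fun v => 2 * s * (U.filter (fun u => ¬ G.Adj v u)).card < U.card)).card < s := by
  have hs := hK.pos
  by_contra hcon
  push Not at hcon
  obtain ⟨Z, hZsub, hZcard⟩ := exists_subset_card_eq hcon
  set W := U.filter (fun u => ∀ v ∈ Z, G.Adj v u) with hW
  have hcov : U ⊆ W ∪ Z.biUnion (fun v => U.filter (fun u => ¬ G.Adj v u)) := by
    intro u hu
    rw [mem_union, mem_biUnion]
    by_cases h : ∀ v ∈ Z, G.Adj v u
    · left; rw [hW, mem_filter]; exact ⟨hu, h⟩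
    · right
      push Not at h
      obtain ⟨v, hv, hvu⟩ := h
      exact ⟨v, hv, by rw [mem_filter]; exact ⟨hu, hvu⟩⟩
  have h1 : U.card ≤ W.card + ∑ v ∈ Z, (U.filter (fun u => ¬ G.Adj v u)).card :=
    (card_le_card hcov).trans ((card_union_le _ _).trans (Nat.add_le_add_left card_biUnion_le _))
  have hZne : Z.Nonempty := by rw [← card_pos, hZcard]; exact hs
  have h2 : ∑ v ∈ Z, (2 * s * (U.filter (fun u => ¬ G.Adj v u)).card) < ∑ _v ∈ Z, U.card := by
    apply sum_lt_sum_of_nonempty hZne
    intro v hv
    have := hZsub hv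
    rw [mem_filter] at this
    exact this.2
  rw [← mul_sum, sum_const, hZcard, smul_eq_mul] at h2
  have h3 : U.card < 2 * W.card := by
    by_contra h
    push Not at h
    nlinarith
  have h4 : s ≤ W.card := by omega
  obtain ⟨B, hBsub, hBcard⟩ := exists_subset_card_eq h4
  refine hK Z B hZcard hBcard ?_
  intro a ha b hb
  have := hBsub hb
  rw [hW, mem_filter] at this
  exact this.2 a ha

/-- Large sets have an independent transversal. -/
lemma exists_transversal [Nonempty V] {s : ℕ} (hK : KFree G s) {ι : Type*} [DecidableEq ι]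
    (R : Finset ι) : ∀ (C : ι → Finset V), (∀ i ∈ R, (4 * s) ^ R.card ≤ (C i).card) →
    ∃ y : ι → V, (∀ i ∈ R, y i ∈ C i) ∧
      (∀ i ∈ R, ∀ j ∈ R, i ≠ j → y i ≠ y j ∧ ¬ G.Adj (y i) (y j)) := by
  have hs := hK.pos
  induction R using Finset.induction_on with
  | empty =>
    intro C _
    exact ⟨fun _ => Classical.arbitrary V, by simp, by simp⟩
  | insert a R ha ih =>
    intro C hC
    rw [card_insert_of_notMem ha] at hC
    set r := R.card with hr
    have hpow1 : 1 ≤ (4 * s) ^ r := Nat.one_le_pow _ _ (by omega)
    have hsucc : (4 * s) ^ (r + 1) = 4 * s * (4 * s) ^ r := by rw [pow_succ]; ring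
    -- exceptional vertices
    set Bad := R.biUnion (fun j => univ.filter
      (fun v => 2 * s * ((C j).filter (fun u => ¬ G.Adj v u)).card < (C j).card)) with hBad
    have hBadcard : Bad.card ≤ r * s := by
      refine card_biUnion_le.trans ?_
      refine (sum_le_sum (fun j hj => (exc_card_lt hK (C j) ?_).le)).trans ?_
      · have := hC j (mem_insert_of_mem hj)
        nlinarith
      · rw [sum_const, smul_eq_mul]
    have hlt : r * s < (C a).card := by
      have h1 := hC a (mem_insert_self _ _)
      have h2 : r < 4 ^ r := Nat.lt_pow_self (by norm_num)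
      have h3 : 4 ^ r ≤ (4 * s) ^ r := Nat.pow_le_pow_left (by omega) r
      nlinarith
    have hex : ∃ v ∈ C a, v ∉ Bad := by
      by_contra hcon
      push Not at hcon
      have : C a ⊆ Bad := fun v hv => hcon v hv
      have := card_le_card this
      omega
    obtain ⟨v, hvC, hvB⟩ := hex
    have hgood : ∀ j ∈ R, (C j).card ≤ 2 * s * ((C j).filter (fun u => ¬ G.Adj v u)).card := by
      intro j hj
      by_contra hcon
      push Not at hcon
      apply hvB
      rw [hBad, mem_biUnion]
      exact ⟨j, hj, by rw [mem_filter]; exact ⟨mem_univ _, hcon⟩⟩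
    obtain ⟨y, hy1, hy2⟩ := ih (fun j => ((C j).filter (fun u => ¬ G.Adj v u)).erase v) (by
      intro j hj
      have h1 := hgood j hj
      have h2 := hC j (mem_insert_of_mem hj)
      have h3 := pred_card_le_card_erase (s := (C j).filter (fun u => ¬ G.Adj v u)) (a := v)
      have h4 : 2 * (4 * s) ^ r ≤ ((C j).filter (fun u => ¬ G.Adj v u)).card := by
        rw [hsucc] at h2
        have : 2 * s * (2 * (4 * s) ^ r) ≤ 2 * s * ((C j).filter (fun u => ¬ G.Adj v u)).card := by
          calc 2 * s * (2 * (4 * s) ^ r) = 4 * s * (4 * s) ^ r := by ring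
            _ ≤ (C j).card := h2
            _ ≤ _ := h1
        exact Nat.le_of_mul_le_mul_left this (by omega)
      omega)
    refine ⟨fun i => if i = a then v else y i, ?_, ?_⟩
    · intro i hi
      by_cases hia : i = a
      · simp only [hia, if_true]; exact hvC
      · have hiR : i ∈ R := (mem_insert.mp hi).resolve_left hia
        have := hy1 i hiR
        simp only [hia, if_false]
        exact (mem_filter.mp (mem_of_mem_erase this)).1
    · intro i hi j hj hij
      have key : ∀ k ∈ R, v ≠ y k ∧ ¬ G.Adj v (y k) := by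
        intro k hk
        have := hy1 k hk
        rw [mem_erase, mem_filter] at this
        exact ⟨fun h => this.1 h.symm, this.2.2⟩
      by_cases hia : i = a
      · have hja : j ≠ a := fun h => hij (hia.trans h.symm)
        have hjR : j ∈ R := (mem_insert.mp hj).resolve_left hja
        simp only [hia, if_true, hja, if_false]
        exact key j hjR
      · have hiR : i ∈ R := (mem_insert.mp hi).resolve_left hia
        by_cases hja : j = a
        · simp only [hia, if_false, hja, if_true]
          exact ⟨fun h => (key i hiR).1 h.symm, fun h => (key i hiR).2 h.symm⟩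
        · have hjR : j ∈ R := (mem_insert.mp hj).resolve_left hja
          simp only [hia, if_false, hja]
          exact hy2 i hiR j hjR hij

/-- A relation in which every element of `B` is related to at most `D` elements of `B` has a large
independent set. -/
lemma exists_indep_of_degree {β : Type*} [DecidableEq β] (B : Finset β) (r : β → β → Prop)
    [DecidableRel r] (hsymm : ∀ x y, r x y → r y x) (D : ℕ)
    (hD : ∀ b ∈ B, (B.filter (fun x => r b x)).card ≤ D) :
    ∃ B' ⊆ B, B.card ≤ (D + 1) * B'.card ∧ ∀ b ∈ B', ∀ b' ∈ B', b ≠ b' → ¬ r b b' := by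
  set F := B.powerset.filter (fun X => ∀ b ∈ X, ∀ b' ∈ X, b ≠ b' → ¬ r b b') with hF
  have hne : F.Nonempty := ⟨∅, by simp [hF]⟩
  obtain ⟨B', hB'F, hmax⟩ := exists_max_image F (fun X => X.card) hne
  rw [hF, mem_filter, mem_powerset] at hB'F
  refine ⟨B', hB'F.1, ?_, hB'F.2⟩
  have hcov : B ⊆ B'.biUnion (fun b => insert b (B.filter (fun x => r b x))) := by
    intro x hx
    rw [mem_biUnion]
    by_cases hxB' : x ∈ B'
    · exact ⟨x, hxB', mem_insert_self _ _⟩
    by_contra hcon
    push Not at hcon
    have hins : insert x B' ∈ F := by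
      rw [hF, mem_filter, mem_powerset]
      refine ⟨insert_subset hx hB'F.1, ?_⟩
      have key : ∀ b ∈ B', ¬ r b x := by
        intro b hb hr
        exact hcon b hb (mem_insert_of_mem (mem_filter.mpr ⟨hx, hr⟩))
      intro b hb b' hb' hne'
      rcases mem_insert.mp hb with h | h <;> rcases mem_insert.mp hb' with h' | h'
      · exact absurd (h.trans h'.symm) hne'
      · subst h; exact fun hr => key b' h' (hsymm _ _ hr)
      · subst h'; exact key b h
      · exact hB'F.2 b h b' h' hne'
    have := hmax _ hins
    rw [card_insert_of_notMem hxB'] at this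
    omega
  calc B.card ≤ ∑ b ∈ B', (insert b (B.filter (fun x => r b x))).card :=
        (card_le_card hcov).trans card_biUnion_le
    _ ≤ ∑ _b ∈ B', (D + 1) := by
        apply sum_le_sum
        intro b hb
        exact (card_insert_le _ _).trans (Nat.add_le_add_right (hD b (hB'F.1 hb)) 1)
    _ = (D + 1) * B'.card := by rw [sum_const, smul_eq_mul, mul_comm]

end Pool.Agent.Helper286_biclique
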