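import Pool.Agent.Helper286_biclique.KST

/-!
Inside a large set there is an independent set of prescribed size all of whose `h`-subsets have few
common neighbours.
-/

set_option linter.unusedSectionVars false

namespace Pool.Agent.Helper286_biclique

open Finset

variable {V : Type*} [Fintype V] [DecidableEq V] {G : SimpleGraph V} [DecidableRel G.Adj]

lemma card_tuples_comp (U : Finset V) {h k : ℕ} (g : Fin h ↪ Fin k) (F : Finset (Fin h → V)) :
    ((Fintype.piFinset (fun _ : Fin k => U)).filter (fun f => (fun i => f (g i)) ∈ F)).card ≤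
      F.card * U.card ^ (k - h) := by
  classical
  set S := (Fintype.piFinset (fun _ : Fin k => U)).filter (fun f => (fun i => f (g i)) ∈ F) with hS
  have himg : S.image (fun f => (fun i => f (g i))) ⊆ F := by
    intro T hT
    rw [mem_image] at hT
    obtain ⟨f, hf, rfl⟩ := hT
    exact (mem_filter.mp hf).2
  have h1 := card_le_mul_card_image (f := fun (f : Fin k → V) => (fun i => f (g i))) S
    (U.card ^ (k - h)) (by
      intro T _
      rcases (S.filter (fun f => (fun i => f (g i)) = T)).eq_empty_or_nonempty with he | ⟨f0, hf0⟩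
      · rw [he]; simp
      · have hsub : S.filter (fun f => (fun i => f (g i)) = T) ⊆
            Fintype.piFinset (fun i : Fin k => if i ∈ univ.map g then {f0 i} else U) := by
          intro f hf
          rw [mem_filter] at hf hf0
          rw [Fintype.mem_piFinset]
          intro i
          by_cases hi : i ∈ univ.map g
          · rw [if_pos hi, mem_singleton]
            obtain ⟨j, _, rfl⟩ := mem_map.mp hi
            exact congrFun (hf.2.trans hf0.2.symm) j
          · rw [if_neg hi]
            have := (mem_filter.mp hf.1).1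
            rw [Fintype.mem_piFinset] at this
            exact this i
        refine (card_le_card hsub).trans ?_
        rw [Fintype.card_piFinset]
        have h1 : ∀ i : Fin k, ((if i ∈ univ.map g then {f0 i} else U) : Finset V).card
            = if i ∈ univ.map g then 1 else U.card := by
          intro i; by_cases hi : i ∈ univ.map g
          · rw [if_pos hi, if_pos hi, card_singleton]
          · rw [if_neg hi, if_neg hi]
        simp_rw [h1]
        rw [prod_ite]
        simp only [prod_const_one, one_mul, prod_const]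
        apply le_of_eq
        congr 1
        have h2 : univ.filter (fun i : Fin k => i ∉ univ.map g) = (univ.map g)ᶜ := by
          ext i; simp
        rw [h2, card_compl, card_map]
        simp)
  calc S.card ≤ U.card ^ (k - h) * (S.image (fun f => (fun i => f (g i)))).card := h1
    _ ≤ U.card ^ (k - h) * F.card := Nat.mul_le_mul_left _ (card_le_card himg)
    _ = _ := mul_comm _ _

lemma card_fin_embedding_le (h k : ℕ) : Fintype.card (Fin h ↪ Fin k) ≤ k ^ h := by
  rw [Fintype.card_embedding_eq]
  simp only [Fintype.card_fin]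
  exact Nat.descFactorial_le_pow _ _

/-- Choice of an independent set without rich `h`-subsets. -/
lemma exists_good_subset {s : ℕ} (hK : KFree G s) {h : ℕ} (hh : 1 ≤ h) (H : SimpleGraph (Fin h))
    (hH : H.Colorable 2) (hfree : IsEmpty (H ↪g G)) (U B : Finset V) (K : ℕ) (hK1 : 1 ≤ K)
    (c1 : 4 * K ^ 2 ≤ U.card) (c2 : 4 * (K ^ h * bad1 s h) ≤ U.card)
    (c3 : 2 * (4 * K ^ 2) * nOne s h ≤ U.card) (c4 : yZero s h (4 * K ^ 2) < U.card) :
    ∃ I ⊆ U, I.card = K ∧ (∀ x ∈ I, ∀ y ∈ I, ¬ G.Adj x y) ∧
      ∀ T : Fin h → V, (∀ i, T i ∈ I) → (∀ i j, T i = T j → i = j) →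
        (cell G B T univ ∅).card < theta s h := by
  classical
  set M := U.card with hM
  have hKsq : 1 ≤ K ^ 2 := Nat.one_le_pow _ _ hK1
  have hMpos : 0 < M := by omega
  set e := ∑ y ∈ U, (nb G U y).card with he
  have hedge : 4 * K ^ 2 * e < M * M := by
    by_contra hcon
    push Not at hcon
    have := kst_induced hK hh H hH hfree (4 * K ^ 2) (by omega) U U c3 hMpos hcon
    omega
  -- bad pairs
  set E : Finset (Fin 2 → V) := (Fintype.piFinset (fun _ : Fin 2 => U)).filter
    (fun T => T 0 = T 1 ∨ G.Adj (T 0) (T 1)) with hE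
  have hEcard : E.card ≤ M + e := by
    have h1 : E.card ≤ (U.biUnion (fun y => (insert y (nb G U y)).image (fun z => (y, z)))).card := by
      apply card_le_card_of_injOn (fun T => (T 0, T 1))
      · intro T hT
        rw [mem_coe, hE, mem_filter, Fintype.mem_piFinset] at hT
        rw [mem_coe, mem_biUnion]
        refine ⟨T 0, hT.1 0, ?_⟩
        rw [mem_image]
        refine ⟨T 1, ?_, rfl⟩
        rw [mem_insert, mem_nb]
        rcases hT.2 with h | h
        · exact Or.inl h.symm
        · exact Or.inr ⟨hT.1 1, h⟩
      · intro T _ S _ hTS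
        simp only [Prod.mk.injEq] at hTS
        funext i
        fin_cases i
        · exact hTS.1
        · exact hTS.2
    calc E.card ≤ ∑ y ∈ U, ((insert y (nb G U y)).image (fun z => (y, z))).card :=
          h1.trans card_biUnion_le
      _ ≤ ∑ y ∈ U, (1 + (nb G U y).card) := by
          apply sum_le_sum
          intro y _
          refine card_image_le.trans ((card_insert_le _ _).trans ?_)
          omega
      _ = M + e := by rw [sum_add_distrib, sum_const, smul_eq_mul, mul_one]
  -- rich tuples
  set R : Finset (Fin h → V) := (indepT G h U).filter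
    (fun T => theta s h ≤ (cell G B T univ ∅).card) with hR
  have hRcard : R.card ≤ bad1 s h * M ^ (h - 1) := card_rich_tuples hK H hH hfree U B
  set BE : Finset (Fin K → V) := (univ : Finset (Fin 2 ↪ Fin K)).biUnion (fun g =>
    (Fintype.piFinset (fun _ : Fin K => U)).filter (fun f => (fun i => f (g i)) ∈ E)) with hBE
  set BR : Finset (Fin K → V) := (univ : Finset (Fin h ↪ Fin K)).biUnion (fun g =>
    (Fintype.piFinset (fun _ : Fin K => U)).filter (fun f => (fun i => f (g i)) ∈ R)) with hBR
  have hMK : 0 < M ^ K := Nat.pow_pos hMpos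
  have hBEcard : 4 * BE.card < 3 * M ^ K := by
    rcases isEmpty_or_nonempty (Fin 2 ↪ Fin K) with hemp | ⟨⟨g0⟩⟩
    · have : BE = ∅ := by
        rw [hBE]
        simp [univ_eq_empty]
      rw [this]; simp; omega
    · have hK2 : 2 ≤ K := by
        have := Fintype.card_le_of_embedding g0
        simpa using this
      have h1 : BE.card ≤ K ^ 2 * ((M + e) * M ^ (K - 2)) := by
        calc BE.card ≤ ∑ g : Fin 2 ↪ Fin K, ((Fintype.piFinset (fun _ : Fin K => U)).filter
              (fun f => (fun i => f (g i)) ∈ E)).card := card_biUnion_le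
          _ ≤ ∑ _g : Fin 2 ↪ Fin K, (M + e) * M ^ (K - 2) := by
              apply sum_le_sum
              intro g _
              exact (card_tuples_comp U g E).trans (Nat.mul_le_mul_right _ hEcard)
          _ = Fintype.card (Fin 2 ↪ Fin K) * ((M + e) * M ^ (K - 2)) := by
              rw [sum_const, smul_eq_mul, card_univ]
          _ ≤ _ := Nat.mul_le_mul_right _ (card_fin_embedding_le 2 K)
      have h2 : 4 * (K ^ 2 * (M + e)) < 2 * (M * M) := by
        have h3 : 4 * K ^ 2 * M ≤ M * M := Nat.mul_le_mul_right _ c1
        nlinarith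
      have hpow : 0 < M ^ (K - 2) := Nat.pow_pos hMpos
      have hpow2 : M ^ K = M * M * M ^ (K - 2) := by
        conv_lhs => rw [show K = 2 + (K - 2) by omega]
        rw [pow_add]; ring
      calc 4 * BE.card ≤ 4 * (K ^ 2 * ((M + e) * M ^ (K - 2))) := Nat.mul_le_mul_left _ h1
        _ = 4 * (K ^ 2 * (M + e)) * M ^ (K - 2) := by ring
        _ < 2 * (M * M) * M ^ (K - 2) := Nat.mul_lt_mul_of_pos_right h2 hpow
        _ = 2 * M ^ K := by rw [hpow2]; ring
        _ ≤ 3 * M ^ K := Nat.mul_le_mul_right _ (by norm_num)
  have hBRcard : 4 * BR.card ≤ M ^ K := by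
    rcases isEmpty_or_nonempty (Fin h ↪ Fin K) with hemp | ⟨⟨g0⟩⟩
    · have : BR = ∅ := by
        rw [hBR]
        simp [univ_eq_empty]
      rw [this]; simp
    · have hKh : h ≤ K := by
        have := Fintype.card_le_of_embedding g0
        simpa using this
      have h1 : BR.card ≤ K ^ h * (bad1 s h * M ^ (h - 1) * M ^ (K - h)) := by
        calc BR.card ≤ ∑ g : Fin h ↪ Fin K, ((Fintype.piFinset (fun _ : Fin K => U)).filter
              (fun f => (fun i => f (g i)) ∈ R)).card := card_biUnion_le
          _ ≤ ∑ _g : Fin h ↪ Fin K, bad1 s h * M ^ (h - 1) * M ^ (K - h) := by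
              apply sum_le_sum
              intro g _
              exact (card_tuples_comp U g R).trans (Nat.mul_le_mul_right _ hRcard)
          _ = Fintype.card (Fin h ↪ Fin K) * (bad1 s h * M ^ (h - 1) * M ^ (K - h)) := by
              rw [sum_const, smul_eq_mul, card_univ]
          _ ≤ _ := Nat.mul_le_mul_right _ (card_fin_embedding_le h K)
      have hpow2 : M ^ K = M * (M ^ (h - 1) * M ^ (K - h)) := by
        conv_lhs => rw [show K = 1 + ((h - 1) + (K - h)) by omega]
        rw [pow_add, pow_add]; ring
      calc 4 * BR.card ≤ 4 * (K ^ h * (bad1 s h * M ^ (h - 1) * M ^ (K - h))) :=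
            Nat.mul_le_mul_left _ h1
        _ = 4 * (K ^ h * bad1 s h) * (M ^ (h - 1) * M ^ (K - h)) := by ring
        _ ≤ M * (M ^ (h - 1) * M ^ (K - h)) := Nat.mul_le_mul_right _ c2
        _ = M ^ K := hpow2.symm
  -- a good tuple
  have hex : ∃ f ∈ Fintype.piFinset (fun _ : Fin K => U), f ∉ BE ∧ f ∉ BR := by
    by_contra hcon
    push Not at hcon
    have h1 : Fintype.piFinset (fun _ : Fin K => U) ⊆ BE ∪ BR := by
      intro f hf
      rw [mem_union]
      by_cases h : f ∈ BE
      · exact Or.inl h
      · exact Or.inr (hcon f hf h)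
    have h2 := (card_le_card h1).trans (card_union_le _ _)
    rw [Fintype.card_piFinset] at h2
    simp only [prod_const, card_univ, Fintype.card_fin] at h2
    rw [← hM] at h2
    omega
  obtain ⟨f, hfU, hfE, hfR⟩ := hex
  rw [Fintype.mem_piFinset] at hfU
  have hpair : ∀ i j : Fin K, i ≠ j → f i ≠ f j ∧ ¬ G.Adj (f i) (f j) := by
    intro i j hij
    by_contra hcon
    apply hfE
    rw [hBE, mem_biUnion]
    refine ⟨⟨fun x => if x = 0 then i else j, ?_⟩, mem_univ _, ?_⟩
    · intro x y hxy
      fin_cases x <;> fin_cases y <;> simp_all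
    · rw [mem_filter, Fintype.mem_piFinset]
      refine ⟨hfU, ?_⟩
      rw [hE, mem_filter, Fintype.mem_piFinset]
      refine ⟨fun _ => hfU _, ?_⟩
      simp only [Function.Embedding.coeFn_mk, if_true, one_ne_zero, if_false]
      by_contra h
      push Not at h
      exact hcon h
  have hinj : Function.Injective f := by
    intro i j hij
    by_contra hne
    exact (hpair i j hne).1 hij
  refine ⟨univ.image f, ?_, ?_, ?_, ?_⟩
  · intro x hx
    obtain ⟨i, _, rfl⟩ := mem_image.mp hx
    exact hfU i
  · rw [card_image_of_injective _ hinj]; simp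
  · intro x hx y hy
    obtain ⟨i, _, rfl⟩ := mem_image.mp hx
    obtain ⟨j, _, rfl⟩ := mem_image.mp hy
    by_cases hij : i = j
    · subst hij; exact G.loopless.irrefl _
    · exact (hpair i j hij).2
  · intro T hT hTinj
    by_contra hcon
    push Not at hcon
    have hT' : ∀ i, ∃ j, f j = T i := by
      intro i
      obtain ⟨j, _, hj⟩ := mem_image.mp (hT i)
      exact ⟨j, hj⟩
    choose g hg using hT'
    have hginj : Function.Injective g := by
      intro i j hij
      apply hTinj
      rw [← hg i, ← hg j, hij]
    apply hfR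
    rw [hBR, mem_biUnion]
    refine ⟨⟨g, hginj⟩, mem_univ _, ?_⟩
    rw [mem_filter, Fintype.mem_piFinset]
    refine ⟨hfU, ?_⟩
    have heq : (fun i => f ((⟨g, hginj⟩ : Fin h ↪ Fin K) i)) = T := by
      funext i; exact hg i
    rw [heq, hR, mem_filter, mem_indepT]
    refine ⟨⟨fun i => ?_, hTinj, fun i j => ?_⟩, hcon⟩
    · rw [← hg i]; exact hfU _
    · rw [← hg i, ← hg j]
      by_cases hij : g i = g j
      · rw [hij]; exact G.loopless.irrefl _
      · exact (hpair _ _ hij).2

end Pool.Agent.Helper286_biclique
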