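import Pool.Agent.Helper286_biclique.Params

/-!
The main theorem in terms of finsets.
-/

set_option linter.unusedSectionVars false

namespace Pool.Agent.Helper286_biclique

open Finset

/-- parameter `l` of the almost regular case -/
def pl (J : ℕ) : ℕ := 6432 * J ^ 2
/-- parameter `ν` of the almost regular case -/
def pnu (J s : ℕ) : ℕ := 4 * pl J * s
/-- parameter `μ` of the almost regular case -/
def pmu (J s : ℕ) : ℕ := 48 * pl J * pnu J s ^ 3

lemma pl_mono {J J' : ℕ} (h : J ≤ J') : pl J ≤ pl J' := by unfold pl; gcongr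

lemma pnu_mono {J J' s s' : ℕ} (h : J ≤ J') (hs : s ≤ s') : pnu J s ≤ pnu J' s' := by
  unfold pnu
  have := pl_mono h
  gcongr

lemma pmu_mono {J J' s s' : ℕ} (h : J ≤ J') (hs : s ≤ s') : pmu J s ≤ pmu J' s' := by
  unfold pmu
  have := pl_mono h
  have := pnu_mono h hs
  gcongr

lemma PB_pl : PB (fun x => pl x) := by
  unfold pl; exact (PB.const _).mul (PB.id.pow 2)

lemma PB_pnu : PB (fun x => pnu x x) := by
  unfold pnu; exact ((PB.const _).mul PB_pl).mul PB.id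

lemma PB_pmu : PB (fun x => pmu x x) := by
  unfold pmu; exact ((PB.const _).mul PB_pl).mul (PB_pnu.pow 3)

lemma params (m : ℕ) : ∃ C : ℕ, 1 ≤ C ∧ ∀ s d : ℕ, 2 ≤ s → s ^ C ≤ d → d < (s + 1) ^ C →
    ∃ J : ℕ, 1 ≤ J ∧ 4 * (s ^ m) ^ 2 ≤ d / 16 ∧
      4 * ((s ^ m) ^ (m + 1) * bad1 s (m + 1)) ≤ d / 16 ∧
      2 * (4 * (s ^ m) ^ 2) * nOne s (m + 1) ≤ d / 16 ∧
      yZero s (m + 1) (4 * (s ^ m) ^ 2) < d / 16 ∧
      256 * Theta s m s (2 * d) (2 * (8 * d + s ^ m * (2 * d))) ≤ 2 ^ J ∧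
      pnu J s ≤ d ∧ pmu J s * yZero s (m + 1) (pmu J s) ≤ d ∧
      2 * pmu J s * nOne s (m + 1) * pmu J s ≤ d := by
  have hid := PB.id
  have hK : PB (fun x => x ^ m) := hid.pow m
  have h4K : PB (fun x => 4 * (x ^ m) ^ 2) := (PB.const 4).mul (hK.pow 2)
  have hg1 : PB (fun x => 16 * (4 * (x ^ m) ^ 2)) := (PB.const 16).mul h4K
  have hg2 : PB (fun x => 16 * (4 * ((x ^ m) ^ (m + 1) * bad1 x (m + 1)))) :=
    (PB.const 16).mul ((PB.const 4).mul ((hK.pow (m + 1)).mul (hid.bad1 (m + 1))))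
  have hg3 : PB (fun x => 16 * (2 * (4 * (x ^ m) ^ 2) * nOne x (m + 1))) :=
    (PB.const 16).mul (((PB.const 2).mul h4K).mul (hid.nOne (m + 1)))
  have hg4 : PB (fun x => 16 * (yZero x (m + 1) (4 * (x ^ m) ^ 2) + 1)) :=
    (PB.const 16).mul ((hid.yZero h4K (m + 1)).add (PB.const 1))
  have hg6 : PB (fun x => pmu x x * yZero x (m + 1) (pmu x x)) :=
    PB_pmu.mul (hid.yZero PB_pmu (m + 1))
  have hg7 : PB (fun x => 2 * pmu x x * nOne x (m + 1) * pmu x x) :=
    (((PB.const 2).mul PB_pmu).mul (hid.nOne (m + 1))).mul PB_pmu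
  obtain ⟨b, hb⟩ := (((((hg1.add hg2).add hg3).add hg4).add PB_pnu).add hg6).add hg7
  obtain ⟨a, ha⟩ := PB_expo m
  obtain ⟨C, hC1, hC2, hC3⟩ := exists_exp b ((a + 1) * b)
  refine ⟨C, hC1, ?_⟩
  intro s d hs hsd hds
  have hd1 : 1 ≤ d := le_trans (Nat.one_le_pow _ _ (by omega)) hsd
  have hd2 : d ≤ (2 * s) ^ C := hds.le.trans (Nat.pow_le_pow_left (by omega) C)
  have hx1 : C * s ^ a ≤ C * s ^ (a + 1) :=
    Nat.mul_le_mul_left _ (Nat.pow_le_pow_right (by omega) (by omega))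
  obtain ⟨x, hx⟩ : ∃ x, x = C * s ^ (a + 1) := ⟨_, rfl⟩
  have hsx : s ≤ x := by
    rw [hx]
    calc s = 1 * s ^ 1 := by ring
      _ ≤ C * s ^ (a + 1) := Nat.mul_le_mul hC1 (Nat.pow_le_pow_right (by omega) (by omega))
  have hJx : C * expo m s ≤ x := by
    rw [hx]; exact (Nat.mul_le_mul_left _ (ha s hs)).trans hx1
  have hFx : x ^ b ≤ d := by
    refine le_trans ?_ hsd
    rw [hx, mul_pow, ← pow_mul]
    obtain ⟨c, hc⟩ : ∃ c, C = c + (a + 1) * b := ⟨C - (a + 1) * b, by omega⟩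
    have h1 : C ^ b ≤ 2 ^ c := by
      have h2 : C ^ b * 2 ^ ((a + 1) * b) ≤ 2 ^ c * 2 ^ ((a + 1) * b) := by
        rw [← pow_add, ← hc]; exact hC3
      exact Nat.le_of_mul_le_mul_right h2 (by positivity)
    calc C ^ b * s ^ ((a + 1) * b) ≤ s ^ c * s ^ ((a + 1) * b) :=
          Nat.mul_le_mul_right _ (h1.trans (Nat.pow_le_pow_left hs c))
      _ = s ^ C := by rw [← pow_add, ← hc]
  have hF := (hb x (by omega)).trans hFx
  simp only at hF
  have hKx : s ^ m ≤ x ^ m := Nat.pow_le_pow_left hsx m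
  have h4Kx : 4 * (s ^ m) ^ 2 ≤ 4 * (x ^ m) ^ 2 := by gcongr
  have hbad := bad1_mono hsx (m + 1)
  have hnOne := nOne_mono hsx (m + 1)
  have hpnu : pnu (C * expo m s) s ≤ pnu x x := pnu_mono hJx hsx
  have hpmu : pmu (C * expo m s) s ≤ pmu x x := pmu_mono hJx hsx
  have hyz1 := yZero_mono hsx h4Kx (m + 1)
  have hyz2 := yZero_mono hsx hpmu (m + 1)
  have e2 : (s ^ m) ^ (m + 1) * bad1 s (m + 1) ≤ (x ^ m) ^ (m + 1) * bad1 x (m + 1) := by gcongr
  have e3 : 2 * (4 * (s ^ m) ^ 2) * nOne s (m + 1) ≤ 2 * (4 * (x ^ m) ^ 2) * nOne x (m + 1) := by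
    gcongr
  have e6 : pmu (C * expo m s) s * yZero s (m + 1) (pmu (C * expo m s) s) ≤
      pmu x x * yZero x (m + 1) (pmu x x) := Nat.mul_le_mul hpmu hyz2
  have e7 : 2 * pmu (C * expo m s) s * nOne s (m + 1) * pmu (C * expo m s) s ≤
      2 * pmu x x * nOne x (m + 1) * pmu x x := by gcongr
  refine ⟨C * expo m s, ?_, ?_, ?_, ?_, ?_, ?_, ?_, ?_, ?_⟩
  · have : 1 ≤ expo m s := by unfold expo; omega
    exact Nat.mul_pos hC1 this
  · rw [Nat.le_div_iff_mul_le (by norm_num)]; omega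
  · rw [Nat.le_div_iff_mul_le (by norm_num)]; omega
  · rw [Nat.le_div_iff_mul_le (by norm_num)]; omega
  · rw [Nat.lt_iff_add_one_le, Nat.le_div_iff_mul_le (by norm_num)]; omega
  · exact Theta_le_two_pow s m C d hs hC1 hd1 hd2
  · omega
  · omega
  · omega

lemma KFree.mono {V : Type*} [Fintype V] [DecidableEq V] {G : SimpleGraph V} {s t : ℕ}
    (hK : KFree G s) (hst : s ≤ t) : KFree G t := by
  intro A B hA hB h
  obtain ⟨A', hA', hA'c⟩ := exists_subset_card_eq (hst.trans hA.ge)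
  obtain ⟨B', hB', hB'c⟩ := exists_subset_card_eq (hst.trans hB.ge)
  exact hK A' B' hA'c hB'c (fun a ha b hb => h a (hA' ha) b (hB' hb))

lemma exists_root (C s d : ℕ) (hC : 1 ≤ C) (hsd : s ^ C ≤ d) :
    ∃ t, s ≤ t ∧ t ^ C ≤ d ∧ d < (t + 1) ^ C := by
  classical
  have hex : ∃ t, d < (t + 1) ^ C := by
    refine ⟨d, ?_⟩
    calc d < d + 1 := by omega
      _ = (d + 1) ^ 1 := by ring
      _ ≤ (d + 1) ^ C := Nat.pow_le_pow_right (by omega) hC
  refine ⟨Nat.find hex, ?_, ?_, Nat.find_spec hex⟩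
  · by_contra hcon
    push Not at hcon
    have h1 := Nat.find_spec hex
    have h2 : (Nat.find hex + 1) ^ C ≤ s ^ C := Nat.pow_le_pow_left hcon C
    omega
  · rcases Nat.eq_zero_or_pos (Nat.find hex) with h | h
    · rw [h, zero_pow (by omega)]; omega
    · have h1 := Nat.find_min hex (show Nat.find hex - 1 < Nat.find hex by omega)
      rw [show Nat.find hex - 1 + 1 = Nat.find hex by omega] at h1
      omega

/-- The main theorem, in terms of finsets. -/
theorem core {m : ℕ} (H : SimpleGraph (Fin (m + 1))) (hH : H.Colorable 2) :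
    ∃ C : ℕ, ∀ s : ℕ, 1 ≤ s → ∀ (V : Type*) [Fintype V] [DecidableEq V] [Nonempty V]
      (G : SimpleGraph V) [DecidableRel G.Adj], IsEmpty (H ↪g G) →
      s ^ C * Fintype.card V ≤ ∑ v, (nb G univ v).card → KFree G s →
      ∃ X : Finset V, X.Nonempty ∧ C4F G X ∧ s * X.card ≤ ∑ v ∈ X, (nb G X v).card := by
  obtain ⟨C, hC1, hC⟩ := params m
  refine ⟨C, ?_⟩
  intro s hs V _ _ _ G _ hfree hdeg hK
  obtain ⟨V0, d, hV0, hsd, hd0, hsub, hmin⟩ := exists_max_set (G := G) (s ^ C)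
    (Nat.one_le_pow _ _ (by omega)) hdeg
  obtain ⟨t, hst, htd, hdt⟩ := exists_root C s d hC1 hsd
  have hKt : KFree G t := hK.mono hst
  have hd1 : 1 ≤ d := le_trans (Nat.one_le_pow _ _ (by omega)) hsd
  suffices hmain : ∃ X : Finset V, X.Nonempty ∧ C4F G X ∧
      t * X.card ≤ ∑ v ∈ X, (nb G X v).card by
    obtain ⟨X, h1, h2, h3⟩ := hmain
    exact ⟨X, h1, h2, (Nat.mul_le_mul_right _ hst).trans h3⟩
  rcases Nat.lt_or_ge t 2 with ht | ht
  · -- `t = 1`: there is an edge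
    exfalso
    have ht1 : t = 1 := by omega
    subst ht1
    obtain ⟨v, hv⟩ := hV0
    have h1 := hmin v hv
    have h2 : 0 < (nb G V0 v).card := by omega
    obtain ⟨u, hu⟩ := card_pos.mp h2
    refine hKt {v} {u} (by simp) (by simp) ?_
    intro a ha b hb
    rw [mem_singleton] at ha hb
    subst ha; subst hb
    exact (mem_nb.mp hu).2
  · obtain ⟨J, hJ1, c1, c2, c3, c4, hunb, r0, r1, r2⟩ := hC t d ht htd hdt
    rcases dichotomy (G := G) V0 hV0 d J hd1 hJ1 hsub hmin with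
      ⟨W, hW, hWup, hWlow⟩ | ⟨A, B, hA, hB, hAB, hBne, hlow, hup, hcard⟩
    · have hdΔ : d ≤ 134 * J * d := Nat.le_mul_of_pos_left _ (by omega)
      refine regular_case hKt (by omega) H hH hfree W hW (134 * J * d) (pl J) (pnu J t) (pmu J t) t
        (by omega) ?_ hWup ?_ rfl rfl (r0.trans hdΔ) (r1.trans hdΔ) (r2.trans hdΔ)
      · unfold pl
        have : 0 < 6432 * J ^ 2 := by positivity
        exact this
      · calc 134 * J * d * W.card = 134 * J * (d * W.card) := by ring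
          _ ≤ 134 * J * (48 * J * ∑ v ∈ W, (nb G W v).card) := Nat.mul_le_mul_left _ hWlow
          _ = pl J * ∑ v ∈ W, (nb G W v).card := by unfold pl; ring
    · refine unbalanced hKt H hH hfree A B hAB (2 * d) (d / 16) (8 * d) t
        (2 * (8 * d + t ^ m * (2 * d))) (by omega) (by omega)
        (fun X hX => hsub X (hX.trans (union_subset hA hB))) ?_ hup c1 c2 c3 c4 le_rfl ?_ hBne ?_
      · intro b hb
        have := hlow b hb
        omega
      · have : 0 < 2 * (8 * d + t ^ m * (2 * d)) := by positivity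
        exact this
      · have h1 : 256 * (Theta t m t (2 * d) (2 * (8 * d + t ^ m * (2 * d))) * A.card) ≤
            256 * B.card := by
          calc 256 * (Theta t m t (2 * d) (2 * (8 * d + t ^ m * (2 * d))) * A.card)
              = (256 * Theta t m t (2 * d) (2 * (8 * d + t ^ m * (2 * d)))) * A.card := by ring
            _ ≤ 2 ^ J * A.card := Nat.mul_le_mul_right _ hunb
            _ ≤ _ := hcard
        exact Nat.le_of_mul_le_mul_left h1 (by norm_num)

end Pool.Agent.Helper286_biclique
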