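import Pool.Agent.Helper286_biclique.Reduce

/-!
The dichotomy: almost regular or exponentially unbalanced.
-/

set_option linter.unusedSectionVars false

namespace Pool.Agent.Helper286_biclique

open Finset

variable {V : Type*} [Fintype V] [DecidableEq V] {G : SimpleGraph V} [DecidableRel G.Adj]

lemma sum_biUnion_le_sum_sum {ι α : Type*} [DecidableEq ι] [DecidableEq α] (s : Finset ι)
    (t : ι → Finset α) (w : α → ℕ) :
    ∑ x ∈ s.biUnion t, w x ≤ ∑ i ∈ s, ∑ x ∈ t i, w x := by
  induction s using Finset.induction_on with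
  | empty => simp
  | insert a s ha ih =>
    rw [biUnion_insert, sum_insert ha]
    have h1 := sum_union_inter (s₁ := t a) (s₂ := s.biUnion t) (f := w)
    omega

lemma card_nb_split (A B : Finset V) (hAB : Disjoint A B) (v : V) :
    (nb G (A ∪ B) v).card = (nb G A v).card + (nb G B v).card := by
  unfold nb
  rw [filter_union, card_union_of_disjoint]
  exact disjoint_filter_filter hAB

/-- In a set maximising the average degree, degrees are at least half of the average degree and
every subset spans few edges. -/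
lemma exists_max_set [Nonempty V] (d1 : ℕ) (hd1 : 1 ≤ d1)
    (h : d1 * Fintype.card V ≤ ∑ v, (nb G univ v).card) :
    ∃ (V0 : Finset V) (d : ℕ), V0.Nonempty ∧ d1 ≤ d ∧ d * V0.card ≤ ∑ v ∈ V0, (nb G V0 v).card ∧
      (∀ X ⊆ V0, ∑ v ∈ X, (nb G X v).card ≤ 2 * d * X.card) ∧
      (∀ v ∈ V0, d ≤ 2 * (nb G V0 v).card) := by
  classical
  set e : Finset V → ℕ := fun X => ∑ v ∈ X, (nb G X v).card with he
  have hne : ((univ : Finset (Finset V)).filter (fun X => X.Nonempty)).Nonempty :=
    ⟨univ, by rw [mem_filter]; exact ⟨mem_univ _, univ_nonempty⟩⟩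
  obtain ⟨V0, hV0, hmax⟩ := exists_max_image _ (fun X : Finset V => (e X : ℚ) / X.card) hne
  rw [mem_filter] at hV0
  have hV0ne := hV0.2
  have hV0pos : 0 < V0.card := card_pos.mpr hV0ne
  have hmax' : ∀ X : Finset V, e X * V0.card ≤ e V0 * X.card := by
    intro X
    rcases X.eq_empty_or_nonempty with hX | hX
    · subst hX; simp [he]
    · have h1 := hmax X (by rw [mem_filter]; exact ⟨mem_univ _, hX⟩)
      have hXpos : 0 < X.card := card_pos.mpr hX
      rw [div_le_div_iff₀ (by exact_mod_cast hXpos) (by exact_mod_cast hV0pos)] at h1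
      exact_mod_cast h1
  set d := e V0 / V0.card with hd
  have hd1d : d1 ≤ d := by
    rw [hd, Nat.le_div_iff_mul_le hV0pos]
    have h1 := hmax' univ
    have h2 : d1 * Fintype.card V * V0.card ≤ e V0 * Fintype.card V := by
      calc d1 * Fintype.card V * V0.card ≤ e univ * V0.card := Nat.mul_le_mul_right _ h
        _ ≤ e V0 * (univ : Finset V).card := h1
        _ = _ := by rw [card_univ]
    have h3 : (d1 * V0.card) * Fintype.card V ≤ e V0 * Fintype.card V := by
      calc (d1 * V0.card) * Fintype.card V = d1 * Fintype.card V * V0.card := by ring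
        _ ≤ _ := h2
    exact Nat.le_of_mul_le_mul_right h3 Fintype.card_pos
  have hdpos : 1 ≤ d := hd1.trans hd1d
  have hd2 : d * V0.card ≤ e V0 := by
    rw [hd]; exact Nat.div_mul_le_self _ _
  have hd3 : e V0 ≤ 2 * d * V0.card := by
    have h1 : e V0 < V0.card * (d + 1) := by
      rw [hd]; exact Nat.lt_mul_div_succ _ hV0pos
    have h2 : d + 1 ≤ 2 * d := by omega
    calc e V0 ≤ V0.card * (d + 1) := h1.le
      _ ≤ V0.card * (2 * d) := Nat.mul_le_mul_left _ h2
      _ = _ := by ring
  refine ⟨V0, d, hV0ne, hd1d, hd2, ?_, ?_⟩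
  · intro X _
    have h1 : e X * V0.card ≤ (2 * d * X.card) * V0.card := by
      calc e X * V0.card ≤ e V0 * X.card := hmax' X
        _ ≤ (2 * d * V0.card) * X.card := Nat.mul_le_mul_right _ hd3
        _ = _ := by ring
    exact Nat.le_of_mul_le_mul_right h1 hV0pos
  · intro v hv
    have hdel : e V0 ≤ e (V0.erase v) + 2 * (nb G V0 v).card := by
      have h1 : e V0 = (EP G V0).card := (card_EP V0).symm
      have h2 : e (V0.erase v) = (EP G (V0.erase v)).card := (card_EP _).symm
      rw [h1, h2]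
      have hcov : EP G V0 ⊆ EP G (V0.erase v) ∪ ((nb G V0 v).image (fun u => (v, u)) ∪
          (nb G V0 v).image (fun u => (u, v))) := by
        intro p hp
        rw [mem_EP] at hp
        rw [mem_union, mem_union, mem_image, mem_image]
        by_cases ha : p.1 = v
        · right; left
          exact ⟨p.2, by rw [mem_nb]; exact ⟨hp.2.1, ha ▸ hp.2.2⟩, by rw [← ha]⟩
        · by_cases hb : p.2 = v
          · right; right
            exact ⟨p.1, by rw [mem_nb]; exact ⟨hp.1, (hb ▸ hp.2.2).symm⟩, by rw [← hb]⟩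
          · left
            rw [mem_EP, mem_erase, mem_erase]
            exact ⟨⟨ha, hp.1⟩, ⟨hb, hp.2.1⟩, hp.2.2⟩
      have h3 := (card_le_card hcov).trans (card_union_le _ _)
      have h4 := card_union_le ((nb G V0 v).image (fun u => (v, u)))
        ((nb G V0 v).image (fun u => (u, v)))
      have h5 : ((nb G V0 v).image (fun u => (v, u))).card ≤ (nb G V0 v).card := card_image_le
      have h6 : ((nb G V0 v).image (fun u => (u, v))).card ≤ (nb G V0 v).card := card_image_le
      omega
    have h1 := hmax' (V0.erase v)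
    rw [card_erase_of_mem hv] at h1
    set c := V0.card with hc
    obtain ⟨c', hc'⟩ : ∃ c', c = c' + 1 := ⟨c - 1, by omega⟩
    rw [hc'] at h1 hd2
    simp only [Nat.add_sub_cancel] at h1
    have h2 : e V0 * (c' + 1) ≤ e V0 * c' + 2 * (nb G V0 v).card * (c' + 1) := by
      calc e V0 * (c' + 1) ≤ (e (V0.erase v) + 2 * (nb G V0 v).card) * (c' + 1) :=
            Nat.mul_le_mul_right _ hdel
        _ = e (V0.erase v) * (c' + 1) + 2 * (nb G V0 v).card * (c' + 1) := by ring
        _ ≤ _ := Nat.add_le_add_right h1 _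
    have h3 : e V0 ≤ 2 * (nb G V0 v).card * (c' + 1) := by
      have : e V0 * (c' + 1) = e V0 * c' + e V0 := by ring
      omega
    have h4 : d * (c' + 1) ≤ 2 * (nb G V0 v).card * (c' + 1) := hd2.trans h3
    exact Nat.le_of_mul_le_mul_right h4 (by omega)

/-- The dichotomy. -/
theorem dichotomy (V0 : Finset V) (hV0 : V0.Nonempty) (d J : ℕ) (hd : 1 ≤ d) (hJ : 1 ≤ J)
    (hsub : ∀ X ⊆ V0, ∑ v ∈ X, (nb G X v).card ≤ 2 * d * X.card)
    (hmin : ∀ v ∈ V0, d ≤ 2 * (nb G V0 v).card) :
    (∃ W : Finset V, W.Nonempty ∧ (∀ v ∈ W, (nb G W v).card ≤ 134 * J * d) ∧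
      d * W.card ≤ 48 * J * ∑ v ∈ W, (nb G W v).card) ∨
    (∃ A B : Finset V, A ⊆ V0 ∧ B ⊆ V0 ∧ Disjoint A B ∧ B.Nonempty ∧
      (∀ b ∈ B, d ≤ 16 * (nb G A b).card) ∧ (∀ b ∈ B, (nb G A b).card ≤ 8 * d) ∧
      2 ^ J * A.card ≤ 256 * B.card) := by
  classical
  set n := V0.card with hn
  have hnpos : 1 ≤ n := card_pos.mpr hV0
  have htot := hsub V0 (subset_refl _)
  obtain ⟨L, hL⟩ : ∃ L, L = V0.filter (fun v => (nb G V0 v).card ≤ 8 * d) := ⟨_, rfl⟩
  obtain ⟨U, hU⟩ : ∃ U, U = V0.filter (fun v => ¬ (nb G V0 v).card ≤ 8 * d) := ⟨_, rfl⟩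
  have hLV : L ⊆ V0 := by rw [hL]; exact filter_subset _ _
  have hUV : U ⊆ V0 := by rw [hU]; exact filter_subset _ _
  have hLU : Disjoint L U := by rw [hL, hU]; exact disjoint_filter_filter_not _ _ _
  have hLUV : L ∪ U = V0 := by rw [hL, hU]; exact filter_union_filter_not_eq _ _
  have hLdeg : ∀ v ∈ L, (nb G V0 v).card ≤ 8 * d := by
    intro v hv; rw [hL, mem_filter] at hv; exact hv.2
  have hUdeg : ∀ v ∈ U, 8 * d < (nb G V0 v).card := by
    intro v hv; rw [hU, mem_filter] at hv; have := hv.2; omega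
  -- vertices of degree more than `x` are few
  have hfew : ∀ (Z : Finset V) (x : ℕ), Z ⊆ V0 → (∀ v ∈ Z, x * d ≤ (nb G V0 v).card) →
      x * Z.card ≤ 2 * n := by
    intro Z x hZ hx
    have h1 : (x * Z.card) * d ≤ (2 * n) * d := by
      calc (x * Z.card) * d = ∑ _v ∈ Z, x * d := by rw [sum_const, smul_eq_mul]; ring
        _ ≤ ∑ v ∈ Z, (nb G V0 v).card := sum_le_sum hx
        _ ≤ ∑ v ∈ V0, (nb G V0 v).card :=
            sum_le_sum_of_subset_of_nonneg hZ (fun _ _ _ => Nat.zero_le _)
        _ ≤ 2 * d * n := htot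
        _ = (2 * n) * d := by ring
    exact Nat.le_of_mul_le_mul_right h1 (by omega)
  have hUfew : 8 * U.card ≤ 2 * n := hfew U 8 hUV (fun v hv => (hUdeg v hv).le)
  have hcardsum : L.card + U.card = n := by
    rw [hn, ← hLUV, card_union_of_disjoint hLU]
  have hLn : L.card ≤ n := by omega
  have hLbig : 3 * n ≤ 4 * L.card := by omega
  obtain ⟨eL, heL⟩ : ∃ eL, eL = ∑ v ∈ L, (nb G L v).card := ⟨_, rfl⟩
  obtain ⟨eLU, heLU⟩ : ∃ eLU, eLU = ∑ v ∈ L, (nb G U v).card := ⟨_, rfl⟩
  have hsumL : 3 * (d * n) ≤ 8 * (eL + eLU) := by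
    have h1 : ∑ v ∈ L, (nb G V0 v).card = eL + eLU := by
      rw [heL, heLU, ← sum_add_distrib]
      apply sum_congr rfl
      intro v _
      rw [← hLUV]; exact card_nb_split L U hLU v
    have h2 : d * L.card ≤ 2 * (eL + eLU) := by
      rw [← h1, mul_sum]
      calc d * L.card = ∑ _v ∈ L, d := by rw [sum_const, smul_eq_mul, mul_comm]
        _ ≤ _ := sum_le_sum (fun v hv => hmin v (hLV hv))
    have h3 : d * (3 * n) ≤ d * (4 * L.card) := Nat.mul_le_mul_left _ hLbig
    have h4 : d * (3 * n) = 3 * (d * n) := by ring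
    have h5 : d * (4 * L.card) = 4 * (d * L.card) := by ring
    omega
  have hJd : 8 * d ≤ 134 * J * d := by
    have h1 : d ≤ J * d := Nat.le_mul_of_pos_left _ (by omega)
    have h2 : 134 * J * d = 134 * (J * d) := by ring
    omega
  rcases le_or_gt (d * n) (8 * eL) with hA | hA
  · -- many edges inside `L`
    left
    refine ⟨L, ?_, ?_, ?_⟩
    · rw [← card_pos]; omega
    · intro v hv
      exact (card_le_card (nb_mono hLV v)).trans ((hLdeg v hv).trans hJd)
    · rw [← heL]
      calc d * L.card ≤ d * n := Nat.mul_le_mul_left _ hLn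
        _ ≤ 8 * eL := hA
        _ ≤ 48 * J * eL := Nat.mul_le_mul_right _ (by omega)
  · have hLUbig : d * n ≤ 4 * eLU := by omega
    obtain ⟨Ub, hUb⟩ : ∃ Ub, Ub = U.filter (fun v => 2 ^ J * d < (nb G V0 v).card) := ⟨_, rfl⟩
    obtain ⟨Us, hUs⟩ : ∃ Us, Us = U.filter (fun v => ¬ 2 ^ J * d < (nb G V0 v).card) := ⟨_, rfl⟩
    have hUbU : Ub ⊆ U := by rw [hUb]; exact filter_subset _ _
    have hUsU : Us ⊆ U := by rw [hUs]; exact filter_subset _ _
    have hsplit : eLU = ∑ v ∈ L, (nb G Ub v).card + ∑ v ∈ L, (nb G Us v).card := by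
      rw [heLU, ← sum_add_distrib]
      apply sum_congr rfl
      intro v _
      rw [← card_nb_split Ub Us (by rw [hUb, hUs]; exact disjoint_filter_filter_not _ _ _) v]
      congr 2
      rw [hUb, hUs]; exact (filter_union_filter_not_eq _ _).symm
    rcases le_or_gt (d * n) (8 * ∑ v ∈ L, (nb G Ub v).card) with hB | hB
    · -- the unbalanced case
      right
      obtain ⟨B, hBdef⟩ : ∃ B, B = L.filter (fun v => d ≤ 16 * (nb G Ub v).card) := ⟨_, rfl⟩
      have hBL : B ⊆ L := by rw [hBdef]; exact filter_subset _ _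
      have hAcard : 2 ^ J * Ub.card ≤ 2 * n := by
        apply hfew Ub (2 ^ J) (hUbU.trans hUV)
        intro v hv
        rw [hUb, mem_filter] at hv
        exact hv.2.le
      have hdn : 0 < d * n := by positivity
      have hBcard : d * n ≤ 128 * d * B.card := by
        have h1 : ∑ v ∈ L, (nb G Ub v).card = ∑ v ∈ B, (nb G Ub v).card +
            ∑ v ∈ L.filter (fun v => ¬ d ≤ 16 * (nb G Ub v).card), (nb G Ub v).card := by
          rw [hBdef, sum_filter_add_sum_filter_not]
        have h2 : ∑ v ∈ B, (nb G Ub v).card ≤ B.card * (8 * d) := by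
          calc ∑ v ∈ B, (nb G Ub v).card ≤ ∑ _v ∈ B, 8 * d := by
                apply sum_le_sum
                intro v hv
                exact (card_le_card (nb_mono (hUbU.trans hUV) v)).trans (hLdeg v (hBL hv))
            _ = _ := by rw [sum_const, smul_eq_mul]
        have h3 : 16 * ∑ v ∈ L.filter (fun v => ¬ d ≤ 16 * (nb G Ub v).card), (nb G Ub v).card ≤
            d * n := by
          rw [mul_sum]
          calc ∑ v ∈ L.filter (fun v => ¬ d ≤ 16 * (nb G Ub v).card), 16 * (nb G Ub v).card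
              ≤ ∑ _v ∈ L.filter (fun v => ¬ d ≤ 16 * (nb G Ub v).card), d := by
                apply sum_le_sum
                intro v hv
                have := (mem_filter.mp hv).2
                omega
            _ = (L.filter (fun v => ¬ d ≤ 16 * (nb G Ub v).card)).card * d := by
                rw [sum_const, smul_eq_mul]
            _ ≤ n * d := Nat.mul_le_mul_right _ ((card_filter_le _ _).trans hLn)
            _ = d * n := mul_comm _ _
        have h4 : 128 * d * B.card = 16 * (B.card * (8 * d)) := by ring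
        omega
      have hnB : n ≤ 128 * B.card := by
        have h1 : d * n ≤ d * (128 * B.card) := by
          calc d * n ≤ 128 * d * B.card := hBcard
            _ = _ := by ring
        exact Nat.le_of_mul_le_mul_left h1 (by omega)
      refine ⟨Ub, B, hUbU.trans hUV, hBL.trans hLV, ?_, ?_, ?_, ?_, ?_⟩
      · exact (disjoint_of_subset_left hBL (disjoint_of_subset_right hUbU hLU)).symm
      · rw [← card_pos]; omega
      · intro b hb
        rw [hBdef, mem_filter] at hb
        exact hb.2
      · intro b hb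
        exact (card_le_card (nb_mono (hUbU.trans hUV) b)).trans (hLdeg b (hBL hb))
      · omega
    · -- pigeonhole over the scales
      left
      have hS : d * n ≤ 8 * ∑ u ∈ Us, (nb G L u).card := by
        rw [sum_nb_nb]
        omega
      set Uj : ℕ → Finset V := fun j => U.filter
        (fun u => 2 ^ j * d < (nb G V0 u).card ∧ (nb G V0 u).card ≤ 2 ^ (j + 1) * d) with hUj
      have hcov : Us ⊆ (range J).biUnion Uj := by
        intro u hu
        rw [hUs, mem_filter] at hu
        obtain ⟨huU, hu2⟩ := hu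
        push Not at hu2
        have hu1 := hUdeg u huU
        have hex : ∃ j, (nb G V0 u).card ≤ 2 ^ j * d := ⟨J, hu2⟩
        set j0 := Nat.find hex with hj0
        have hj1 : (nb G V0 u).card ≤ 2 ^ j0 * d := Nat.find_spec hex
        have hj2 : j0 ≤ J := Nat.find_min' hex hu2
        have hj3 : j0 ≠ 0 := by
          intro h0
          rw [h0, pow_zero, one_mul] at hj1
          omega
        obtain ⟨j, hj⟩ : ∃ j, j0 = j + 1 := ⟨j0 - 1, by omega⟩
        have hj4 : ¬ (nb G V0 u).card ≤ 2 ^ j * d := Nat.find_min hex (by omega)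
        rw [mem_biUnion]
        refine ⟨j, by rw [mem_range]; omega, ?_⟩
        rw [hUj, mem_filter]
        refine ⟨huU, by omega, ?_⟩
        rw [← hj]; exact hj1
      have hpig : ∃ j ∈ range J, ∑ u ∈ Us, (nb G L u).card ≤ J * ∑ u ∈ Uj j, (nb G L u).card := by
        by_contra hcon
        push Not at hcon
        have h1 : ∑ u ∈ Us, (nb G L u).card ≤ ∑ j ∈ range J, ∑ u ∈ Uj j, (nb G L u).card := by
          refine (sum_le_sum_of_subset_of_nonneg hcov (fun _ _ _ => Nat.zero_le _)).trans ?_
          exact sum_biUnion_le_sum_sum _ _ _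
        have h2 : ∑ j ∈ range J, J * ∑ u ∈ Uj j, (nb G L u).card <
            ∑ _j ∈ range J, ∑ u ∈ Us, (nb G L u).card :=
          sum_lt_sum_of_nonempty ⟨0, by rw [mem_range]; omega⟩ hcon
        rw [← mul_sum, sum_const, card_range, smul_eq_mul] at h2
        have h3 := Nat.mul_le_mul_left J h1
        omega
      obtain ⟨j, _, hjsum⟩ := hpig
      have hUjU : Uj j ⊆ U := filter_subset _ _
      have hUjdeg : ∀ u ∈ Uj j, 2 ^ j * d < (nb G V0 u).card ∧
          (nb G V0 u).card ≤ 2 ^ (j + 1) * d := fun u hu => (mem_filter.mp hu).2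
      obtain ⟨W, _, hW1, hW2, hW3⟩ := two_classes (G := G) L (Uj j)
        (disjoint_of_subset_right hUjU hLU) d J (2 ^ j) n hd hJ (Nat.one_le_pow _ _ (by norm_num))
        hnpos hLn (hfew (Uj j) (2 ^ j) (hUjU.trans hUV) (fun v hv => (hUjdeg v hv).1.le))
        (fun v hv => (card_le_card (nb_mono (union_subset hLV (hUjU.trans hUV)) v)).trans
          (hLdeg v hv))
        (fun u hu => by
          have h1 := (hUjdeg u hu).2
          have h2 : (nb G L u).card ≤ (nb G V0 u).card := card_le_card (nb_mono hLV u)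
          calc (nb G L u).card ≤ 2 ^ (j + 1) * d := h2.trans h1
            _ = 2 * 2 ^ j * d := by rw [pow_succ]; ring)
        (hsub (Uj j) (hUjU.trans hUV))
        (by
          calc n * d = d * n := mul_comm _ _
            _ ≤ 8 * ∑ u ∈ Us, (nb G L u).card := hS
            _ ≤ 8 * (J * ∑ u ∈ Uj j, (nb G L u).card) := Nat.mul_le_mul_left _ hjsum
            _ = 8 * J * ∑ u ∈ Uj j, (nb G L u).card := by ring)
      exact ⟨W, hW1, hW2, hW3⟩

end Pool.Agent.Helper286_biclique
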