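import Pool.Agent.Helper286_biclique.Rich

/-!
The induced Kovari-Sos-Turan theorem for graphs without `K_{s,s}` and without an induced copy of a
fixed bipartite graph.
-/

set_option linter.unusedSectionVars false

namespace Pool.Agent.Helper286_biclique

open Finset

variable {V : Type*} [Fintype V] [DecidableEq V] {G : SimpleGraph V} [DecidableRel G.Adj]

/-- threshold for the size of the first set in `kst_induced` -/
def nOne (s h : ℕ) : ℕ := 2 * bad1 s h * (4 * s) ^ (h * h)

/-- bound for the size of the second set in `kst_induced` -/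
def yZero (s h μ : ℕ) : ℕ := (2 * μ) ^ (h + 1) * (2 * (4 * s) ^ (h * h) * theta s h)

lemma theta_pos {s h : ℕ} (hs : 0 < s) : 0 < theta s h := by
  unfold theta
  have h1 : 0 < (4 * s) ^ h := Nat.pow_pos (by omega)
  exact Nat.mul_pos (Nat.pow_pos (by omega)) (by omega)

/-- For a vertex `b` with many neighbours in `X`, many tuples of its neighbours are poor. -/
lemma card_poor {s : ℕ} (hK : KFree G s) {h : ℕ} (hh : 1 ≤ h) (H : SimpleGraph (Fin h))
    (hH : H.Colorable 2) (hfree : IsEmpty (H ↪g G)) (U Y : Finset V) (hU : nOne s h ≤ U.card) :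
    U.card ^ h ≤ 2 * (4 * s) ^ (h * h) *
      ((indepT G h U).filter (fun T => ¬ theta s h ≤ (cell G Y T univ ∅).card)).card := by
  have hs := hK.pos
  have hbad : 1 ≤ bad1 s h := by
    unfold bad1
    have : 0 < 4 ^ h := Nat.pow_pos (by norm_num)
    exact Nat.mul_pos (Nat.mul_pos this hh) hs
  have hp : (4 * s) ^ h ≤ (4 * s) ^ (h * h) := Nat.pow_le_pow_right (by omega) (by nlinarith)
  have hU' : (4 * s) ^ h ≤ U.card := by
    refine le_trans ?_ hU
    unfold nOne
    calc (4 * s) ^ h ≤ (4 * s) ^ (h * h) := hp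
      _ ≤ 2 * bad1 s h * (4 * s) ^ (h * h) := Nat.le_mul_of_pos_left _ (by omega)
  have h1 := card_indepT hK h U hU'
  have h2 := card_rich_tuples hK H hH hfree U Y
  have h3 := card_filter_add_card_filter_not (s := indepT G h U)
    (fun T => theta s h ≤ (cell G Y T univ ∅).card)
  set rich := ((indepT G h U).filter (fun T => theta s h ≤ (cell G Y T univ ∅).card)).card
  set poor := ((indepT G h U).filter (fun T => ¬ theta s h ≤ (cell G Y T univ ∅).card)).card
  set n := U.card
  have h4 : n ^ h = n * n ^ (h - 1) := by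
    conv_lhs => rw [show h = (h - 1) + 1 by omega]
    rw [pow_succ]; ring
  have h5 : 2 * ((4 * s) ^ (h * h) * rich) ≤ n ^ h := by
    calc 2 * ((4 * s) ^ (h * h) * rich) ≤ 2 * ((4 * s) ^ (h * h) * (bad1 s h * n ^ (h - 1))) :=
          Nat.mul_le_mul_left _ (Nat.mul_le_mul_left _ h2)
      _ = nOne s h * n ^ (h - 1) := by unfold nOne; ring
      _ ≤ n * n ^ (h - 1) := Nat.mul_le_mul_right _ hU
      _ = n ^ h := h4.symm
  have h6 : 2 * n ^ h ≤ 2 * ((4 * s) ^ (h * h) * rich) + 2 * ((4 * s) ^ (h * h) * poor) := by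
    calc 2 * n ^ h ≤ 2 * ((4 * s) ^ (h * h) * (indepT G h U).card) := Nat.mul_le_mul_left _ h1
      _ = 2 * ((4 * s) ^ (h * h) * rich) + 2 * ((4 * s) ^ (h * h) * poor) := by
          rw [← h3]; ring
  calc n ^ h ≤ 2 * ((4 * s) ^ (h * h) * poor) := by omega
    _ = 2 * (4 * s) ^ (h * h) * poor := by ring

/-- Induced Kovari-Sos-Turan theorem. -/
theorem kst_induced {s : ℕ} (hK : KFree G s) {h : ℕ} (hh : 1 ≤ h) (H : SimpleGraph (Fin h))
    (hH : H.Colorable 2) (hfree : IsEmpty (H ↪g G)) (μ : ℕ) (hμ : 1 ≤ μ) (X Y : Finset V)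
    (hX : 2 * μ * nOne s h ≤ X.card) (hXpos : 0 < X.card)
    (hXY : X.card * Y.card ≤ μ * ∑ y ∈ Y, (nb G X y).card) :
    Y.card ≤ yZero s h μ := by
  classical
  have hs := hK.pos
  set Y1 := Y.filter (fun b => X.card ≤ 2 * μ * (nb G X b).card) with hY1
  set PT := (Fintype.piFinset (fun _ : Fin h => X)).filter
    (fun T => ¬ theta s h ≤ (cell G Y T univ ∅).card) with hPT
  -- poor tuples at a vertex of `Y1`
  have hpoor : ∀ b ∈ Y1, X.card ^ h ≤ (2 * μ) ^ h * (2 * (4 * s) ^ (h * h)) *
      (PT.filter (fun T => b ∈ cell G Y T univ ∅)).card := by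
    intro b hb
    rw [hY1, mem_filter] at hb
    have hnb : nOne s h ≤ (nb G X b).card := by
      have : 2 * μ * nOne s h ≤ 2 * μ * (nb G X b).card := hX.trans hb.2
      exact Nat.le_of_mul_le_mul_left this (by omega)
    have h1 := card_poor hK hh H hH hfree (nb G X b) Y hnb
    have h2 : (indepT G h (nb G X b)).filter (fun T => ¬ theta s h ≤ (cell G Y T univ ∅).card) ⊆
        PT.filter (fun T => b ∈ cell G Y T univ ∅) := by
      intro T hT
      rw [mem_filter, mem_indepT] at hT
      obtain ⟨⟨hT1, _, _⟩, hT2⟩ := hT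
      rw [mem_filter, hPT, mem_filter, Fintype.mem_piFinset]
      refine ⟨⟨fun i => (mem_nb.mp (hT1 i)).1, hT2⟩, ?_⟩
      rw [mem_cell]
      exact ⟨hb.1, fun i _ => ((mem_nb.mp (hT1 i)).2).symm, by simp⟩
    have h3 := card_le_card h2
    calc X.card ^ h ≤ (2 * μ * (nb G X b).card) ^ h := Nat.pow_le_pow_left hb.2 h
      _ = (2 * μ) ^ h * (nb G X b).card ^ h := by rw [mul_pow]
      _ ≤ (2 * μ) ^ h * (2 * (4 * s) ^ (h * h) * (PT.filter (fun T => b ∈ cell G Y T univ ∅)).card) :=
          Nat.mul_le_mul_left _ (h1.trans (Nat.mul_le_mul_left _ h3))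
      _ = _ := by ring
  -- double counting
  have hdc : ∑ b ∈ Y1, (PT.filter (fun T => b ∈ cell G Y T univ ∅)).card ≤
      X.card ^ h * theta s h := by
    calc ∑ b ∈ Y1, (PT.filter (fun T => b ∈ cell G Y T univ ∅)).card
        = ∑ T ∈ PT, (Y1.filter (fun b => b ∈ cell G Y T univ ∅)).card :=
          sum_card_bipartiteAbove_eq_sum_card_bipartiteBelow (fun b T => b ∈ cell G Y T univ ∅)
      _ ≤ ∑ _T ∈ PT, theta s h := by
          apply sum_le_sum
          intro T hT
          rw [hPT, mem_filter] at hT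
          have h1 : Y1.filter (fun b => b ∈ cell G Y T univ ∅) ⊆ cell G Y T univ ∅ := by
            intro b hb
            exact (mem_filter.mp hb).2
          have := card_le_card h1
          have h2 := hT.2
          omega
      _ = PT.card * theta s h := by rw [sum_const, smul_eq_mul]
      _ ≤ X.card ^ h * theta s h := by
          apply Nat.mul_le_mul_right
          refine (card_filter_le _ _).trans ?_
          rw [Fintype.card_piFinset]; simp
  have hY1card : Y1.card ≤ (2 * μ) ^ h * (2 * (4 * s) ^ (h * h)) * theta s h := by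
    have h1 : Y1.card * X.card ^ h ≤
        ((2 * μ) ^ h * (2 * (4 * s) ^ (h * h)) * theta s h) * X.card ^ h := by
      calc Y1.card * X.card ^ h = ∑ _b ∈ Y1, X.card ^ h := by rw [sum_const, smul_eq_mul]
        _ ≤ ∑ b ∈ Y1, (2 * μ) ^ h * (2 * (4 * s) ^ (h * h)) *
            (PT.filter (fun T => b ∈ cell G Y T univ ∅)).card := sum_le_sum hpoor
        _ = (2 * μ) ^ h * (2 * (4 * s) ^ (h * h)) *
            ∑ b ∈ Y1, (PT.filter (fun T => b ∈ cell G Y T univ ∅)).card := by rw [mul_sum]
        _ ≤ (2 * μ) ^ h * (2 * (4 * s) ^ (h * h)) * (X.card ^ h * theta s h) :=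
            Nat.mul_le_mul_left _ hdc
        _ = _ := by ring
    exact Nat.le_of_mul_le_mul_right h1 (Nat.pow_pos hXpos)
  have hYY1 : Y.card ≤ 2 * μ * Y1.card := by
    have h1 : 2 * (μ * ∑ y ∈ Y, (nb G X y).card) ≤ 2 * μ * (Y1.card * X.card) + Y.card * X.card := by
      have hsplit : ∑ y ∈ Y, (nb G X y).card =
          ∑ y ∈ Y1, (nb G X y).card +
          ∑ y ∈ Y.filter (fun b => ¬ X.card ≤ 2 * μ * (nb G X b).card), (nb G X y).card := by
        rw [hY1, sum_filter_add_sum_filter_not]
      have h2 : ∑ y ∈ Y1, (nb G X y).card ≤ Y1.card * X.card := by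
        calc ∑ y ∈ Y1, (nb G X y).card ≤ ∑ _y ∈ Y1, X.card :=
              sum_le_sum (fun y _ => card_le_card (nb_subset X y))
          _ = Y1.card * X.card := by rw [sum_const, smul_eq_mul]
      have h3 : 2 * μ * ∑ y ∈ Y.filter (fun b => ¬ X.card ≤ 2 * μ * (nb G X b).card),
          (nb G X y).card ≤ Y.card * X.card := by
        rw [mul_sum]
        calc ∑ y ∈ Y.filter (fun b => ¬ X.card ≤ 2 * μ * (nb G X b).card), 2 * μ * (nb G X y).card
            ≤ ∑ _y ∈ Y.filter (fun b => ¬ X.card ≤ 2 * μ * (nb G X b).card), X.card := by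
              apply sum_le_sum
              intro y hy
              rw [mem_filter] at hy
              have := hy.2
              omega
          _ = (Y.filter (fun b => ¬ X.card ≤ 2 * μ * (nb G X b).card)).card * X.card := by
              rw [sum_const, smul_eq_mul]
          _ ≤ Y.card * X.card := Nat.mul_le_mul_right _ (card_filter_le _ _)
      calc 2 * (μ * ∑ y ∈ Y, (nb G X y).card)
          = 2 * μ * ∑ y ∈ Y1, (nb G X y).card + 2 * μ *
            ∑ y ∈ Y.filter (fun b => ¬ X.card ≤ 2 * μ * (nb G X b).card), (nb G X y).card := by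
            rw [hsplit]; ring
        _ ≤ 2 * μ * (Y1.card * X.card) + Y.card * X.card :=
            Nat.add_le_add (Nat.mul_le_mul_left _ h2) h3
    have h2 : Y.card * X.card ≤ 2 * μ * Y1.card * X.card := by nlinarith
    exact Nat.le_of_mul_le_mul_right h2 hXpos
  calc Y.card ≤ 2 * μ * Y1.card := hYY1
    _ ≤ 2 * μ * ((2 * μ) ^ h * (2 * (4 * s) ^ (h * h)) * theta s h) :=
        Nat.mul_le_mul_left _ hY1card
    _ = yZero s h μ := by unfold yZero; rw [pow_succ]; ring

end Pool.Agent.Helper286_biclique
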