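import Pool.Agent.Helper286_biclique.Basic

/-!
A very unbalanced family of sets in which few sets contain a given `(m+1)`-set contains, after
restricting the ground set, a large linear subfamily.
-/

set_option linter.unusedSectionVars false

namespace Pool.Agent.Helper286_biclique

open Finset

variable {α β : Type*} [DecidableEq α] [DecidableEq β]

/-- the number of members of the family that contain `Z` -/
def cd (B : Finset β) (I : β → Finset α) (Z : Finset α) : ℕ := (B.filter (fun b => Z ⊆ I b)).card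

/-- the required ratio in `exists_linear` -/
def Lam (k δ D : ℕ) (m : ℕ) : ℕ := (2 ^ (δ + 3) * k ^ 2 * δ ^ 2) ^ m * D

lemma linear_of_pairs (B : Finset β) (I : β → Finset α) (δ D : ℕ)
    (hδ : ∀ b ∈ B, (I b).card ≤ δ)
    (hpair : ∀ b ∈ B, ∀ Z ⊆ I b, Z.card = 2 → cd B I Z ≤ D) :
    ∃ B' ⊆ B, B.card ≤ (δ ^ 2 * D + 1) * B'.card ∧
      ∀ b ∈ B', ∀ b' ∈ B', b ≠ b' → (I b ∩ I b').card ≤ 1 := by
  classical
  obtain ⟨B', hsub, hcard, hind⟩ := exists_indep_of_degree B
    (fun b b' => 2 ≤ (I b ∩ I b').card) (by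
      intro x y hxy
      rwa [inter_comm]) (δ ^ 2 * D) (by
      intro b hb
      have hcov : B.filter (fun x => 2 ≤ (I b ∩ I x).card) ⊆
          (powersetCard 2 (I b)).biUnion (fun Z => B.filter (fun x => Z ⊆ I x)) := by
        intro x hx
        rw [mem_filter] at hx
        obtain ⟨Z, hZ1, hZ2⟩ := exists_subset_card_eq hx.2
        rw [mem_biUnion]
        refine ⟨Z, ?_, ?_⟩
        · rw [mem_powersetCard]
          exact ⟨hZ1.trans inter_subset_left, hZ2⟩
        · rw [mem_filter]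
          exact ⟨hx.1, hZ1.trans inter_subset_right⟩
      calc (B.filter (fun x => 2 ≤ (I b ∩ I x).card)).card
          ≤ ∑ Z ∈ powersetCard 2 (I b), (B.filter (fun x => Z ⊆ I x)).card :=
            (card_le_card hcov).trans card_biUnion_le
        _ ≤ ∑ _Z ∈ powersetCard 2 (I b), D := by
            apply sum_le_sum
            intro Z hZ
            rw [mem_powersetCard] at hZ
            exact hpair b hb Z hZ.1 hZ.2
        _ = (powersetCard 2 (I b)).card * D := by rw [sum_const, smul_eq_mul]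
        _ ≤ δ ^ 2 * D := by
            apply Nat.mul_le_mul_right
            rw [card_powersetCard]
            exact (Nat.choose_le_pow _ _).trans (Nat.pow_le_pow_left (hδ b hb) 2))
  refine ⟨B', hsub, hcard, ?_⟩
  intro b hb b' hb' hne
  have := hind b hb b' hb' hne
  omega

/-- Random restriction of the ground set. -/
lemma exists_restriction (A : Finset α) (B : Finset β) (I J : β → Finset α) (δ : ℕ)
    (hIA : ∀ b ∈ B, I b ⊆ A) (hJI : ∀ b ∈ B, J b ⊆ I b) (hδ : ∀ b ∈ B, (I b).card ≤ δ) :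
    ∃ A' ⊆ A, B.card ≤ 2 ^ δ * (B.filter (fun b => I b ∩ A' = J b)).card := by
  classical
  have hb1 : ∀ b ∈ B, 2 ^ A.card ≤ 2 ^ δ * (A.powerset.filter (fun A' => I b ∩ A' = J b)).card := by
    intro b hb
    have h1 : (A \ I b).powerset.card ≤ (A.powerset.filter (fun A' => I b ∩ A' = J b)).card := by
      apply card_le_card_of_injOn (fun S => S ∪ J b)
      · intro S hS
        rw [mem_coe, mem_powerset] at hS
        rw [mem_coe, mem_filter, mem_powerset]
        refine ⟨union_subset (hS.trans sdiff_subset) ((hJI b hb).trans (hIA b hb)), ?_⟩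
        ext x
        rw [mem_inter, mem_union]
        constructor
        · rintro ⟨hx1, hx2 | hx2⟩
          · exact absurd hx1 (mem_sdiff.mp (hS hx2)).2
          · exact hx2
        · intro hx
          exact ⟨hJI b hb hx, Or.inr hx⟩
      · intro S hS S' hS' heq
        rw [mem_coe, mem_powerset] at hS hS'
        have key : ∀ S S' : Finset α, S ⊆ A \ I b → S ∪ J b = S' ∪ J b → S ⊆ S' := by
          intro S S' h1 h2 x hx
          have h3 : x ∈ S' ∪ J b := by rw [← h2]; exact mem_union_left _ hx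
          rcases mem_union.mp h3 with h | h
          · exact h
          · exact absurd (hJI b hb h) (mem_sdiff.mp (h1 hx)).2
        exact subset_antisymm (key S S' hS heq) (key S' S hS' heq.symm)
    rw [card_powerset] at h1
    have h2 : A.card ≤ δ + (A \ I b).card := by
      have := le_card_sdiff (I b) A
      have := hδ b hb
      omega
    calc 2 ^ A.card ≤ 2 ^ (δ + (A \ I b).card) := Nat.pow_le_pow_right (by norm_num) h2
      _ = 2 ^ δ * 2 ^ (A \ I b).card := by rw [pow_add]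
      _ ≤ _ := Nat.mul_le_mul_left _ h1
  have hsum : ∑ _A' ∈ A.powerset, B.card ≤
      ∑ A' ∈ A.powerset, 2 ^ δ * (B.filter (fun b => I b ∩ A' = J b)).card := by
    calc ∑ _A' ∈ A.powerset, B.card = ∑ _b ∈ B, 2 ^ A.card := by
          rw [sum_const, sum_const, card_powerset, smul_eq_mul, smul_eq_mul, mul_comm]
      _ ≤ ∑ b ∈ B, 2 ^ δ * (A.powerset.filter (fun A' => I b ∩ A' = J b)).card := sum_le_sum hb1
      _ = 2 ^ δ * ∑ b ∈ B, (A.powerset.filter (fun A' => I b ∩ A' = J b)).card := by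
          rw [mul_sum]
      _ = 2 ^ δ * ∑ A' ∈ A.powerset, (B.filter (fun b => I b ∩ A' = J b)).card := by
          congr 1
          exact sum_card_bipartiteAbove_eq_sum_card_bipartiteBelow (fun b A' => I b ∩ A' = J b)
      _ = _ := by rw [mul_sum]
  obtain ⟨A', hA', hle⟩ := exists_le_of_sum_le (⟨∅, by simp⟩ : A.powerset.Nonempty) hsum
  exact ⟨A', mem_powerset.mp hA', hle⟩

/-- the members of the family that contain a `k`-set without rich pairs -/
noncomputable def goodB (B : Finset β) (I : β → Finset α) (k D' : ℕ) : Finset β := by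
  classical
  exact B.filter (fun b => ∃ J ⊆ I b, J.card = k ∧
    ∀ x ∈ J, ∀ y ∈ J, x ≠ y → cd B I {x, y} < D')

lemma mem_goodB {B : Finset β} {I : β → Finset α} {k D' : ℕ} {b : β} :
    b ∈ goodB B I k D' ↔ b ∈ B ∧ ∃ J ⊆ I b, J.card = k ∧
      ∀ x ∈ J, ∀ y ∈ J, x ≠ y → cd B I {x, y} < D' := by
  classical
  unfold goodB
  rw [mem_filter]

/-- Many members contain a `k`-set without rich pairs. -/
lemma linear_case_one (A : Finset α) (B : Finset β) (I : β → Finset α) (k δ D' : ℕ)
    (hB : B.Nonempty) (hIA : ∀ b ∈ B, I b ⊆ A) (hδ : ∀ b ∈ B, (I b).card ≤ δ)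
    (hcase : B.card ≤ 2 * (goodB B I k D').card) :
    ∃ A' ⊆ A, ∃ B' ⊆ B, B'.Nonempty ∧ B.card ≤ 2 ^ (δ + 1) * (k ^ 2 * D' + 1) * B'.card ∧
      (∀ b ∈ B', k ≤ (I b ∩ A').card) ∧
      (∀ b ∈ B', ∀ b' ∈ B', b ≠ b' → (I b ∩ I b' ∩ A').card ≤ 1) := by
  classical
  set B1 := goodB B I k D' with hB1
  have hJ : ∀ b, ∃ J : Finset α, b ∈ B1 → J ⊆ I b ∧ J.card = k ∧
      ∀ x ∈ J, ∀ y ∈ J, x ≠ y → cd B I {x, y} < D' := by
    intro b
    by_cases hb : b ∈ B1
    · obtain ⟨_, J, h1, h2, h3⟩ := mem_goodB.mp hb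
      exact ⟨J, fun _ => ⟨h1, h2, h3⟩⟩
    · exact ⟨∅, fun h => absurd h hb⟩
  choose J hJ using hJ
  have hB1B : B1 ⊆ B := fun b hb => (mem_goodB.mp hb).1
  obtain ⟨A', hA'A, hA'⟩ := exists_restriction A B1 I J δ (fun b hb => hIA b (hB1B hb))
    (fun b hb => (hJ b hb).1) (fun b hb => hδ b (hB1B hb))
  set B2 := B1.filter (fun b => I b ∩ A' = J b) with hB2
  have hB2B1 : B2 ⊆ B1 := filter_subset _ _
  have hB2eq : ∀ b ∈ B2, I b ∩ A' = J b := fun b hb => (mem_filter.mp hb).2
  obtain ⟨B', hB'sub, hB'card, hB'lin⟩ := linear_of_pairs B2 (fun b => I b ∩ A') k D' (by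
      intro b hb
      rw [hB2eq b hb, (hJ b (hB2B1 hb)).2.1]) (by
      intro b hb Z hZ hZ2
      change Z ⊆ I b ∩ A' at hZ
      rw [hB2eq b hb] at hZ
      obtain ⟨x, y, hxy, rfl⟩ := card_eq_two.mp hZ2
      have h1 := (hJ b (hB2B1 hb)).2.2 x (hZ (by simp)) y (hZ (by simp)) hxy
      refine le_trans ?_ h1.le
      apply card_le_card
      intro c hc
      rw [mem_filter] at hc ⊢
      exact ⟨hB1B (hB2B1 hc.1), hc.2.trans inter_subset_left⟩)
  have hbig : B.card ≤ 2 ^ (δ + 1) * (k ^ 2 * D' + 1) * B'.card := by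
    calc B.card ≤ 2 * B1.card := hcase
      _ ≤ 2 * (2 ^ δ * B2.card) := Nat.mul_le_mul_left _ hA'
      _ ≤ 2 * (2 ^ δ * ((k ^ 2 * D' + 1) * B'.card)) :=
          Nat.mul_le_mul_left _ (Nat.mul_le_mul_left _ hB'card)
      _ = 2 ^ (δ + 1) * (k ^ 2 * D' + 1) * B'.card := by rw [pow_succ]; ring
  refine ⟨A', hA'A, B', hB'sub.trans (hB2B1.trans hB1B), ?_, hbig, ?_, ?_⟩
  · rw [nonempty_iff_ne_empty]
    intro he
    rw [he, card_empty, mul_zero] at hbig
    have := card_pos.mpr hB
    omega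
  · intro b hb
    have hb2 := hB'sub hb
    rw [hB2eq b hb2, (hJ b (hB2B1 hb2)).2.1]
  · intro b hb b' hb' hne
    have h1 : (I b ∩ A' ∩ (I b' ∩ A')).card ≤ 1 := hB'lin b hb b' hb' hne
    have h2 : I b ∩ I b' ∩ A' = I b ∩ A' ∩ (I b' ∩ A') := by
      ext x; simp only [mem_inter]; tauto
    rw [h2]; exact h1

/-- In the other case there is a popular element that lies in many rich pairs. -/
lemma linear_case_two (A : Finset α) (B : Finset β) (I : β → Finset α) (k δ D' m : ℕ)
    (hk : 1 ≤ k) (hIA : ∀ b ∈ B, I b ⊆ A) (hδ : ∀ b ∈ B, (I b).card ≤ δ)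
    (hlow : ∀ b ∈ B, k ^ (m + 1) ≤ (I b).card)
    (hcase : 2 * (goodB B I k D').card < B.card) :
    ∃ x ∈ A, ∃ Bx ⊆ B, Bx.Nonempty ∧ (∀ b ∈ Bx, x ∈ I b) ∧
      (∀ b ∈ Bx, k ^ m ≤ ((I b).filter (fun y => y ≠ x ∧ D' ≤ cd B I {x, y})).card) ∧
      (B.filter (fun b => x ∈ I b)).card ≤ 2 * δ * Bx.card := by
  classical
  obtain ⟨B2, hB2⟩ : ∃ B2, B2 = B \ goodB B I k D' := ⟨_, rfl⟩
  have hB2B : B2 ⊆ B := by rw [hB2]; exact sdiff_subset
  have hsplit : B.card - (goodB B I k D').card ≤ B2.card := by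
    rw [hB2]
    exact le_card_sdiff _ _
  have hB2pos : 0 < B2.card := by omega
  have hB2half : B.card ≤ 2 * B2.card := by omega
  clear hcase hsplit
  -- the special element
  have hspec : ∀ b ∈ B2, ∃ a ∈ I b,
      k ^ m ≤ ((I b).filter (fun y => y ≠ a ∧ D' ≤ cd B I {a, y})).card := by
    intro b hb
    by_contra hcon
    push Not at hcon
    have hb' := hb
    rw [hB2, mem_sdiff, mem_goodB] at hb'
    have hkm : 1 ≤ k ^ m := Nat.one_le_pow _ _ hk
    obtain ⟨J, hJI, hJcard, hJind⟩ := exists_indep_of_degree (I b)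
      (fun x y => y ≠ x ∧ D' ≤ cd B I {x, y}) (by
        rintro x y ⟨h1, h2⟩
        exact ⟨h1.symm, by rwa [pair_comm]⟩) (k ^ m - 1) (by
        intro a ha
        have := hcon a ha
        omega)
    have h1 : k ^ m - 1 + 1 = k ^ m := by omega
    rw [h1] at hJcard
    have h2 : k ≤ J.card := by
      have h3 := hlow b hb'.1
      have h4 : k ^ m * k ≤ k ^ m * J.card := by
        rw [← pow_succ]; exact h3.trans hJcard
      exact Nat.le_of_mul_le_mul_left h4 (by omega)
    obtain ⟨J', hJ'J, hJ'card⟩ := exists_subset_card_eq h2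
    apply hb'.2
    refine ⟨hb'.1, J', hJ'J.trans hJI, hJ'card, ?_⟩
    intro x hx y hy hxy
    have := hJind x (hJ'J hx) y (hJ'J hy) hxy
    push Not at this
    exact this hxy.symm
  have hspec' : ∀ b, ∃ a, b ∈ B2 → a ∈ I b ∧
      k ^ m ≤ ((I b).filter (fun y => y ≠ a ∧ D' ≤ cd B I {a, y})).card := by
    intro b
    by_cases hb : b ∈ B2
    · obtain ⟨a, h1, h2⟩ := hspec b hb
      exact ⟨a, fun _ => ⟨h1, h2⟩⟩
    · obtain ⟨b0, hb0⟩ := card_pos.mp hB2pos
      obtain ⟨a, h1, h2⟩ := hspec b0 hb0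
      exact ⟨a, fun h => absurd h hb⟩
  choose a ha using hspec'
  -- choose a popular special element
  by_contra hcon
  push Not at hcon
  have hcon' : ∀ x ∈ A, (B2.filter (fun b => a b = x)).Nonempty →
      2 * δ * (B2.filter (fun b => a b = x)).card < (B.filter (fun b => x ∈ I b)).card := by
    intro x hx hne
    refine hcon x hx (B2.filter (fun b => a b = x)) ((filter_subset _ _).trans hB2B) hne ?_ ?_
    · intro b hb
      rw [mem_filter] at hb
      rw [← hb.2]; exact (ha b hb.1).1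
    · intro b hb
      rw [mem_filter] at hb
      rw [← hb.2]; exact (ha b hb.1).2
  have h1 : ∑ x ∈ A, (B2.filter (fun b => a b = x)).card = B2.card := by
    rw [card_eq_sum_card_fiberwise (f := a) (s := B2) (t := A)]
    intro b hb
    exact hIA b (hB2B hb) (ha b hb).1
  have h2 : ∑ x ∈ A, (B.filter (fun b => x ∈ I b)).card = ∑ b ∈ B, (I b).card := by
    have : ∑ x ∈ A, (B.filter (fun b => x ∈ I b)).card =
        ∑ b ∈ B, (A.filter (fun x => x ∈ I b)).card :=
      sum_card_bipartiteAbove_eq_sum_card_bipartiteBelow (fun x b => x ∈ I b)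
    rw [this]
    apply sum_congr rfl
    intro b hb
    congr 1
    ext x
    rw [mem_filter]
    exact ⟨fun h => h.2, fun h => ⟨hIA b hb h, h⟩⟩
  have h3 : ∑ b ∈ B, (I b).card ≤ δ * B.card := by
    calc ∑ b ∈ B, (I b).card ≤ ∑ _b ∈ B, δ := sum_le_sum hδ
      _ = δ * B.card := by rw [sum_const, smul_eq_mul, mul_comm]
  have h4 : ∑ x ∈ A, 2 * δ * (B2.filter (fun b => a b = x)).card <
      ∑ x ∈ A, (B.filter (fun b => x ∈ I b)).card := by
    apply sum_lt_sum
    · intro x hx
      rcases (B2.filter (fun b => a b = x)).eq_empty_or_nonempty with h | h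
      · rw [h]; simp
      · exact (hcon' x hx h).le
    · obtain ⟨b, hb⟩ := card_pos.mp hB2pos
      refine ⟨a b, hIA b (hB2B hb) (ha b hb).1, ?_⟩
      exact hcon' (a b) (hIA b (hB2B hb) (ha b hb).1) ⟨b, by rw [mem_filter]; exact ⟨hb, rfl⟩⟩
  rw [← mul_sum, h1, h2] at h4
  have h5 : δ * B.card ≤ 2 * δ * B2.card := by
    calc δ * B.card ≤ δ * (2 * B2.card) := Nat.mul_le_mul_left _ hB2half
      _ = 2 * δ * B2.card := by ring
  exact absurd (h4.trans_le (h3.trans h5)) (lt_irrefl _)

lemma Lam_succ (k δ D0 m : ℕ) :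
    Lam k δ D0 (m + 1) = 2 ^ (δ + 3) * k ^ 2 * δ ^ 2 * Lam k δ D0 m := by
  rw [Lam, Lam, pow_succ]; ring

lemma Lam_pos {k δ D0 : ℕ} (hk : 1 ≤ k) (hδ1 : 1 ≤ δ) (hD0 : 1 ≤ D0) (m : ℕ) :
    1 ≤ Lam k δ D0 m := by
  have : 0 < (2 ^ (δ + 3) * k ^ 2 * δ ^ 2) ^ m * D0 := by positivity
  exact this

lemma Lam_key {k δ L : ℕ} (hk : 1 ≤ k) (hδ1 : 1 ≤ δ) (hL : 1 ≤ L) :
    2 ^ (δ + 1) * (k ^ 2 * (2 * δ ^ 2 * L) + 1) ≤ 2 ^ (δ + 3) * k ^ 2 * δ ^ 2 * L := by
  have h1 : 1 ≤ k ^ 2 * δ ^ 2 * L := by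
    have : 0 < k ^ 2 * δ ^ 2 * L := by positivity
    exact this
  have h2 : 2 ^ (δ + 3) = 4 * 2 ^ (δ + 1) := by
    rw [show δ + 3 = (δ + 1) + 2 by ring, pow_add]; norm_num; ring
  calc 2 ^ (δ + 1) * (k ^ 2 * (2 * δ ^ 2 * L) + 1)
      ≤ 2 ^ (δ + 1) * (k ^ 2 * (2 * δ ^ 2 * L) + k ^ 2 * δ ^ 2 * L) :=
        Nat.mul_le_mul_left _ (Nat.add_le_add_left h1 _)
    _ = 3 * (2 ^ (δ + 1) * (k ^ 2 * δ ^ 2 * L)) := by ring
    _ ≤ 4 * (2 ^ (δ + 1) * (k ^ 2 * δ ^ 2 * L)) := Nat.mul_le_mul_right _ (by norm_num)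
    _ = 2 ^ (δ + 3) * k ^ 2 * δ ^ 2 * L := by rw [h2]; ring

theorem exists_linear (k δ D0 : ℕ) (hk : 1 ≤ k) (hδ1 : 1 ≤ δ) (hD0 : 1 ≤ D0) (m : ℕ) :
    ∀ (A : Finset α) (B : Finset β) (I : β → Finset α), B.Nonempty → (∀ b ∈ B, I b ⊆ A) →
      (∀ b ∈ B, (I b).card ≤ δ) → (∀ b ∈ B, k ^ m ≤ (I b).card) →
      (∀ Z ⊆ A, Z.card = m + 1 → cd B I Z < D0) → Lam k δ D0 m * A.card ≤ B.card →
      ∃ A' ⊆ A, ∃ B' ⊆ B, B'.Nonempty ∧ A'.card ≤ B'.card ∧ (∀ b ∈ B', k ≤ (I b ∩ A').card) ∧
        (∀ b ∈ B', ∀ b' ∈ B', b ≠ b' → (I b ∩ I b' ∩ A').card ≤ 1) := by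
  classical
  induction m with
  | zero =>
    intro A B I hB hIA _ hlow hcd hlam
    exfalso
    have h1 : B.card ≤ ∑ a ∈ A, cd B I {a} := by
      have : ∑ a ∈ A, cd B I {a} = ∑ b ∈ B, (A.filter (fun a => {a} ⊆ I b)).card := by
        unfold cd
        simp_rw [card_filter]
        exact sum_comm
      rw [this, card_eq_sum_ones]
      apply sum_le_sum
      intro b hb
      have h2 := hlow b hb
      rw [pow_zero] at h2
      obtain ⟨a, ha⟩ := card_pos.mp (by omega : 0 < (I b).card)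
      exact card_pos.mpr ⟨a, by rw [mem_filter]; exact ⟨hIA b hb ha, by simpa using ha⟩⟩
    have hAne : A.Nonempty := by
      obtain ⟨b, hb⟩ := hB
      have h2 := hlow b hb
      rw [pow_zero] at h2
      obtain ⟨a, ha⟩ := card_pos.mp (by omega : 0 < (I b).card)
      exact ⟨a, hIA b hb ha⟩
    have h2 : ∑ a ∈ A, cd B I {a} < ∑ _a ∈ A, D0 := by
      apply sum_lt_sum_of_nonempty hAne
      intro a ha
      exact hcd {a} (by simpa using ha) (by simp)
    rw [sum_const, smul_eq_mul] at h2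
    simp only [Lam, pow_zero, one_mul] at hlam
    rw [mul_comm] at hlam
    omega
  | succ m ih =>
    intro A B I hB hIA hδ hlow hcd hlam
    have hLpos := Lam_pos hk hδ1 hD0 m
    rw [Lam_succ] at hlam
    generalize Lam k δ D0 m = L at *
    obtain ⟨D', hD'⟩ : ∃ D', D' = 2 * δ ^ 2 * L := ⟨_, rfl⟩
    rcases le_or_gt B.card (2 * (goodB B I k D').card) with hcase | hcase
    · obtain ⟨A', hA'A, B', hB'B, hne, hbig, h1, h2⟩ :=
        linear_case_one A B I k δ D' hB hIA hδ hcase
      refine ⟨A', hA'A, B', hB'B, hne, ?_, h1, h2⟩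
      have hkey := Lam_key hk hδ1 hLpos
      rw [← hD'] at hkey
      have h1 : 2 ^ (δ + 3) * k ^ 2 * δ ^ 2 * L * A.card ≤
          2 ^ (δ + 3) * k ^ 2 * δ ^ 2 * L * B'.card :=
        hlam.trans (hbig.trans (Nat.mul_le_mul_right _ hkey))
      have h2 : 0 < 2 ^ (δ + 3) * k ^ 2 * δ ^ 2 * L := by positivity
      exact (card_le_card hA'A).trans (Nat.le_of_mul_le_mul_left h1 h2)
    · obtain ⟨x, hxA, Bx, hBxB, hxne, hxI, hxdeg, hxcard⟩ :=
        linear_case_two A B I k δ D' m hk hIA hδ hlow hcase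
      clear hcase
      obtain ⟨Ax, hAx⟩ : ∃ Ax, Ax = A.filter (fun y => y ≠ x ∧ D' ≤ cd B I {x, y}) := ⟨_, rfl⟩
      have hAxA : Ax ⊆ A := by rw [hAx]; exact filter_subset _ _
      obtain ⟨A', hA'sub, B', hB'sub, h1, h2, h3, h4⟩ := ih Ax Bx (fun b => I b ∩ Ax) hxne
        (fun b _ => inter_subset_right)
        (fun b hb => (card_le_card inter_subset_left).trans (hδ b (hBxB hb)))
        (by
          intro b hb
          refine (hxdeg b hb).trans (card_le_card ?_)
          intro y hy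
          rw [mem_filter] at hy
          rw [mem_inter, hAx, mem_filter]
          exact ⟨hy.1, hIA b (hBxB hb) hy.1, hy.2⟩)
        (by
          intro Z hZ hZcard
          have hxZ : x ∉ Z := by
            intro h
            have := hZ h
            rw [hAx, mem_filter] at this
            exact this.2.1 rfl
          refine lt_of_le_of_lt ?_ (hcd (insert x Z)
            (insert_subset hxA (hZ.trans hAxA))
            (by rw [card_insert_of_notMem hxZ, hZcard]))
          apply card_le_card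
          intro b hb
          rw [mem_filter] at hb ⊢
          exact ⟨hBxB hb.1, insert_subset (hxI b hb.1) (hb.2.trans inter_subset_left)⟩)
        (by
          -- `L * |Ax| ≤ |Bx|`
          have h5 : D' * Ax.card ≤ ∑ y ∈ Ax, cd B I {x, y} := by
            calc D' * Ax.card = ∑ _y ∈ Ax, D' := by rw [sum_const, smul_eq_mul, mul_comm]
              _ ≤ _ := by
                apply sum_le_sum
                intro y hy
                rw [hAx, mem_filter] at hy
                exact hy.2.2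
          have h6 : ∑ y ∈ Ax, cd B I {x, y} ≤ ∑ b ∈ B.filter (fun b => x ∈ I b), (I b).card := by
            have h7 : ∑ y ∈ Ax, cd B I {x, y} =
                ∑ b ∈ B, (Ax.filter (fun y => {x, y} ⊆ I b)).card := by
              unfold cd
              simp_rw [card_filter]
              exact sum_comm
            rw [h7, sum_filter]
            apply sum_le_sum
            intro b _
            by_cases hx : x ∈ I b
            · rw [if_pos hx]
              apply card_le_card
              intro y hy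
              rw [mem_filter] at hy
              exact hy.2 (by simp)
            · rw [if_neg hx]
              have : Ax.filter (fun y => {x, y} ⊆ I b) = ∅ := by
                rw [eq_empty_iff_forall_notMem]
                intro y hy
                rw [mem_filter] at hy
                exact hx (hy.2 (by simp))
              rw [this]; simp
          have h8 : ∑ b ∈ B.filter (fun b => x ∈ I b), (I b).card ≤
              δ * (B.filter (fun b => x ∈ I b)).card := by
            calc ∑ b ∈ B.filter (fun b => x ∈ I b), (I b).card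
                ≤ ∑ _b ∈ B.filter (fun b => x ∈ I b), δ :=
                  sum_le_sum (fun b hb => hδ b (mem_filter.mp hb).1)
              _ = _ := by rw [sum_const, smul_eq_mul, mul_comm]
          have h9 : 2 * δ ^ 2 * (L * Ax.card) ≤ 2 * δ ^ 2 * Bx.card := by
            calc 2 * δ ^ 2 * (L * Ax.card) = D' * Ax.card := by rw [hD']; ring
              _ ≤ δ * (B.filter (fun b => x ∈ I b)).card := h5.trans (h6.trans h8)
              _ ≤ δ * (2 * δ * Bx.card) := Nat.mul_le_mul_left _ hxcard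
              _ = 2 * δ ^ 2 * Bx.card := by ring
          exact Nat.le_of_mul_le_mul_left h9 (by positivity))
      have hinter : ∀ b, I b ∩ Ax ∩ A' = I b ∩ A' := by
        intro b
        rw [inter_assoc, inter_eq_right.mpr hA'sub]
      refine ⟨A', hA'sub.trans hAxA, B', hB'sub.trans hBxB, h1, h2, ?_, ?_⟩
      · intro b hb
        have := h3 b hb
        rwa [hinter] at this
      · intro b hb b' hb' hne
        have h5 := h4 b hb b' hb' hne
        refine le_trans (card_le_card ?_) h5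
        intro y hy
        simp only [mem_inter] at hy ⊢
        exact ⟨⟨⟨hy.1.1, hA'sub hy.2⟩, ⟨hy.1.2, hA'sub hy.2⟩⟩, hy.2⟩

end Pool.Agent.Helper286_biclique
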