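import Pool.Agent.Helper286_biclique.Dichotomy

/-!
Choice of the constants.
-/

set_option linter.unusedSectionVars false

namespace Pool.Agent.Helper286_biclique

open Finset

/-- bounded by a power -/
def PB (f : ℕ → ℕ) : Prop := ∃ b, ∀ x, 2 ≤ x → f x ≤ x ^ b

lemma PB.const (c : ℕ) : PB (fun _ => c) := by
  refine ⟨c, fun x hx => ?_⟩
  calc c ≤ 2 ^ c := (Nat.lt_two_pow_self).le
    _ ≤ x ^ c := Nat.pow_le_pow_left hx c

lemma PB.id : PB (fun x => x) := ⟨1, fun x _ => by simp⟩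

lemma PB.mul {f g : ℕ → ℕ} (hf : PB f) (hg : PB g) : PB (fun x => f x * g x) := by
  obtain ⟨a, ha⟩ := hf
  obtain ⟨b, hb⟩ := hg
  refine ⟨a + b, fun x hx => ?_⟩
  rw [pow_add]
  exact Nat.mul_le_mul (ha x hx) (hb x hx)

lemma PB.add {f g : ℕ → ℕ} (hf : PB f) (hg : PB g) : PB (fun x => f x + g x) := by
  obtain ⟨a, ha⟩ := hf
  obtain ⟨b, hb⟩ := hg
  refine ⟨a + b + 1, fun x hx => ?_⟩
  have h1 : x ^ a ≤ x ^ (a + b) := Nat.pow_le_pow_right (by omega) (by omega)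
  have h2 : x ^ b ≤ x ^ (a + b) := Nat.pow_le_pow_right (by omega) (by omega)
  calc f x + g x ≤ x ^ (a + b) + x ^ (a + b) := Nat.add_le_add ((ha x hx).trans h1)
        ((hb x hx).trans h2)
    _ = 2 * x ^ (a + b) := by ring
    _ ≤ x * x ^ (a + b) := Nat.mul_le_mul_right _ hx
    _ = x ^ (a + b + 1) := by rw [pow_succ]; ring

lemma PB.pow {f : ℕ → ℕ} (hf : PB f) (n : ℕ) : PB (fun x => f x ^ n) := by
  obtain ⟨a, ha⟩ := hf
  refine ⟨a * n, fun x hx => ?_⟩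
  rw [pow_mul]
  exact Nat.pow_le_pow_left (ha x hx) n

lemma PB.bad1 {f : ℕ → ℕ} (hf : PB f) (h : ℕ) : PB (fun x => bad1 (f x) h) := by
  unfold Helper286_biclique.bad1
  exact (PB.const _).mul hf

lemma PB.theta {f : ℕ → ℕ} (hf : PB f) (h : ℕ) : PB (fun x => theta (f x) h) := by
  unfold Helper286_biclique.theta
  exact (((PB.const 2).mul hf).pow h).mul ((((PB.const 4).mul hf).pow h).add (PB.const h))

lemma PB.nOne {f : ℕ → ℕ} (hf : PB f) (h : ℕ) : PB (fun x => nOne (f x) h) := by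
  unfold Helper286_biclique.nOne
  exact ((PB.const 2).mul (hf.bad1 h)).mul (((PB.const 4).mul hf).pow (h * h))

lemma PB.yZero {f g : ℕ → ℕ} (hf : PB f) (hg : PB g) (h : ℕ) :
    PB (fun x => yZero (f x) h (g x)) := by
  unfold Helper286_biclique.yZero
  exact (((PB.const 2).mul hg).pow (h + 1)).mul
    (((PB.const 2).mul (((PB.const 4).mul hf).pow (h * h))).mul (hf.theta h))

lemma bad1_mono {s t : ℕ} (hst : s ≤ t) (h : ℕ) : bad1 s h ≤ bad1 t h := by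
  unfold bad1; gcongr

lemma theta_mono {s t : ℕ} (hst : s ≤ t) (h : ℕ) : theta s h ≤ theta t h := by
  unfold theta; gcongr

lemma nOne_mono {s t : ℕ} (hst : s ≤ t) (h : ℕ) : nOne s h ≤ nOne t h := by
  unfold nOne
  have := bad1_mono hst h
  gcongr

lemma yZero_mono {s t μ ν : ℕ} (hst : s ≤ t) (hμν : μ ≤ ν) (h : ℕ) :
    yZero s h μ ≤ yZero t h ν := by
  unfold yZero
  have := theta_mono hst h
  gcongr

/-- exponentials beat powers -/
lemma exists_exp (b c : ℕ) : ∃ C : ℕ, 1 ≤ C ∧ c ≤ C ∧ C ^ b * 2 ^ c ≤ 2 ^ C := by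
  have h1 := tendsto_pow_const_div_const_pow_of_one_lt b (show (1 : ℝ) < 2 by norm_num)
  have h2 : ∀ᶠ n : ℕ in Filter.atTop, (n : ℝ) ^ b / 2 ^ n < 1 / 2 ^ c := by
    apply h1.eventually_lt_const
    positivity
  obtain ⟨C, hC1, hC2⟩ := (h2.and (Filter.eventually_ge_atTop (c + 1))).exists
  refine ⟨C, by omega, by omega, ?_⟩
  rw [div_lt_div_iff₀ (by positivity) (by positivity), one_mul] at hC1
  exact_mod_cast hC1.le

/-- the exponent that controls the unbalanced case -/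
def expo (m s : ℕ) : ℕ :=
  8 + (4 + 2 * s) + (1 + s ^ m * (5 + 2 * s + s ^ m)) + m * (3 * s ^ m + 3 + 2 * s) +
    (6 * s * (m + 1) + (m + 1) + 1)

lemma PB_expo (m : ℕ) : PB (fun s => expo m s) := by
  unfold expo
  have hid := PB.id
  have hK : PB (fun s => s ^ m) := hid.pow m
  refine ((((PB.const 8).add ((PB.const 4).add ((PB.const 2).mul hid))).add
    ((PB.const 1).add (hK.mul (((PB.const 5).add ((PB.const 2).mul hid)).add hK)))).add
    ((PB.const m).mul ((((PB.const 3).mul hK).add (PB.const 3)).add ((PB.const 2).mul hid)))).add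
    (((((PB.const 6).mul hid).mul (PB.const (m + 1))).add (PB.const (m + 1))).add (PB.const 1))

lemma theta_le_two_pow (s m : ℕ) (hs : 1 ≤ s) :
    theta s (m + 1) ≤ 2 ^ (6 * s * (m + 1) + (m + 1) + 1) := by
  unfold theta
  have h2 : 2 * s ≤ 2 ^ (2 * s) := (Nat.lt_two_pow_self).le
  have h4 : 4 * s ≤ 2 ^ (4 * s) := (Nat.lt_two_pow_self).le
  have hh : m + 1 ≤ 2 ^ (m + 1) := (Nat.lt_two_pow_self).le
  have h5 : (2 * s) ^ (m + 1) ≤ 2 ^ (2 * s * (m + 1)) := by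
    rw [pow_mul]; exact Nat.pow_le_pow_left h2 _
  have h6 : (4 * s) ^ (m + 1) ≤ 2 ^ (4 * s * (m + 1)) := by
    rw [pow_mul]; exact Nat.pow_le_pow_left h4 _
  have h7 : (4 * s) ^ (m + 1) + (m + 1) ≤ 2 ^ (4 * s * (m + 1) + (m + 1) + 1) := by
    have h8 : 2 ^ (4 * s * (m + 1)) ≤ 2 ^ (4 * s * (m + 1) + (m + 1)) :=
      Nat.pow_le_pow_right (by norm_num) (by omega)
    have h9 : 2 ^ (m + 1) ≤ 2 ^ (4 * s * (m + 1) + (m + 1)) :=
      Nat.pow_le_pow_right (by norm_num) (by omega)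
    rw [pow_succ 2 (4 * s * (m + 1) + (m + 1))]
    omega
  calc (2 * s) ^ (m + 1) * ((4 * s) ^ (m + 1) + (m + 1))
      ≤ 2 ^ (2 * s * (m + 1)) * 2 ^ (4 * s * (m + 1) + (m + 1) + 1) := Nat.mul_le_mul h5 h7
    _ = 2 ^ (6 * s * (m + 1) + (m + 1) + 1) := by
        rw [← pow_add]; congr 1; ring

lemma Theta_le_two_pow (s m C d : ℕ) (hs : 2 ≤ s) (hC : 1 ≤ C) (hd1 : 1 ≤ d)
    (hd : d ≤ (2 * s) ^ C) :
    256 * Theta s m s (2 * d) (2 * (8 * d + s ^ m * (2 * d))) ≤ 2 ^ (C * expo m s) := by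
  have h2s : 2 * s ≤ 2 ^ (2 * s) := (Nat.lt_two_pow_self).le
  have hdpow : d ≤ 2 ^ (2 * s * C) := by
    refine hd.trans ?_
    rw [pow_mul]; exact Nat.pow_le_pow_left h2s _
  set K := s ^ m with hK
  have hK1 : 1 ≤ K := Nat.one_le_pow _ _ (by omega)
  have hKpow : K ≤ 2 ^ K := (Nat.lt_two_pow_self).le
  have hspow : s ≤ 2 ^ s := (Nat.lt_two_pow_self).le
  -- the factors
  have f1 : 2 * (2 * (2 * d) + 1) ≤ 2 ^ (4 + 2 * s * C) := by
    calc 2 * (2 * (2 * d) + 1) ≤ 16 * d := by omega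
      _ ≤ 16 * 2 ^ (2 * s * C) := Nat.mul_le_mul_left _ hdpow
      _ = 2 ^ (4 + 2 * s * C) := by rw [pow_add]; norm_num
  have f2 : 2 * (8 * d + K * (2 * d)) ≤ 2 ^ (5 + 2 * s * C + K) := by
    calc 2 * (8 * d + K * (2 * d)) = 16 * d + 4 * (d * K) := by ring
      _ ≤ 16 * (d * K) + 4 * (d * K) :=
          Nat.add_le_add_right (Nat.mul_le_mul_left _ (Nat.le_mul_of_pos_right _ (by omega))) _
      _ ≤ 32 * (d * K) := by omega
      _ ≤ 32 * (2 ^ (2 * s * C) * 2 ^ K) := Nat.mul_le_mul_left _ (Nat.mul_le_mul hdpow hKpow)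
      _ = 2 ^ (5 + 2 * s * C + K) := by rw [pow_add, pow_add]; norm_num; ring
  have f3 : 2 * (2 * (8 * d + K * (2 * d))) ^ K ≤ 2 ^ (1 + K * (5 + 2 * s * C + K)) := by
    calc 2 * (2 * (8 * d + K * (2 * d))) ^ K ≤ 2 * (2 ^ (5 + 2 * s * C + K)) ^ K :=
          Nat.mul_le_mul_left _ (Nat.pow_le_pow_left f2 K)
      _ = 2 ^ (1 + K * (5 + 2 * s * C + K)) := by
          rw [← pow_mul, pow_add, pow_one]; congr 2; ring
  have f4 : (2 ^ (K + 3) * s ^ 2 * K ^ 2) ^ m ≤ 2 ^ (m * (3 * K + 3 + 2 * s)) := by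
    calc (2 ^ (K + 3) * s ^ 2 * K ^ 2) ^ m ≤ (2 ^ (K + 3) * (2 ^ s) ^ 2 * (2 ^ K) ^ 2) ^ m := by
          gcongr
      _ = 2 ^ (m * (3 * K + 3 + 2 * s)) := by
          rw [← pow_mul, ← pow_mul, ← pow_add, ← pow_add, ← pow_mul]; congr 1; ring
  have f5 := theta_le_two_pow s m (by omega)
  have f6 : Lam s K (theta s (m + 1)) m ≤
      2 ^ (m * (3 * K + 3 + 2 * s) + (6 * s * (m + 1) + (m + 1) + 1)) := by
    unfold Lam
    rw [pow_add 2 (m * (3 * K + 3 + 2 * s))]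
    exact Nat.mul_le_mul f4 f5
  have h256 : 256 = 2 ^ 8 := by norm_num
  calc 256 * Theta s m s (2 * d) (2 * (8 * d + K * (2 * d)))
      = 2 ^ 8 * (2 * (2 * (2 * d) + 1) * (2 * (2 * (8 * d + K * (2 * d))) ^ K) *
          Lam s K (theta s (m + 1)) m) := by
        unfold Theta; rw [← hK]; norm_num
    _ ≤ 2 ^ 8 * (2 ^ (4 + 2 * s * C) * 2 ^ (1 + K * (5 + 2 * s * C + K)) *
          2 ^ (m * (3 * K + 3 + 2 * s) + (6 * s * (m + 1) + (m + 1) + 1))) :=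
        Nat.mul_le_mul_left _ (Nat.mul_le_mul (Nat.mul_le_mul f1 f3) f6)
    _ = 2 ^ (8 + ((4 + 2 * s * C) + (1 + K * (5 + 2 * s * C + K)) +
          (m * (3 * K + 3 + 2 * s) + (6 * s * (m + 1) + (m + 1) + 1)))) := by
        rw [pow_add 2 8, pow_add 2 ((4 + 2 * s * C) + (1 + K * (5 + 2 * s * C + K))),
          pow_add 2 (4 + 2 * s * C)]
    _ ≤ 2 ^ (C * expo m s) := by
        apply Nat.pow_le_pow_right (by norm_num)
        unfold expo
        rw [← hK]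
        obtain ⟨c, hc⟩ : ∃ c, C = c + 1 := ⟨C - 1, by omega⟩
        rw [hc]
        ring_nf
        nlinarith [Nat.zero_le (c * K), Nat.zero_le (c * K * K), Nat.zero_le (c * m * K),
          Nat.zero_le (c * m * s), Nat.zero_le (c * m), Nat.zero_le (c * s), Nat.zero_le c]

end Pool.Agent.Helper286_biclique
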