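import Pool.Agent.Helper286_biclique.Basic

/-!
Embedding a bipartite graph: in a graph without `K_{s,s}` and without an induced copy of the
bipartite graph `H` on `Fin h`, few independent `h`-tuples of any set have many common neighbours.
-/

set_option linter.unusedSectionVars false

namespace Pool.Agent.Helper286_biclique

open Finset

variable {V : Type*} [Fintype V] [DecidableEq V] (G : SimpleGraph V) [DecidableRel G.Adj]

/-- independent tuples of distinct vertices of `U` -/
def indepT (h : ℕ) (U : Finset V) : Finset (Fin h → V) :=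
  (Fintype.piFinset (fun _ : Fin h => U)).filter
    (fun T => (∀ i j, T i = T j → i = j) ∧ ∀ i j, ¬ G.Adj (T i) (T j))

/-- the vertices of `Y` adjacent to `T i` for `i ∈ P` and not adjacent to `T i` for `i ∈ R` -/
def cell {h : ℕ} (Y : Finset V) (T : Fin h → V) (P R : Finset (Fin h)) : Finset V :=
  Y.filter (fun y => (∀ i ∈ P, G.Adj (T i) y) ∧ (∀ i ∈ R, ¬ G.Adj (T i) y))

variable {G}

lemma mem_indepT {h : ℕ} {U : Finset V} {T : Fin h → V} :
    T ∈ indepT G h U ↔ (∀ i, T i ∈ U) ∧ (∀ i j, T i = T j → i = j) ∧ ∀ i j, ¬ G.Adj (T i) (T j) := by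
  simp [indepT]

lemma mem_cell {h : ℕ} {Y : Finset V} {T : Fin h → V} {P R : Finset (Fin h)} {y : V} :
    y ∈ cell G Y T P R ↔ y ∈ Y ∧ (∀ i ∈ P, G.Adj (T i) y) ∧ (∀ i ∈ R, ¬ G.Adj (T i) y) := by
  simp [cell]

/-- Large sets contain many independent tuples. -/
lemma card_indepT {s : ℕ} (hK : KFree G s) (h : ℕ) : ∀ U : Finset V, (4 * s) ^ h ≤ U.card →
    U.card ^ h ≤ (4 * s) ^ (h * h) * (indepT G h U).card := by
  have hs := hK.pos
  induction h with
  | zero =>
    intro U _
    have : (indepT G 0 U).card = 1 := by
      rw [card_eq_one]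
      refine ⟨fun i => i.elim0, ?_⟩
      ext T
      rw [mem_indepT, mem_singleton]
      constructor
      · intro _; funext i; exact i.elim0
      · intro _; exact ⟨fun i => i.elim0, fun i => i.elim0, fun i => i.elim0⟩
    simp [this]
  | succ h ih =>
    intro U hU
    have hpow1 : 1 ≤ (4 * s) ^ h := Nat.one_le_pow _ _ (by omega)
    have hsucc : (4 * s) ^ (h + 1) = 4 * s * (4 * s) ^ h := by rw [pow_succ]; ring
    have hU4 : 4 * s ≤ U.card := by rw [hsucc] at hU; nlinarith
    set Ug := U.filter (fun a => U.card ≤ 2 * s * (U.filter (fun u => ¬ G.Adj a u)).card) with hUg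
    have hbad : U.card ≤ Ug.card + s := by
      have h1 := exc_card_lt hK U (by omega)
      have h2 : U ⊆ Ug ∪ univ.filter
          (fun v => 2 * s * (U.filter (fun u => ¬ G.Adj v u)).card < U.card) := by
        intro a ha
        rw [mem_union, hUg, mem_filter, mem_filter]
        rcases le_or_gt U.card (2 * s * (U.filter (fun u => ¬ G.Adj a u)).card) with h | h
        · exact Or.inl ⟨ha, h⟩
        · exact Or.inr ⟨mem_univ _, h⟩
      have := (card_le_card h2).trans (card_union_le _ _)
      omega
    set Ua : V → Finset V := fun a => (U.filter (fun u => ¬ G.Adj a u)).erase a with hUa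
    have hUa4 : ∀ a ∈ Ug, U.card ≤ 4 * s * (Ua a).card := by
      intro a ha
      rw [hUg, mem_filter] at ha
      have h3 : (U.filter (fun u => ¬ G.Adj a u)).card - 1 ≤ (Ua a).card :=
        pred_card_le_card_erase (s := U.filter (fun u => ¬ G.Adj a u)) (a := a)
      have h4 : (U.filter (fun u => ¬ G.Adj a u)).card ≤ (Ua a).card + 1 := by omega
      have h5 := ha.2
      nlinarith
    have hUah : ∀ a ∈ Ug, (4 * s) ^ h ≤ (Ua a).card := by
      intro a ha
      have h1 := hUa4 a ha
      rw [hsucc] at hU
      exact Nat.le_of_mul_le_mul_left (hU.trans h1) (by omega)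
    have hstep : ∀ a ∈ Ug, U.card ^ h ≤ (4 * s) ^ (h + h * h) * (indepT G h (Ua a)).card := by
      intro a ha
      calc U.card ^ h ≤ (4 * s * (Ua a).card) ^ h := Nat.pow_le_pow_left (hUa4 a ha) h
        _ = (4 * s) ^ h * (Ua a).card ^ h := by rw [mul_pow]
        _ ≤ (4 * s) ^ h * ((4 * s) ^ (h * h) * (indepT G h (Ua a)).card) :=
            Nat.mul_le_mul_left _ (ih (Ua a) (hUah a ha))
        _ = (4 * s) ^ (h + h * h) * (indepT G h (Ua a)).card := by rw [pow_add]; ring
    -- the tuples of length `h + 1`
    have hsum : ∑ a ∈ Ug, (indepT G h (Ua a)).card ≤ (indepT G (h + 1) U).card := by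
      rw [← card_sigma]
      apply card_le_card_of_injOn (fun p : (Σ _ : V, Fin h → V) => Fin.cons p.1 p.2)
      · rintro ⟨a, T⟩ hp
        rw [mem_coe, mem_sigma] at hp
        obtain ⟨ha, hT⟩ := hp
        rw [hUg, mem_filter] at ha
        rw [mem_indepT] at hT
        obtain ⟨hT1, hT2, hT3⟩ := hT
        have hT1' : ∀ i, T i ≠ a ∧ T i ∈ U ∧ ¬ G.Adj a (T i) := by
          intro i
          have := hT1 i
          rw [hUa] at this
          simp only [mem_erase, mem_filter] at this
          exact this
        rw [mem_coe, mem_indepT]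
        refine ⟨?_, ?_, ?_⟩
        · intro i
          refine Fin.cases ?_ ?_ i
          · simpa using ha.1
          · intro j; simpa using (hT1' j).2.1
        · intro i j
          refine Fin.cases ?_ ?_ i
          · refine Fin.cases ?_ ?_ j
            · intro _; rfl
            · intro j hj
              simp only [Fin.cons_zero, Fin.cons_succ] at hj
              exact absurd hj.symm (hT1' j).1
          · intro i
            refine Fin.cases ?_ ?_ j
            · intro hj
              simp only [Fin.cons_zero, Fin.cons_succ] at hj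
              exact absurd hj (hT1' i).1
            · intro j hj
              simp only [Fin.cons_succ] at hj
              rw [hT2 i j hj]
        · intro i j
          refine Fin.cases ?_ ?_ i
          · refine Fin.cases ?_ ?_ j
            · simp
            · intro j
              simp only [Fin.cons_zero, Fin.cons_succ]
              exact (hT1' j).2.2
          · intro i
            refine Fin.cases ?_ ?_ j
            · simp only [Fin.cons_zero, Fin.cons_succ]
              exact fun h => (hT1' i).2.2 h.symm
            · intro j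
              simp only [Fin.cons_succ]
              exact hT3 i j
      · rintro ⟨a, T⟩ _ ⟨a', T'⟩ _ heq
        have heq' : (Fin.cons a T : Fin (h + 1) → V) = Fin.cons a' T' := heq
        have h1 := congrFun heq' 0
        simp only [Fin.cons_zero] at h1
        have h2 : T = T' := by
          funext i
          have := congrFun heq' i.succ
          simpa only [Fin.cons_succ] using this
        subst h1; subst h2; rfl
    have hfin : Ug.card * U.card ^ h ≤ (4 * s) ^ (h + h * h) * (indepT G (h + 1) U).card := by
      calc Ug.card * U.card ^ h = ∑ _a ∈ Ug, U.card ^ h := by rw [sum_const, smul_eq_mul]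
        _ ≤ ∑ a ∈ Ug, (4 * s) ^ (h + h * h) * (indepT G h (Ua a)).card := sum_le_sum hstep
        _ = (4 * s) ^ (h + h * h) * ∑ a ∈ Ug, (indepT G h (Ua a)).card := by rw [mul_sum]
        _ ≤ _ := Nat.mul_le_mul_left _ hsum
    have hhalf : U.card ≤ 2 * Ug.card := by omega
    calc U.card ^ (h + 1) = U.card * U.card ^ h := by rw [pow_succ]; ring
      _ ≤ 2 * Ug.card * U.card ^ h := Nat.mul_le_mul_right _ hhalf
      _ = 2 * (Ug.card * U.card ^ h) := by ring
      _ ≤ 2 * ((4 * s) ^ (h + h * h) * (indepT G (h + 1) U).card) := Nat.mul_le_mul_left _ hfin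
      _ ≤ (4 * s) ^ (h + 1) * ((4 * s) ^ (h + h * h) * (indepT G (h + 1) U).card) := by
          apply Nat.mul_le_mul_right
          rw [hsucc]; nlinarith
      _ = (4 * s) ^ ((h + 1) * (h + 1)) * (indepT G (h + 1) U).card := by
          rw [show (h + 1) * (h + 1) = (h + 1) + (h + h * h) by ring, pow_add]; ring

/-- If all cells of an independent tuple are large then every bipartite graph on `Fin h` is an
induced subgraph. -/
lemma exists_embedding {s : ℕ} (hK : KFree G s) {h : ℕ} (H : SimpleGraph (Fin h))
    (hH : H.Colorable 2) (Y : Finset V) (T : Fin h → V)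
    (hT1 : ∀ i j, T i = T j → i = j) (hT2 : ∀ i j, ¬ G.Adj (T i) (T j))
    (hcell : ∀ S : Finset (Fin h), (4 * s) ^ h + h ≤ (cell G Y T S Sᶜ).card) :
    Nonempty (H ↪g G) := by
  classical
  have hs := hK.pos
  obtain ⟨c⟩ := hH
  rcases Nat.eq_zero_or_pos h with h0 | hpos
  · subst h0
    exact ⟨⟨⟨fun i => i.elim0, fun i => i.elim0⟩, fun {i} => i.elim0⟩⟩
  have : Nonempty V := ⟨T ⟨0, hpos⟩⟩
  set R : Finset (Fin h) := univ.filter (fun w => c w = 1) with hR
  set C : Fin h → Finset V := fun w =>
    (cell G Y T (univ.filter (fun i => H.Adj i w)) (univ.filter (fun i => H.Adj i w))ᶜ) \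
      (univ.image T) with hC
  obtain ⟨y, hy1, hy2⟩ := exists_transversal hK R C (by
    intro w _
    have h1 := hcell (univ.filter (fun i => H.Adj i w))
    have h2 : (univ.image T).card ≤ h := card_image_le.trans (by simp)
    have h3 := le_card_sdiff (univ.image T)
      (cell G Y T (univ.filter (fun i => H.Adj i w)) (univ.filter (fun i => H.Adj i w))ᶜ)
    have h4 : R.card ≤ h := (card_le_univ R).trans (by simp)
    have h5 : (4 * s) ^ R.card ≤ (4 * s) ^ h := Nat.pow_le_pow_right (by omega) h4
    have h6 : (cell G Y T (univ.filter (fun i => H.Adj i w))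
        (univ.filter (fun i => H.Adj i w))ᶜ).card - (univ.image T).card ≤ (C w).card := h3
    omega)
  have hyadj : ∀ w ∈ R, ∀ i, G.Adj (T i) (y w) ↔ H.Adj i w := by
    intro w hw i
    have := hy1 w hw
    rw [hC] at this
    simp only [mem_sdiff, mem_cell, mem_filter, mem_univ, true_and, mem_compl] at this
    constructor
    · intro hadj
      by_contra hcon
      exact this.1.2.2 i hcon hadj
    · intro hadj
      exact this.1.2.1 i hadj
  have hynotT : ∀ w ∈ R, ∀ i, y w ≠ T i := by
    intro w hw i heq
    have := hy1 w hw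
    rw [hC] at this
    simp only [mem_sdiff, mem_image, mem_univ, true_and, not_exists] at this
    exact this.2 i heq.symm
  have hcol : ∀ w, w ∉ R → c w = 0 := by
    intro w hw
    rw [hR, mem_filter] at hw
    have : c w ≠ 1 := fun h => hw ⟨mem_univ _, h⟩
    have h2 : ∀ x : Fin 2, x ≠ 1 → x = 0 := by decide
    exact h2 _ this
  have hcol1 : ∀ w, w ∈ R → c w = 1 := by
    intro w hw
    rw [hR, mem_filter] at hw
    exact hw.2
  set φ : Fin h → V := fun w => if w ∈ R then y w else T w with hφ
  have hφ1 : ∀ w ∈ R, φ w = y w := by intro w hw; simp only [hφ, hw, if_true]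
  have hφ0 : ∀ w, w ∉ R → φ w = T w := by intro w hw; simp only [hφ, hw, if_false]
  have hinj : Function.Injective φ := by
    intro a b hab
    by_cases ha : a ∈ R <;> by_cases hb : b ∈ R
    · rw [hφ1 a ha, hφ1 b hb] at hab
      by_contra hne
      exact (hy2 a ha b hb hne).1 hab
    · rw [hφ1 a ha, hφ0 b hb] at hab
      exact absurd hab (hynotT a ha b)
    · rw [hφ0 a ha, hφ1 b hb] at hab
      exact absurd hab.symm (hynotT b hb a)
    · rw [hφ0 a ha, hφ0 b hb] at hab
      exact hT1 a b hab
  refine ⟨⟨⟨φ, hinj⟩, ?_⟩⟩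
  intro a b
  change G.Adj (φ a) (φ b) ↔ H.Adj a b
  by_cases ha : a ∈ R <;> by_cases hb : b ∈ R
  · rw [hφ1 a ha, hφ1 b hb]
    constructor
    · intro hadj
      by_cases hab : a = b
      · subst hab; exact absurd hadj (G.loopless.irrefl _)
      · exact absurd hadj (hy2 a ha b hb hab).2
    · intro hadj
      exact absurd ((hcol1 a ha).trans (hcol1 b hb).symm) (c.valid hadj)
  · rw [hφ1 a ha, hφ0 b hb, G.adj_comm, hyadj a ha b, H.adj_comm]
  · rw [hφ0 a ha, hφ1 b hb, hyadj b hb a]
  · rw [hφ0 a ha, hφ0 b hb]
    constructor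
    · intro hadj
      exact absurd hadj (hT2 a b)
    · intro hadj
      exact absurd ((hcol a ha).trans (hcol b hb).symm) (c.valid hadj)

end Pool.Agent.Helper286_biclique
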