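import Pool.Agent.Helper286_biclique.Regular

/-!
Reduction of the general case: a graph of large average degree contains an almost regular induced
subgraph of large average degree or an exponentially unbalanced one.
-/

set_option linter.unusedSectionVars false

namespace Pool.Agent.Helper286_biclique

open Finset

variable {V : Type*} [Fintype V] [DecidableEq V] {G : SimpleGraph V} [DecidableRel G.Adj]

/-- Two classes of vertices whose degrees are within constant factors: sampling makes them almost
regular. -/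
theorem two_classes (L U : Finset V) (hLU : Disjoint L U) (d J Q n : ℕ) (hd : 1 ≤ d) (hJ : 1 ≤ J)
    (hQ : 1 ≤ Q) (hn : 1 ≤ n) (hL : L.card ≤ n) (hU : Q * U.card ≤ 2 * n)
    (hLdeg : ∀ v ∈ L, (nb G (L ∪ U) v).card ≤ 8 * d)
    (hUdeg : ∀ u ∈ U, (nb G L u).card ≤ 2 * Q * d)
    (hUU : ∑ u ∈ U, (nb G U u).card ≤ 2 * d * U.card)
    (hedge : n * d ≤ 8 * J * ∑ u ∈ U, (nb G L u).card) :
    ∃ W ⊆ L ∪ U, W.Nonempty ∧ (∀ v ∈ W, (nb G W v).card ≤ 134 * J * d) ∧
      d * W.card ≤ 48 * J * ∑ v ∈ W, (nb G W v).card := by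
  classical
  have : NeZero Q := ⟨by omega⟩
  -- discard the vertices of `U` of large degree inside `U`
  obtain ⟨U', hU'⟩ : ∃ U', U' = U.filter (fun u => (nb G U u).card ≤ 128 * J * d) := ⟨_, rfl⟩
  obtain ⟨Ub, hUb⟩ : ∃ Ub, Ub = U.filter (fun u => ¬ (nb G U u).card ≤ 128 * J * d) := ⟨_, rfl⟩
  have hU'U : U' ⊆ U := by rw [hU']; exact filter_subset _ _
  have hUbU : Ub ⊆ U := by rw [hUb]; exact filter_subset _ _
  have hUbcard : 64 * J * Ub.card ≤ U.card := by
    have h1 : Ub.card * (128 * J * d) ≤ 2 * d * U.card := by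
      calc Ub.card * (128 * J * d) = ∑ _u ∈ Ub, 128 * J * d := by rw [sum_const, smul_eq_mul]
        _ ≤ ∑ u ∈ Ub, (nb G U u).card := by
            apply sum_le_sum
            intro u hu
            rw [hUb, mem_filter] at hu
            have := hu.2
            omega
        _ ≤ ∑ u ∈ U, (nb G U u).card :=
            sum_le_sum_of_subset_of_nonneg hUbU (fun _ _ _ => Nat.zero_le _)
        _ ≤ _ := hUU
    have h2 : 2 * d * (64 * J * Ub.card) ≤ 2 * d * U.card := by
      calc 2 * d * (64 * J * Ub.card) = Ub.card * (128 * J * d) := by ring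
        _ ≤ _ := h1
    exact Nat.le_of_mul_le_mul_left h2 (by omega)
  obtain ⟨E', hE'⟩ : ∃ E', E' = ∑ u ∈ U', (nb G L u).card := ⟨_, rfl⟩
  have hE'big : n * d ≤ 16 * J * E' := by
    have hsplit : ∑ u ∈ U, (nb G L u).card = E' + ∑ u ∈ Ub, (nb G L u).card := by
      rw [hE', hU', hUb, sum_filter_add_sum_filter_not]
    have h1 : 16 * J * ∑ u ∈ Ub, (nb G L u).card ≤ n * d := by
      have h2 : ∑ u ∈ Ub, (nb G L u).card ≤ Ub.card * (2 * Q * d) := by
        calc ∑ u ∈ Ub, (nb G L u).card ≤ ∑ _u ∈ Ub, 2 * Q * d :=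
              sum_le_sum (fun u hu => hUdeg u (hUbU hu))
          _ = _ := by rw [sum_const, smul_eq_mul]
      have h3 : 2 * (16 * J * ∑ u ∈ Ub, (nb G L u).card) ≤ 2 * (n * d) := by
        calc 2 * (16 * J * ∑ u ∈ Ub, (nb G L u).card)
            ≤ 2 * (16 * J * (Ub.card * (2 * Q * d))) :=
              Nat.mul_le_mul_left _ (Nat.mul_le_mul_left _ h2)
          _ = (64 * J * Ub.card) * (Q * d) := by ring
          _ ≤ U.card * (Q * d) := Nat.mul_le_mul_right _ hUbcard
          _ = (Q * U.card) * d := by ring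
          _ ≤ (2 * n) * d := Nat.mul_le_mul_right _ hU
          _ = 2 * (n * d) := by ring
      exact Nat.le_of_mul_le_mul_left h3 (by norm_num)
    have h4 : 2 * (n * d) ≤ 16 * J * E' + 16 * J * ∑ u ∈ Ub, (nb G L u).card := by
      calc 2 * (n * d) ≤ 2 * (8 * J * ∑ u ∈ U, (nb G L u).card) := Nat.mul_le_mul_left _ hedge
        _ = _ := by rw [hsplit]; ring
    omega
  -- sampling of `L`
  set S : (V → Fin Q) → Finset V := fun f => L.filter (fun v => f v = 0) with hS
  set X : (V → Fin Q) → V → ℕ := fun f u => (nb G (S f) u).card with hX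
  have hXeq : ∀ f u, X f u = ((nb G L u).filter (fun v => f v = 0)).card := by
    intro f u
    simp only [hX, hS, nb]
    congr 1
    ext v
    simp only [mem_filter]
    tauto
  set nV := Fintype.card V with hnV
  have hfirst : ∀ u, (∑ f : V → Fin Q, X f u) * Q = (nb G L u).card * Q ^ nV := by
    intro u
    have h1 := sum_config Q (nb G L u) (fun v => ({v} : Finset V)) 1
      (fun _ _ => card_singleton _)
    rw [pow_one] at h1
    rw [← h1]
    congr 1
    apply sum_congr rfl
    intro f _
    rw [hXeq]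
    congr 1
    apply filter_congr
    intro v _
    simp
  have hsecond : ∀ u ∈ U, (∑ f : V → Fin Q, (X f u) ^ 2) * Q ≤
      (1 + 2 * d) * ((nb G L u).card * Q ^ nV) := by
    intro u hu
    set D := nb G L u with hD
    -- pairs
    set PD := (D ×ˢ D).filter (fun p => p.1 = p.2) with hPD
    set PO := (D ×ˢ D).filter (fun p => ¬ p.1 = p.2) with hPO
    have h1 := sum_config Q PD (fun p => ({p.1, p.2} : Finset V)) 1 (by
      intro p hp
      rw [hPD, mem_filter] at hp
      rw [hp.2]; simp)
    have h2 := sum_config Q PO (fun p => ({p.1, p.2} : Finset V)) 2 (by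
      intro p hp
      rw [hPO, mem_filter] at hp
      exact card_pair hp.2)
    have hPDcard : PD.card ≤ D.card := by
      apply card_le_card_of_injOn Prod.fst
      · intro p hp
        rw [mem_coe, hPD, mem_filter, mem_product] at hp
        exact hp.1.1
      · intro p hp q hq hpq
        rw [mem_coe, hPD, mem_filter] at hp hq
        exact Prod.ext hpq (by rw [← hp.2, ← hq.2]; exact hpq)
    have hPOcard : PO.card ≤ D.card * D.card := by
      refine (card_filter_le _ _).trans ?_
      rw [card_product]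
    have hDcard : D.card ≤ 2 * Q * d := hUdeg u hu
    have hsq : ∀ f : V → Fin Q, (X f u) ^ 2 ≤
        (PD.filter (fun p => ∀ v ∈ ({p.1, p.2} : Finset V), f v = 0)).card +
        (PO.filter (fun p => ∀ v ∈ ({p.1, p.2} : Finset V), f v = 0)).card := by
      intro f
      rw [hXeq, sq, ← card_product]
      refine le_trans (card_le_card ?_) (card_union_le _ _)
      intro p hp
      rw [mem_product, mem_filter, mem_filter] at hp
      obtain ⟨⟨h1, h2⟩, h3, h4⟩ := hp
      have hall : ∀ v ∈ ({p.1, p.2} : Finset V), f v = 0 := by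
        simp only [mem_insert, mem_singleton, forall_eq_or_imp, forall_eq]
        exact ⟨h2, h4⟩
      rw [mem_union]
      by_cases h : p.1 = p.2
      · left
        have : p ∈ PD := mem_filter.mpr ⟨mem_product.mpr ⟨h1, h3⟩, h⟩
        exact mem_filter.mpr ⟨this, hall⟩
      · right
        have : p ∈ PO := mem_filter.mpr ⟨mem_product.mpr ⟨h1, h3⟩, h⟩
        exact mem_filter.mpr ⟨this, hall⟩
    have h3 : (∑ f : V → Fin Q, (X f u) ^ 2) * Q * Q ≤
        ((1 + 2 * d) * (D.card * Q ^ nV)) * Q := by
      calc (∑ f : V → Fin Q, (X f u) ^ 2) * Q * Q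
          ≤ (∑ f : V → Fin Q,
            ((PD.filter (fun p => ∀ v ∈ ({p.1, p.2} : Finset V), f v = 0)).card +
            (PO.filter (fun p => ∀ v ∈ ({p.1, p.2} : Finset V), f v = 0)).card)) * Q * Q :=
            Nat.mul_le_mul_right _ (Nat.mul_le_mul_right _ (sum_le_sum (fun f _ => hsq f)))
        _ = ((∑ f : V → Fin Q,
            (PD.filter (fun p => ∀ v ∈ ({p.1, p.2} : Finset V), f v = 0)).card) * Q ^ 1) * Q +
            (∑ f : V → Fin Q,
            (PO.filter (fun p => ∀ v ∈ ({p.1, p.2} : Finset V), f v = 0)).card) * Q ^ 2 := by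
            rw [sum_add_distrib]; ring
        _ = PD.card * Q ^ nV * Q + PO.card * Q ^ nV := by rw [h1, h2]
        _ ≤ D.card * Q ^ nV * Q + (D.card * D.card) * Q ^ nV :=
            Nat.add_le_add (Nat.mul_le_mul_right _ (Nat.mul_le_mul_right _ hPDcard))
              (Nat.mul_le_mul_right _ hPOcard)
        _ ≤ D.card * Q ^ nV * Q + (D.card * (2 * Q * d)) * Q ^ nV :=
            Nat.add_le_add_left (Nat.mul_le_mul_right _ (Nat.mul_le_mul_left _ hDcard)) _
        _ = ((1 + 2 * d) * (D.card * Q ^ nV)) * Q := by ring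
    exact Nat.le_of_mul_le_mul_right h3 (by omega)
  -- truncated degrees
  have htrunc : ∀ u ∈ U, (nb G L u).card * Q ^ nV ≤
      2 * (∑ f : V → Fin Q, if X f u ≤ 6 * d then X f u else 0) * Q := by
    intro u hu
    have h1 : ∑ f : V → Fin Q, X f u = (∑ f : V → Fin Q, if X f u ≤ 6 * d then X f u else 0) +
        ∑ f : V → Fin Q, if X f u ≤ 6 * d then 0 else X f u := by
      rw [← sum_add_distrib]
      apply sum_congr rfl
      intro f _
      by_cases h : X f u ≤ 6 * d
      · rw [if_pos h, if_pos h]; omega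
      · rw [if_neg h, if_neg h]; omega
    have h2 : 6 * d * (∑ f : V → Fin Q, if X f u ≤ 6 * d then 0 else X f u) ≤
        ∑ f : V → Fin Q, (X f u) ^ 2 := by
      rw [mul_sum]
      apply sum_le_sum
      intro f _
      by_cases h : X f u ≤ 6 * d
      · rw [if_pos h]; simp
      · rw [if_neg h, sq]
        push Not at h
        exact Nat.mul_le_mul_right _ h.le
    set A1 := ∑ f : V → Fin Q, if X f u ≤ 6 * d then X f u else 0
    set A2 := ∑ f : V → Fin Q, if X f u ≤ 6 * d then 0 else X f u
    have h3 := hfirst u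
    have h4 := hsecond u hu
    rw [h1] at h3
    set Y := (nb G L u).card * Q ^ nV with hY
    have h5 : (1 + 2 * d) * (2 * (A2 * Q)) ≤ (1 + 2 * d) * Y := by
      calc (1 + 2 * d) * (2 * (A2 * Q)) = (2 + 4 * d) * A2 * Q := by ring
        _ ≤ (6 * d) * A2 * Q := by
            apply Nat.mul_le_mul_right
            apply Nat.mul_le_mul_right
            omega
        _ ≤ (∑ f : V → Fin Q, (X f u) ^ 2) * Q := Nat.mul_le_mul_right _ h2
        _ ≤ (1 + 2 * d) * Y := h4
    have h6 : 2 * (A2 * Q) ≤ Y := Nat.le_of_mul_le_mul_left h5 (by omega)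
    have h7 : A1 * Q + A2 * Q = Y := by rw [← add_mul]; exact h3
    calc Y ≤ 2 * (A1 * Q) := by omega
      _ = 2 * A1 * Q := by ring
  -- the function `g`
  set g : (V → Fin Q) → ℕ := fun f => ∑ u ∈ U', if X f u ≤ 6 * d then X f u else 0 with hg
  have hgsum : E' * Q ^ nV ≤ 2 * (∑ f : V → Fin Q, g f) * Q := by
    have h1 : ∑ f : V → Fin Q, g f =
        ∑ u ∈ U', ∑ f : V → Fin Q, if X f u ≤ 6 * d then X f u else 0 := by
      simp only [hg]
      exact sum_comm
    rw [h1, hE', sum_mul, mul_sum, sum_mul]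
    exact sum_le_sum (fun u hu => htrunc u (hU'U hu))
  have hSsum : (∑ f : V → Fin Q, (S f).card) * Q = L.card * Q ^ nV := by
    have h1 := sum_config Q L (fun v => ({v} : Finset V)) 1 (fun _ _ => card_singleton _)
    rw [pow_one] at h1
    rw [← h1]
    congr 1
    apply sum_congr rfl
    intro f _
    congr 1
    apply filter_congr
    intro v _
    simp
  have hex : ∃ f : V → Fin Q, d * ((S f).card + U'.card) ≤ 96 * J * g f := by
    have hsum : ∑ f : V → Fin Q, d * ((S f).card + U'.card) ≤ ∑ f : V → Fin Q, 96 * J * g f := by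
      rw [← mul_sum, ← mul_sum, sum_add_distrib, sum_const, smul_eq_mul, card_univ,
        Fintype.card_fun, Fintype.card_fin]
      have h1 : (d * (∑ f : V → Fin Q, (S f).card + Q ^ nV * U'.card)) * Q ≤
          (96 * J * ∑ f : V → Fin Q, g f) * Q := by
        calc (d * (∑ f : V → Fin Q, (S f).card + Q ^ nV * U'.card)) * Q
            = d * ((∑ f : V → Fin Q, (S f).card) * Q + (Q * U'.card) * Q ^ nV) := by ring
          _ ≤ d * (n * Q ^ nV + (2 * n) * Q ^ nV) := by
              apply Nat.mul_le_mul_left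
              apply Nat.add_le_add
              · rw [hSsum]; exact Nat.mul_le_mul_right _ hL
              · apply Nat.mul_le_mul_right
                exact (Nat.mul_le_mul_left _ (card_le_card hU'U)).trans hU
          _ = 3 * (n * d) * Q ^ nV := by ring
          _ ≤ 3 * (16 * J * E') * Q ^ nV :=
              Nat.mul_le_mul_right _ (Nat.mul_le_mul_left _ hE'big)
          _ = 48 * J * (E' * Q ^ nV) := by ring
          _ ≤ 48 * J * (2 * (∑ f : V → Fin Q, g f) * Q) := Nat.mul_le_mul_left _ hgsum
          _ = _ := by ring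
      exact Nat.le_of_mul_le_mul_right h1 (by omega)
    obtain ⟨f, _, hf⟩ := exists_le_of_sum_le (⟨fun _ => 0, mem_univ _⟩ :
      (univ : Finset (V → Fin Q)).Nonempty) hsum
    exact ⟨f, hf⟩
  obtain ⟨f, hf⟩ := hex
  obtain ⟨L', hL'⟩ : ∃ L', L' = S f := ⟨_, rfl⟩
  obtain ⟨U'', hU''⟩ : ∃ U'', U'' = U'.filter (fun u => (nb G L' u).card ≤ 6 * d) := ⟨_, rfl⟩
  have hL'L : L' ⊆ L := by rw [hL']; exact filter_subset _ _
  have hU''U' : U'' ⊆ U' := by rw [hU'']; exact filter_subset _ _
  have hU''U : U'' ⊆ U := hU''U'.trans hU'U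
  have hgf : g f = ∑ u ∈ U'', (nb G L' u).card := by
    rw [hU'', sum_filter, hL']
  have hdisj : Disjoint L' U'' := disjoint_of_subset_left hL'L (disjoint_of_subset_right hU''U hLU)
  have hedges : 2 * g f ≤ ∑ v ∈ L' ∪ U'', (nb G (L' ∪ U'') v).card := by
    have h1 : ∑ v ∈ L' ∪ U'', (nb G (L' ∪ U'') v).card =
        ∑ v ∈ L', (nb G (L' ∪ U'') v).card + ∑ v ∈ U'', (nb G (L' ∪ U'') v).card :=
      sum_union hdisj
    have h2 : ∑ v ∈ U'', (nb G L' v).card ≤ ∑ v ∈ U'', (nb G (L' ∪ U'') v).card :=
      sum_le_sum (fun v _ => card_le_card (nb_mono subset_union_left v))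
    have h3 : ∑ v ∈ L', (nb G U'' v).card ≤ ∑ v ∈ L', (nb G (L' ∪ U'') v).card :=
      sum_le_sum (fun v _ => card_le_card (nb_mono subset_union_right v))
    have h4 : ∑ v ∈ L', (nb G U'' v).card = ∑ v ∈ U'', (nb G L' v).card := sum_nb_nb _ _
    rw [hgf]
    omega
  have hWcard : (L' ∪ U'').card ≤ (S f).card + U'.card := by
    refine (card_union_le _ _).trans ?_
    rw [hL']
    exact Nat.add_le_add_left (card_le_card hU''U') _
  have hE'pos : 0 < E' := by
    rcases Nat.eq_zero_or_pos E' with h | h
    · rw [h] at hE'big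
      have : 0 < n * d := by positivity
      omega
    · exact h
  have hU'pos : 0 < U'.card := by
    rcases Nat.eq_zero_or_pos U'.card with h | h
    · rw [card_eq_zero] at h
      rw [hE', h] at hE'pos
      simp at hE'pos
    · exact h
  have hgpos : 0 < g f := by
    rcases Nat.eq_zero_or_pos (g f) with h | h
    · rw [h] at hf
      have : 0 < d * ((S f).card + U'.card) := by positivity
      omega
    · exact h
  refine ⟨L' ∪ U'', union_subset_union hL'L hU''U, ?_, ?_, ?_⟩
  · rw [nonempty_iff_ne_empty]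
    intro he
    rw [he] at hedges
    simp at hedges
    omega
  · intro v hv
    have hJd : d ≤ J * d := Nat.le_mul_of_pos_left _ (by omega)
    rcases mem_union.mp hv with hvL | hvU
    · have h1 := (card_le_card (nb_mono (union_subset_union hL'L hU''U) v)).trans
        (hLdeg v (hL'L hvL))
      have h2 : 134 * J * d = 134 * (J * d) := by ring
      omega
    · have h1 : (nb G (L' ∪ U'') v).card ≤ (nb G L' v).card + (nb G U'' v).card := by
        have : nb G (L' ∪ U'') v = nb G L' v ∪ nb G U'' v := by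
          unfold nb; rw [filter_union]
        rw [this]; exact card_union_le _ _
      have h2 : (nb G L' v).card ≤ 6 * d := by
        rw [hU'', mem_filter] at hvU
        exact hvU.2
      have h3 : (nb G U'' v).card ≤ 128 * J * d := by
        have h4 := hU''U' hvU
        rw [hU', mem_filter] at h4
        exact (card_le_card (nb_mono hU''U v)).trans h4.2
      have h5 : 134 * J * d = 134 * (J * d) := by ring
      have h6 : 128 * J * d = 128 * (J * d) := by ring
      omega
  · calc d * (L' ∪ U'').card ≤ d * ((S f).card + U'.card) := Nat.mul_le_mul_left _ hWcard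
      _ ≤ 96 * J * g f := hf
      _ = 48 * J * (2 * g f) := by ring
      _ ≤ _ := Nat.mul_le_mul_left _ hedges

end Pool.Agent.Helper286_biclique
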