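import Pool.Agent.Helper286_biclique.Unbalanced

/-!
The almost regular case: a random subset, cleaned from its four-cycles.
-/

set_option linter.unusedSectionVars false

namespace Pool.Agent.Helper286_biclique

open Finset

variable {V : Type*} [Fintype V] [DecidableEq V]

lemma sum_config {τ : Type*} (N : ℕ) [NeZero N] (T : Finset τ) (z : τ → Finset V) (r : ℕ)
    (hz : ∀ t ∈ T, (z t).card = r) :
    (∑ f : V → Fin N, (T.filter (fun t => ∀ v ∈ z t, f v = 0)).card) * N ^ r =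
      T.card * N ^ Fintype.card V := by
  classical
  have h1 : ∑ f : V → Fin N, (T.filter (fun t => ∀ v ∈ z t, f v = 0)).card =
      ∑ t ∈ T, (univ.filter (fun f : V → Fin N => ∀ v ∈ z t, f v = 0)).card := by
    simp_rw [card_filter]
    exact sum_comm
  rw [h1, sum_mul]
  calc ∑ t ∈ T, (univ.filter (fun f : V → Fin N => ∀ v ∈ z t, f v = 0)).card * N ^ r
      = ∑ _t ∈ T, N ^ Fintype.card V := by
        apply sum_congr rfl
        intro t ht
        rw [← hz t ht]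
        exact card_zero_on N (z t)
    _ = _ := by rw [sum_const, smul_eq_mul]

variable (G : SimpleGraph V) [DecidableRel G.Adj]

/-- ordered adjacent pairs in `S` -/
def EP (S : Finset V) : Finset (V × V) := (S ×ˢ S).filter (fun p => G.Adj p.1 p.2)

/-- `x, t.1, t.2.1, t.2.2` is a four-cycle -/
def IsC4 (x : V) (t : V × V × V) : Prop :=
  G.Adj x t.1 ∧ G.Adj t.1 t.2.1 ∧ G.Adj t.2.1 t.2.2 ∧ G.Adj t.2.2 x ∧ x ≠ t.2.1 ∧ t.1 ≠ t.2.2

instance (x : V) (t : V × V × V) : Decidable (IsC4 G x t) := by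
  unfold IsC4; infer_instance

/-- the four-cycles in `W` with a distinguished vertex and direction -/
def QQ (W : Finset V) : Finset (V × (V × V × V)) :=
  (W ×ˢ (W ×ˢ (W ×ˢ W))).filter (fun p => IsC4 G p.1 p.2)

/-- an ordered adjacent pair together with a four-cycle through its first vertex -/
def TT (W : Finset V) : Finset ((V × V) × (V × V × V)) :=
  (EP G W ×ˢ (W ×ˢ (W ×ˢ W))).filter (fun p => IsC4 G p.1.1 p.2)

variable {G}

lemma card_EP (S : Finset V) : (EP G S).card = ∑ v ∈ S, (nb G S v).card := by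
  classical
  unfold EP nb
  simp_rw [card_filter]
  rw [sum_product]

lemma mem_EP {S : Finset V} {p : V × V} : p ∈ EP G S ↔ p.1 ∈ S ∧ p.2 ∈ S ∧ G.Adj p.1 p.2 := by
  unfold EP
  rw [mem_filter, mem_product, and_assoc]

lemma mem_QQ {W : Finset V} {p : V × (V × V × V)} :
    p ∈ QQ G W ↔ (p.1 ∈ W ∧ p.2.1 ∈ W ∧ p.2.2.1 ∈ W ∧ p.2.2.2 ∈ W) ∧ IsC4 G p.1 p.2 := by
  unfold QQ
  rw [mem_filter, mem_product, mem_product, mem_product]

lemma mem_TT {W : Finset V} {p : (V × V) × (V × V × V)} :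
    p ∈ TT G W ↔ (p.1 ∈ EP G W ∧ p.2.1 ∈ W ∧ p.2.2.1 ∈ W ∧ p.2.2.2 ∈ W) ∧ IsC4 G p.1.1 p.2 := by
  unfold TT
  rw [mem_filter, mem_product, mem_product, mem_product]

/-- the number of paths of length two -/
lemma sum_nb_nb (W X : Finset V) : ∑ c ∈ W, (nb G X c).card = ∑ b ∈ X, (nb G W b).card := by
  unfold nb
  simp_rw [card_filter]
  rw [sum_comm]
  apply sum_congr rfl
  intro b _
  apply sum_congr rfl
  intro a _
  simp only [G.adj_comm]

/-- Few four-cycles. -/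
lemma card_QQ {s : ℕ} (hK : KFree G s) {h : ℕ} (hh : 1 ≤ h) (H : SimpleGraph (Fin h))
    (hH : H.Colorable 2) (hfree : IsEmpty (H ↪g G)) (W : Finset V) (Δ μ : ℕ) (hμ : 1 ≤ μ)
    (hΔpos : 1 ≤ Δ)
    (hup : ∀ v ∈ W, (nb G W v).card ≤ Δ) (hΔ1 : μ * yZero s h μ ≤ Δ)
    (hΔ2 : 2 * μ * nOne s h * μ ≤ Δ) :
    μ * (QQ G W).card ≤ 2 * Δ ^ 3 * W.card := by
  classical
  -- fibres
  have hfib : (QQ G W).card ≤ ∑ x ∈ W, ∑ c ∈ W, (nb G (nb G W x) c).card ^ 2 := by
    have h1 : (QQ G W).card ≤ ((W ×ˢ W).sigma (fun p : V × V =>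
        (nb G (nb G W p.1) p.2) ×ˢ (nb G (nb G W p.1) p.2))).card := by
      apply card_le_card_of_injOn (fun p => ⟨(p.1, p.2.2.1), (p.2.1, p.2.2.2)⟩)
      · intro p hp
        rw [mem_coe, mem_QQ] at hp
        obtain ⟨⟨h1, h2, h3, h4⟩, h5, h6, h7, h8, _, _⟩ := hp
        rw [mem_coe, mem_sigma, mem_product, mem_product, mem_nb, mem_nb, mem_nb, mem_nb]
        exact ⟨⟨h1, h3⟩, ⟨⟨h2, h5⟩, h6.symm⟩, ⟨⟨h4, h8.symm⟩, h7⟩⟩
      · rintro ⟨x, b, c, d⟩ _ ⟨x', b', c', d'⟩ _ heq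
        simp only [Sigma.mk.injEq, Prod.mk.injEq, heq_eq_eq] at heq
        obtain ⟨⟨h1, h2⟩, h3, h4⟩ := heq
        subst h1; subst h2; subst h3; subst h4; rfl
    rw [card_sigma, sum_product] at h1
    refine h1.trans (le_of_eq ?_)
    apply sum_congr rfl
    intro x _
    apply sum_congr rfl
    intro c _
    rw [card_product]; ring
  have hx : ∀ x ∈ W, μ * ∑ c ∈ W, (nb G (nb G W x) c).card ^ 2 ≤ 2 * Δ ^ 3 := by
    intro x hxW
    obtain ⟨X, hX⟩ : ∃ X, X = nb G W x := ⟨_, rfl⟩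
    rw [← hX]
    have hXΔ : X.card ≤ Δ := by rw [hX]; exact hup x hxW
    have hXW : X ⊆ W := by rw [hX]; exact nb_subset _ _
    set Y := W.filter (fun c => Δ ≤ μ * (nb G X c).card) with hY
    have hYcard : μ * Y.card ≤ Δ := by
      rcases Y.eq_empty_or_nonempty with he | ⟨c, hc⟩
      · rw [he]; simp
      · have h1 : Δ ≤ μ * X.card := by
          have h2 := (mem_filter.mp hc).2
          exact h2.trans (Nat.mul_le_mul_left _ (card_le_card (nb_subset _ _)))
        have h3 : 2 * μ * nOne s h ≤ X.card := by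
          have h4 : 2 * μ * nOne s h * μ ≤ X.card * μ := by
            rw [mul_comm X.card μ]; exact hΔ2.trans h1
          exact Nat.le_of_mul_le_mul_right h4 (by omega)
        have h5 : 0 < X.card := by
          rcases Nat.eq_zero_or_pos X.card with h | h
          · rw [h] at h1; omega
          · exact h
        have h6 := kst_induced hK hh H hH hfree μ hμ X Y h3 h5 (by
          calc X.card * Y.card ≤ Δ * Y.card := Nat.mul_le_mul_right _ hXΔ
            _ = ∑ _y ∈ Y, Δ := by rw [sum_const, smul_eq_mul, mul_comm]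
            _ ≤ ∑ y ∈ Y, μ * (nb G X y).card := sum_le_sum (fun y hy => (mem_filter.mp hy).2)
            _ = _ := by rw [mul_sum])
        exact (Nat.mul_le_mul_left _ h6).trans hΔ1
    have hsplit : ∑ c ∈ W, (nb G X c).card ^ 2 = ∑ c ∈ Y, (nb G X c).card ^ 2 +
        ∑ c ∈ W.filter (fun c => ¬ Δ ≤ μ * (nb G X c).card), (nb G X c).card ^ 2 := by
      rw [hY, sum_filter_add_sum_filter_not]
    have h1 : ∑ c ∈ Y, (nb G X c).card ^ 2 ≤ Y.card * Δ ^ 2 := by
      calc ∑ c ∈ Y, (nb G X c).card ^ 2 ≤ ∑ _c ∈ Y, Δ ^ 2 := by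
            apply sum_le_sum
            intro c _
            exact Nat.pow_le_pow_left ((card_le_card (nb_subset _ _)).trans hXΔ) 2
        _ = _ := by rw [sum_const, smul_eq_mul]
    have h2 : μ * ∑ c ∈ W.filter (fun c => ¬ Δ ≤ μ * (nb G X c).card), (nb G X c).card ^ 2 ≤
        Δ ^ 3 := by
      rw [mul_sum]
      calc ∑ c ∈ W.filter (fun c => ¬ Δ ≤ μ * (nb G X c).card), μ * (nb G X c).card ^ 2
          ≤ ∑ c ∈ W.filter (fun c => ¬ Δ ≤ μ * (nb G X c).card), Δ * (nb G X c).card := by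
            apply sum_le_sum
            intro c hc
            have h3 := (mem_filter.mp hc).2
            push Not at h3
            calc μ * (nb G X c).card ^ 2 = (μ * (nb G X c).card) * (nb G X c).card := by ring
              _ ≤ Δ * (nb G X c).card := Nat.mul_le_mul_right _ h3.le
        _ ≤ ∑ c ∈ W, Δ * (nb G X c).card :=
            sum_le_sum_of_subset_of_nonneg (filter_subset _ _) (fun _ _ _ => Nat.zero_le _)
        _ = Δ * ∑ b ∈ X, (nb G W b).card := by rw [← mul_sum, sum_nb_nb]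
        _ ≤ Δ * ∑ _b ∈ X, Δ := by
            apply Nat.mul_le_mul_left
            exact sum_le_sum (fun b hb => hup b (hXW hb))
        _ = Δ * (X.card * Δ) := by rw [sum_const, smul_eq_mul]
        _ ≤ Δ * (Δ * Δ) := Nat.mul_le_mul_left _ (Nat.mul_le_mul_right _ hXΔ)
        _ = Δ ^ 3 := by ring
    calc μ * ∑ c ∈ W, (nb G X c).card ^ 2
        = μ * ∑ c ∈ Y, (nb G X c).card ^ 2 + μ *
          ∑ c ∈ W.filter (fun c => ¬ Δ ≤ μ * (nb G X c).card), (nb G X c).card ^ 2 := by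
          rw [hsplit]; ring
      _ ≤ μ * (Y.card * Δ ^ 2) + Δ ^ 3 := Nat.add_le_add (Nat.mul_le_mul_left _ h1) h2
      _ = (μ * Y.card) * Δ ^ 2 + Δ ^ 3 := by ring
      _ ≤ Δ * Δ ^ 2 + Δ ^ 3 := Nat.add_le_add_right (Nat.mul_le_mul_right _ hYcard) _
      _ = 2 * Δ ^ 3 := by ring
  calc μ * (QQ G W).card ≤ μ * ∑ x ∈ W, ∑ c ∈ W, (nb G (nb G W x) c).card ^ 2 :=
        Nat.mul_le_mul_left _ hfib
    _ = ∑ x ∈ W, μ * ∑ c ∈ W, (nb G (nb G W x) c).card ^ 2 := by rw [mul_sum]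
    _ ≤ ∑ _x ∈ W, 2 * Δ ^ 3 := sum_le_sum hx
    _ = 2 * Δ ^ 3 * W.card := by rw [sum_const, smul_eq_mul, mul_comm]

lemma card_TT (W : Finset V) (Δ : ℕ) (hup : ∀ v ∈ W, (nb G W v).card ≤ Δ) :
    (TT G W).card ≤ Δ * (QQ G W).card := by
  classical
  have himg : (TT G W).image (fun p => (p.1.1, p.2)) ⊆ QQ G W := by
    intro q hq
    obtain ⟨p, hp, rfl⟩ := mem_image.mp hq
    rw [mem_TT, mem_EP] at hp
    rw [mem_QQ]
    exact ⟨⟨hp.1.1.1, hp.1.2⟩, hp.2⟩
  refine (card_le_mul_card_image (f := fun (p : (V × V) × (V × V × V)) => (p.1.1, p.2))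
    (TT G W) Δ ?_).trans (Nat.mul_le_mul_left _ (card_le_card himg))
  rintro ⟨x, t⟩ hq
  obtain ⟨p, hp, hpq⟩ := mem_image.mp hq
  rw [mem_TT, mem_EP] at hp
  have hxW : x ∈ W := by
    have : p.1.1 = x := congrArg Prod.fst hpq
    rw [← this]; exact hp.1.1.1
  refine le_trans ?_ (hup x hxW)
  apply card_le_card_of_injOn (fun p => p.1.2)
  · intro p hp
    rw [mem_coe, mem_filter, mem_TT, mem_EP] at hp
    have h1 : p.1.1 = x := congrArg Prod.fst hp.2
    rw [mem_coe, mem_nb]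
    refine ⟨hp.1.1.1.2.1, ?_⟩
    rw [← h1]; exact hp.1.1.1.2.2
  · intro p hp q hq hpq'
    rw [mem_coe, mem_filter] at hp hq
    have h1 := hp.2.trans hq.2.symm
    simp only [Prod.mk.injEq] at h1
    exact Prod.ext (Prod.ext h1.1 hpq') h1.2

lemma card_TT4 (W : Finset V) :
    ((TT G W).filter (fun p => p.1.2 = p.2.1 ∨ p.1.2 = p.2.2.1 ∨ p.1.2 = p.2.2.2)).card ≤
      3 * (QQ G W).card := by
  classical
  set T4 := (TT G W).filter (fun p => p.1.2 = p.2.1 ∨ p.1.2 = p.2.2.1 ∨ p.1.2 = p.2.2.2) with hT4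
  have himg : T4.image (fun p => (p.1.1, p.2)) ⊆ QQ G W := by
    intro q hq
    obtain ⟨p, hp, rfl⟩ := mem_image.mp hq
    rw [hT4, mem_filter, mem_TT, mem_EP] at hp
    rw [mem_QQ]
    exact ⟨⟨hp.1.1.1.1, hp.1.1.2⟩, hp.1.2⟩
  refine (card_le_mul_card_image (f := fun (p : (V × V) × (V × V × V)) => (p.1.1, p.2))
    T4 3 ?_).trans (Nat.mul_le_mul_left _ (card_le_card himg))
  rintro ⟨x, t⟩ _
  have h1 : (T4.filter (fun p => (p.1.1, p.2) = (x, t))).card ≤
      ({t.1, t.2.1, t.2.2} : Finset V).card := by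
    apply card_le_card_of_injOn (fun p => p.1.2)
    · intro p hp
      rw [mem_coe, mem_filter, hT4, mem_filter] at hp
      have h2 : p.2 = t := congrArg Prod.snd hp.2
      have h3 := hp.1.2
      rw [h2] at h3
      rw [mem_coe]
      simp only [mem_insert, mem_singleton]
      exact h3
    · intro p hp q hq hpq'
      rw [mem_coe, mem_filter] at hp hq
      have h1 := hp.2.trans hq.2.symm
      simp only [Prod.mk.injEq] at h1
      exact Prod.ext (Prod.ext h1.1 hpq') h1.2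
  exact h1.trans card_le_three

/-- Edges lost by deleting all vertices on four-cycles. -/
lemma clean_edges (W S : Finset V) (hSW : S ⊆ W) :
    ∃ S' ⊆ S, C4F G S' ∧ (EP G S).card ≤ (EP G S').card +
      2 * ((TT G W).filter (fun p => p.1.1 ∈ S ∧ p.1.2 ∈ S ∧ p.2.1 ∈ S ∧ p.2.2.1 ∈ S ∧
        p.2.2.2 ∈ S)).card := by
  classical
  set S' := S.filter (fun x => ¬ ∃ t : V × V × V, t.1 ∈ S ∧ t.2.1 ∈ S ∧ t.2.2 ∈ S ∧ IsC4 G x t)
    with hS'
  refine ⟨S', filter_subset _ _, ?_, ?_⟩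
  · intro a ha b hb c hc d hd hab hbc hcd hda
    by_contra hcon
    push Not at hcon
    rw [hS', mem_filter] at ha hb hc hd
    exact ha.2 ⟨(b, c, d), hb.1, hc.1, hd.1, hab, hbc, hcd, hda, hcon.1, hcon.2⟩
  · set BadF := (TT G W).filter (fun p => p.1.1 ∈ S ∧ p.1.2 ∈ S ∧ p.2.1 ∈ S ∧ p.2.2.1 ∈ S ∧
        p.2.2.2 ∈ S) with hBadF
    set E1 := (EP G S).filter (fun p => p.1 ∉ S') with hE1
    set E2 := (EP G S).filter (fun p => p.2 ∉ S') with hE2
    have hcov : EP G S ⊆ EP G S' ∪ (E1 ∪ E2) := by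
      intro p hp
      rw [mem_union, mem_union]
      by_cases h1 : p.1 ∈ S'
      · by_cases h2 : p.2 ∈ S'
        · left
          rw [mem_EP]
          exact ⟨h1, h2, (mem_EP.mp hp).2.2⟩
        · right; right
          rw [hE2, mem_filter]; exact ⟨hp, h2⟩
      · right; left
        rw [hE1, mem_filter]; exact ⟨hp, h1⟩
    have hE1card : E1.card ≤ BadF.card := by
      have h1 : E1 ⊆ BadF.image (fun p => p.1) := by
        intro p hp
        rw [hE1, mem_filter] at hp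
        obtain ⟨hp1, hp2⟩ := hp
        rw [mem_EP] at hp1
        have h2 : ∃ t : V × V × V, t.1 ∈ S ∧ t.2.1 ∈ S ∧ t.2.2 ∈ S ∧ IsC4 G p.1 t := by
          by_contra hcon
          exact hp2 (by rw [hS', mem_filter]; exact ⟨hp1.1, hcon⟩)
        obtain ⟨t, ht1, ht2, ht3, ht4⟩ := h2
        rw [mem_image]
        refine ⟨(p, t), ?_, rfl⟩
        rw [hBadF, mem_filter, mem_TT, mem_EP]
        exact ⟨⟨⟨⟨hSW hp1.1, hSW hp1.2.1, hp1.2.2⟩, hSW ht1, hSW ht2, hSW ht3⟩, ht4⟩,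
          hp1.1, hp1.2.1, ht1, ht2, ht3⟩
      exact (card_le_card h1).trans card_image_le
    have hE2card : E2.card ≤ E1.card := by
      apply card_le_card_of_injOn Prod.swap
      · intro p hp
        rw [mem_coe, hE2, mem_filter, mem_EP] at hp
        rw [mem_coe, hE1, mem_filter, mem_EP]
        exact ⟨⟨hp.1.2.1, hp.1.1, hp.1.2.2.symm⟩, hp.2⟩
      · intro p _ q _ h
        exact Prod.swap_injective h
    have h3 := (card_le_card hcov).trans (card_union_le _ _)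
    have h4 := card_union_le E1 E2
    omega

/-- The almost regular case. -/
theorem regular_case {s : ℕ} (hK : KFree G s) {h : ℕ} (hh : 1 ≤ h) (H : SimpleGraph (Fin h))
    (hH : H.Colorable 2) (hfree : IsEmpty (H ↪g G)) (W : Finset V) (hW : W.Nonempty)
    (Δ l ν μ k : ℕ) (hk : 1 ≤ k) (hl : 1 ≤ l) (hup : ∀ v ∈ W, (nb G W v).card ≤ Δ)
    (hlow : Δ * W.card ≤ l * ∑ v ∈ W, (nb G W v).card) (hν : ν = 4 * l * k)
    (hμ : μ = 48 * l * ν ^ 3) (hΔ0 : ν ≤ Δ) (hΔ1 : μ * yZero s h μ ≤ Δ)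
    (hΔ2 : 2 * μ * nOne s h * μ ≤ Δ) :
    ∃ X : Finset V, X.Nonempty ∧ C4F G X ∧ k * X.card ≤ ∑ v ∈ X, (nb G X v).card := by
  classical
  have hνpos : 1 ≤ ν := by
    rw [hν]
    have : 0 < 4 * l * k := by positivity
    exact this
  have hμpos : 1 ≤ μ := by
    rw [hμ]
    have : 0 < 48 * l * ν ^ 3 := by positivity
    exact this
  have hΔpos : 1 ≤ Δ := hνpos.trans hΔ0
  have hQ := card_QQ hK hh H hH hfree W Δ μ hμpos hΔpos hup hΔ1 hΔ2
  have hT := card_TT W Δ hup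
  have hT4 := card_TT4 (G := G) W
  rw [← card_EP] at hlow
  -- the parameter `N`
  obtain ⟨N, hN⟩ : ∃ N, N = Δ / ν + 1 := ⟨_, rfl⟩
  have hN1 : Δ < ν * N := by
    rw [hN]
    have := Nat.lt_mul_div_succ Δ (show 0 < ν by omega)
    exact this
  have hN2 : ν * N ≤ 2 * Δ := by
    rw [hN, mul_add, mul_one]
    have := Nat.mul_div_le Δ ν
    omega
  have hNpos : 1 ≤ N := by rw [hN]; exact Nat.le_add_left 1 _
  have : NeZero N := ⟨by omega⟩
  set n := Fintype.card V with hn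
  -- the sums
  set S : (V → Fin N) → Finset V := fun f => W.filter (fun v => f v = 0) with hS
  have ha : (∑ f : V → Fin N, (S f).card) * N ^ 1 = W.card * N ^ n := by
    rw [← sum_config N W (fun v => {v}) 1 (fun _ _ => card_singleton _)]
    congr 1
    apply sum_congr rfl
    intro f _
    congr 1
    apply filter_congr
    intro v _
    simp
  have hb : (∑ f : V → Fin N, (EP G (S f)).card) * N ^ 2 = (EP G W).card * N ^ n := by
    rw [← sum_config N (EP G W) (fun p => {p.1, p.2}) 2 (by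
      intro p hp
      rw [mem_EP] at hp
      exact card_pair hp.2.2.ne)]
    congr 1
    apply sum_congr rfl
    intro f _
    congr 1
    ext p
    simp only [mem_EP, mem_filter, hS, mem_insert, mem_singleton, forall_eq_or_imp, forall_eq]
    tauto
  set z : (V × V) × (V × V × V) → Finset V :=
    fun p => {p.1.1, p.1.2, p.2.1, p.2.2.1, p.2.2.2} with hz
  set T4 := (TT G W).filter (fun p => p.1.2 = p.2.1 ∨ p.1.2 = p.2.2.1 ∨ p.1.2 = p.2.2.2) with hT4def
  set T5 := (TT G W).filter (fun p => ¬ (p.1.2 = p.2.1 ∨ p.1.2 = p.2.2.1 ∨ p.1.2 = p.2.2.2))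
    with hT5def
  have hdist : ∀ p ∈ TT G W, p.1.1 ≠ p.1.2 ∧ p.1.1 ≠ p.2.1 ∧ p.1.1 ≠ p.2.2.1 ∧ p.1.1 ≠ p.2.2.2 ∧
      p.2.1 ≠ p.2.2.1 ∧ p.2.1 ≠ p.2.2.2 ∧ p.2.2.1 ≠ p.2.2.2 := by
    intro p hp
    rw [mem_TT, mem_EP] at hp
    obtain ⟨⟨⟨_, _, h0⟩, _⟩, h1, h2, h3, h4, h5, h6⟩ := hp
    exact ⟨h0.ne, h1.ne, h5, h4.ne.symm, h2.ne, h6, h3.ne⟩
  have hz5 : ∀ p ∈ T5, (z p).card = 5 := by
    intro p hp
    rw [hT5def, mem_filter] at hp
    obtain ⟨h1, h2⟩ := hp
    obtain ⟨d1, d2, d3, d4, d5, d6, d7⟩ := hdist p h1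
    push Not at h2
    obtain ⟨e1, e2, e3⟩ := h2
    simp only [hz]
    rw [card_insert_of_notMem, card_insert_of_notMem, card_insert_of_notMem, card_pair d7]
    · simp only [mem_insert, mem_singleton, not_or]; exact ⟨d5, d6⟩
    · simp only [mem_insert, mem_singleton, not_or]; exact ⟨e1, e2, e3⟩
    · simp only [mem_insert, mem_singleton, not_or]; exact ⟨d1, d2, d3, d4⟩
  have hz4 : ∀ p ∈ T4, (z p).card = 4 := by
    intro p hp
    rw [hT4def, mem_filter] at hp
    obtain ⟨h1, h2⟩ := hp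
    obtain ⟨d1, d2, d3, d4, d5, d6, d7⟩ := hdist p h1
    have hz' : z p = {p.1.1, p.2.1, p.2.2.1, p.2.2.2} := by
      simp only [hz]
      ext v
      simp only [mem_insert, mem_singleton]
      rcases h2 with h | h | h <;> rw [h] <;> tauto
    rw [hz', card_insert_of_notMem, card_insert_of_notMem, card_pair d7]
    · simp only [mem_insert, mem_singleton, not_or]; exact ⟨d5, d6⟩
    · simp only [mem_insert, mem_singleton, not_or]; exact ⟨d2, d3, d4⟩
  have hc5 := sum_config N T5 z 5 hz5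
  have hc4 := sum_config N T4 z 4 hz4
  set Bad : (V → Fin N) → ℕ := fun f => ((TT G W).filter (fun p => p.1.1 ∈ S f ∧ p.1.2 ∈ S f ∧
    p.2.1 ∈ S f ∧ p.2.2.1 ∈ S f ∧ p.2.2.2 ∈ S f)).card with hBad
  have hBadle : ∀ f, Bad f ≤ (T5.filter (fun t => ∀ v ∈ z t, f v = 0)).card +
      (T4.filter (fun t => ∀ v ∈ z t, f v = 0)).card := by
    intro f
    simp only [hBad]
    refine le_trans (card_le_card ?_) (card_union_le _ _)
    intro p hp
    rw [mem_filter] at hp
    obtain ⟨hp0, hp1, hp2, hp3, hp4, hp5⟩ := hp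
    have hall : ∀ v ∈ z p, f v = 0 := by
      simp only [hS, mem_filter] at hp1 hp2 hp3 hp4 hp5
      simp only [hz, mem_insert, mem_singleton, forall_eq_or_imp, forall_eq]
      exact ⟨hp1.2, hp2.2, hp3.2, hp4.2, hp5.2⟩
    rw [mem_union]
    by_cases h : p.1.2 = p.2.1 ∨ p.1.2 = p.2.2.1 ∨ p.1.2 = p.2.2.2
    · right
      have h4 : p ∈ T4 := mem_filter.mpr ⟨hp0, h⟩
      exact mem_filter.mpr ⟨h4, hall⟩
    · left
      have h5 : p ∈ T5 := mem_filter.mpr ⟨hp0, h⟩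
      exact mem_filter.mpr ⟨h5, hall⟩
  have hBadsum : (∑ f : V → Fin N, Bad f) * N ^ 5 ≤ (Δ + 3 * N) * (QQ G W).card * N ^ n := by
    calc (∑ f : V → Fin N, Bad f) * N ^ 5
        ≤ (∑ f : V → Fin N, ((T5.filter (fun t => ∀ v ∈ z t, f v = 0)).card +
          (T4.filter (fun t => ∀ v ∈ z t, f v = 0)).card)) * N ^ 5 :=
          Nat.mul_le_mul_right _ (sum_le_sum (fun f _ => hBadle f))
      _ = (∑ f : V → Fin N, (T5.filter (fun t => ∀ v ∈ z t, f v = 0)).card) * N ^ 5 +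
          ((∑ f : V → Fin N, (T4.filter (fun t => ∀ v ∈ z t, f v = 0)).card) * N ^ 4) * N := by
          rw [sum_add_distrib]; ring
      _ = T5.card * N ^ n + T4.card * N ^ n * N := by rw [hc5, hc4]
      _ ≤ (Δ * (QQ G W).card) * N ^ n + (3 * (QQ G W).card) * N ^ n * N := by
          apply Nat.add_le_add
          · exact Nat.mul_le_mul_right _ ((card_filter_le _ _).trans hT)
          · exact Nat.mul_le_mul_right _ (Nat.mul_le_mul_right _ hT4)
      _ = _ := by ring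
  -- a good function
  have hex : ∃ f : V → Fin N, k * (S f).card + 2 * Bad f < (EP G (S f)).card := by
    by_contra hcon
    push Not at hcon
    have h1 : ∑ f : V → Fin N, (EP G (S f)).card ≤
        k * (∑ f : V → Fin N, (S f).card) + 2 * ∑ f : V → Fin N, Bad f := by
      calc ∑ f : V → Fin N, (EP G (S f)).card
          ≤ ∑ f : V → Fin N, (k * (S f).card + 2 * Bad f) := sum_le_sum (fun f _ => hcon f)
        _ = _ := by rw [sum_add_distrib, ← mul_sum, ← mul_sum]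
    set A1 := ∑ f : V → Fin N, (S f).card
    set A2 := ∑ f : V → Fin N, (EP G (S f)).card
    set A3 := ∑ f : V → Fin N, Bad f
    set w := W.card with hw
    have hwpos : 0 < w := card_pos.mpr hW
    have hNn : 0 < N ^ n := Nat.pow_pos (by omega)
    -- multiply out
    have h2 : μ * N ^ 3 * ((EP G W).card * N ^ n) ≤
        k * μ * N ^ 4 * (w * N ^ n) + 2 * ((Δ + 3 * N) * (2 * Δ ^ 3 * w) * N ^ n) := by
      calc μ * N ^ 3 * ((EP G W).card * N ^ n) = μ * N ^ 5 * A2 := by rw [← hb]; ring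
        _ ≤ μ * N ^ 5 * (k * A1 + 2 * A3) := Nat.mul_le_mul_left _ h1
        _ = k * μ * N ^ 4 * (A1 * N ^ 1) + 2 * (μ * (A3 * N ^ 5)) := by ring
        _ ≤ k * μ * N ^ 4 * (w * N ^ n) +
            2 * (μ * ((Δ + 3 * N) * (QQ G W).card * N ^ n)) := by
            rw [ha]
            exact Nat.add_le_add_left (Nat.mul_le_mul_left _ (Nat.mul_le_mul_left _ hBadsum)) _
        _ = k * μ * N ^ 4 * (w * N ^ n) +
            2 * ((Δ + 3 * N) * (μ * (QQ G W).card) * N ^ n) := by ring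
        _ ≤ _ := by
            apply Nat.add_le_add_left
            apply Nat.mul_le_mul_left
            apply Nat.mul_le_mul_right
            exact Nat.mul_le_mul_left _ hQ
    have h3 : μ * N ^ 3 * (EP G W).card ≤
        k * μ * N ^ 4 * w + 4 * (Δ + 3 * N) * Δ ^ 3 * w := by
      have : (μ * N ^ 3 * (EP G W).card) * N ^ n ≤
          (k * μ * N ^ 4 * w + 4 * (Δ + 3 * N) * Δ ^ 3 * w) * N ^ n := by
        calc (μ * N ^ 3 * (EP G W).card) * N ^ n = μ * N ^ 3 * ((EP G W).card * N ^ n) := by ring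
          _ ≤ _ := h2
          _ = _ := by ring
      exact Nat.le_of_mul_le_mul_right this hNn
    have h4 : μ * N ^ 3 * Δ ≤ l * (k * μ * N ^ 4 + 4 * (Δ + 3 * N) * Δ ^ 3) := by
      have : (μ * N ^ 3 * Δ) * w ≤ (l * (k * μ * N ^ 4 + 4 * (Δ + 3 * N) * Δ ^ 3)) * w := by
        calc (μ * N ^ 3 * Δ) * w = μ * N ^ 3 * (Δ * w) := by ring
          _ ≤ μ * N ^ 3 * (l * (EP G W).card) := Nat.mul_le_mul_left _ hlow
          _ = l * (μ * N ^ 3 * (EP G W).card) := by ring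
          _ ≤ l * (k * μ * N ^ 4 * w + 4 * (Δ + 3 * N) * Δ ^ 3 * w) := Nat.mul_le_mul_left _ h3
          _ = _ := by ring
      exact Nat.le_of_mul_le_mul_right this hwpos
    -- numerical contradiction
    have p1 : 2 * (l * k * μ * N ^ 4) ≤ μ * N ^ 3 * Δ := by
      have h5 : 2 * (l * k * N) ≤ Δ := by
        have : 2 * (2 * (l * k * N)) ≤ 2 * Δ := by
          calc 2 * (2 * (l * k * N)) = ν * N := by rw [hν]; ring
            _ ≤ _ := hN2
        omega
      calc 2 * (l * k * μ * N ^ 4) = μ * N ^ 3 * (2 * (l * k * N)) := by ring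
        _ ≤ μ * N ^ 3 * Δ := Nat.mul_le_mul_left _ h5
    have p2 : 12 * (4 * l * Δ ^ 4) ≤ μ * N ^ 3 * Δ := by
      have h5 : Δ ^ 3 ≤ (ν * N) ^ 3 := Nat.pow_le_pow_left hN1.le 3
      calc 12 * (4 * l * Δ ^ 4) = 48 * l * Δ * Δ ^ 3 := by ring
        _ ≤ 48 * l * Δ * (ν * N) ^ 3 := Nat.mul_le_mul_left _ h5
        _ = μ * N ^ 3 * Δ := by rw [hμ]; ring
    have p3 : 4 * (12 * l * N * Δ ^ 3) ≤ μ * N ^ 3 * Δ := by
      have h5 : Δ ^ 2 ≤ (ν * N) ^ 2 := Nat.pow_le_pow_left hN1.le 2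
      calc 4 * (12 * l * N * Δ ^ 3) = 48 * l * N * Δ * 1 * Δ ^ 2 := by ring
        _ ≤ 48 * l * N * Δ * ν * (ν * N) ^ 2 := by
            apply Nat.mul_le_mul _ h5
            exact Nat.mul_le_mul_left _ hνpos
        _ = μ * N ^ 3 * Δ := by rw [hμ]; ring
    have p4 : 0 < μ * N ^ 3 * Δ := by positivity
    have h6 : l * (k * μ * N ^ 4 + 4 * (Δ + 3 * N) * Δ ^ 3) =
        l * k * μ * N ^ 4 + 4 * l * Δ ^ 4 + 12 * l * N * Δ ^ 3 := by ring
    rw [h6] at h4
    omega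
  obtain ⟨f, hf⟩ := hex
  obtain ⟨S', hS'sub, hS'C4, hS'card⟩ := clean_edges (G := G) W (S f) (filter_subset _ _)
  have hgt : k * (S f).card < (EP G S').card := by
    have : (EP G (S f)).card ≤ (EP G S').card + 2 * Bad f := hS'card
    omega
  refine ⟨S', ?_, hS'C4, ?_⟩
  · rw [nonempty_iff_ne_empty]
    intro he
    have : (EP G S').card = 0 := by
      rw [he]; unfold EP; simp
    omega
  · rw [← card_EP]
    exact (Nat.mul_le_mul_left _ (card_le_card hS'sub)).trans hgt.le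

end Pool.Agent.Helper286_biclique
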