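import Pool.Agent.Helper286_biclique.Pattern

/-!
In a graph without `K_{s,s}` and without an induced copy of the bipartite graph `H` on `Fin h`,
few independent `h`-tuples of any set have many common neighbours.
-/

set_option linter.unusedSectionVars false

namespace Pool.Agent.Helper286_biclique

open Finset

variable {V : Type*} [Fintype V] [DecidableEq V] {G : SimpleGraph V} [DecidableRel G.Adj]

/-- the threshold for rich tuples -/
def theta (s h : ℕ) : ℕ := (2 * s) ^ h * ((4 * s) ^ h + h)

/-- the bound for the number of bad tuples -/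
def bad1 (s h : ℕ) : ℕ := 4 ^ h * h * s

lemma cell_congr {h : ℕ} (Y : Finset V) {T T' : Fin h → V} {P R : Finset (Fin h)}
    (hP : ∀ i ∈ P, T i = T' i) (hR : ∀ i ∈ R, T i = T' i) : cell G Y T P R = cell G Y T' P R := by
  ext y
  rw [mem_cell, mem_cell]
  constructor
  · rintro ⟨h1, h2, h3⟩
    exact ⟨h1, fun i hi => hP i hi ▸ h2 i hi, fun i hi => hR i hi ▸ h3 i hi⟩
  · rintro ⟨h1, h2, h3⟩
    exact ⟨h1, fun i hi => (hP i hi).symm ▸ h2 i hi, fun i hi => (hR i hi).symm ▸ h3 i hi⟩

lemma cell_insert {h : ℕ} (Y : Finset V) (T : Fin h → V) (P R : Finset (Fin h)) (j : Fin h) :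
    cell G Y T P (insert j R) = (cell G Y T P R).filter (fun u => ¬ G.Adj (T j) u) := by
  ext y
  rw [mem_filter, mem_cell, mem_cell]
  simp only [mem_insert, forall_eq_or_imp]
  tauto

lemma card_piFinset_const_off {h : ℕ} (U : Finset V) (j : Fin h) (u0 : V) :
    (Fintype.piFinset (fun i : Fin h => if i = j then {u0} else U)).card = U.card ^ (h - 1) := by
  rw [Fintype.card_piFinset]
  have h1 : ∀ i : Fin h, ((if i = j then {u0} else U) : Finset V).card
      = if i = j then 1 else U.card := by
    intro i; by_cases hi : i = j <;> simp [hi]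
  simp_rw [h1]
  rw [prod_ite]
  simp only [prod_const_one, one_mul, prod_const]
  congr 1
  rw [filter_not, filter_eq' univ j, if_pos (mem_univ j), card_sdiff_of_subset (by simp)]
  simp

/-- For fixed `P, R, j` few tuples have a last coordinate `T j` that is adjacent to almost all of
the cell of `P, R`. -/
lemma card_exc_tuples {s : ℕ} (hK : KFree G s) {h : ℕ} (U Y : Finset V) (P R : Finset (Fin h))
    (j : Fin h) (hjP : j ∉ P) (hjR : j ∉ R) :
    ((Fintype.piFinset (fun _ : Fin h => U)).filter (fun T =>
      2 * s ≤ (cell G Y T P R).card ∧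
      2 * s * (cell G Y T P (insert j R)).card < (cell G Y T P R).card)).card
      ≤ s * U.card ^ (h - 1) := by
  set F := (Fintype.piFinset (fun _ : Fin h => U)).filter (fun T =>
      2 * s ≤ (cell G Y T P R).card ∧
      2 * s * (cell G Y T P (insert j R)).card < (cell G Y T P R).card) with hF
  rcases U.eq_empty_or_nonempty with hU | ⟨u0, hu0⟩
  · have : F = ∅ := by
      rw [eq_empty_iff_forall_notMem]
      intro T hT
      rw [hF, mem_filter, Fintype.mem_piFinset] at hT
      have := hT.1 j
      rw [hU] at this
      exact absurd this (notMem_empty _)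
    rw [this]; simp
  · have himg : F.image (fun T => Function.update T j u0) ⊆
        Fintype.piFinset (fun i : Fin h => if i = j then {u0} else U) := by
      intro T' hT'
      rw [mem_image] at hT'
      obtain ⟨T, hT, rfl⟩ := hT'
      rw [hF, mem_filter, Fintype.mem_piFinset] at hT
      rw [Fintype.mem_piFinset]
      intro i
      by_cases hi : i = j
      · subst hi; simp
      · rw [Function.update_of_ne hi, if_neg hi]; exact hT.1 i
    have hcardimg := card_le_card himg
    rw [card_piFinset_const_off] at hcardimg
    refine (card_le_mul_card_image (s := F) (f := fun T => Function.update T j u0) s ?_).trans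
      (Nat.mul_le_mul_left _ hcardimg)
    intro T' hT'
    set cl := cell G Y T' P R with hcl
    -- fibre over `T'`
    have hfib : (F.filter (fun T => Function.update T j u0 = T')).card ≤
        (univ.filter (fun v => 2 * s * (cl.filter (fun u => ¬ G.Adj v u)).card < cl.card)).card := by
      apply card_le_card_of_injOn (fun T => T j)
      · intro T hT
        rw [mem_coe, mem_filter, hF, mem_filter] at hT
        obtain ⟨⟨_, h2, h3⟩, h4⟩ := hT
        have hag : ∀ i, i ≠ j → T i = T' i := by
          intro i hi; rw [← h4, Function.update_of_ne hi]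
        have hceq : cell G Y T P R = cl := by
          rw [hcl]
          exact cell_congr Y (fun i hi => hag i (fun h => hjP (h ▸ hi)))
            (fun i hi => hag i (fun h => hjR (h ▸ hi)))
        rw [cell_insert, hceq] at h3
        rw [mem_coe, mem_filter]
        exact ⟨mem_univ _, h3⟩
      · intro T hT S hS hTS
        rw [mem_coe, mem_filter] at hT hS
        have h1 := hT.2
        have h2 := hS.2
        funext i
        by_cases hi : i = j
        · subst hi; exact hTS
        · have := congrFun (h1.trans h2.symm) i
          rwa [Function.update_of_ne hi, Function.update_of_ne hi] at this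
    rcases (F.filter (fun T => Function.update T j u0 = T')).eq_empty_or_nonempty with he | ⟨T, hT⟩
    · rw [he]; simp
    · refine hfib.trans (exc_card_lt hK cl ?_).le
      rw [mem_filter, hF, mem_filter] at hT
      obtain ⟨⟨_, h2, _⟩, h4⟩ := hT
      have hag : ∀ i, i ≠ j → T i = T' i := by
        intro i hi; rw [← h4, Function.update_of_ne hi]
      have hceq : cell G Y T P R = cl := by
        rw [hcl]
        exact cell_congr Y (fun i hi => hag i (fun h => hjP (h ▸ hi)))
          (fun i hi => hag i (fun h => hjR (h ▸ hi)))
      rw [← hceq]; exact h2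

/-- Few independent tuples of a set `U` are rich with respect to `Y`. -/
lemma card_rich_tuples {s : ℕ} (hK : KFree G s) {h : ℕ} (H : SimpleGraph (Fin h))
    (hH : H.Colorable 2) (hfree : IsEmpty (H ↪g G)) (U Y : Finset V) :
    ((indepT G h U).filter (fun T => theta s h ≤ (cell G Y T univ ∅).card)).card
      ≤ bad1 s h * U.card ^ (h - 1) := by
  classical
  have hs := hK.pos
  set I : Finset (Finset (Fin h) × Finset (Fin h) × Fin h) :=
    (univ ×ˢ univ ×ˢ univ).filter (fun p => p.2.2 ∉ p.1 ∧ p.2.2 ∉ p.2.1) with hI
  set E : Finset (Fin h) × Finset (Fin h) × Fin h → Finset (Fin h → V) := fun p =>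
    (Fintype.piFinset (fun _ : Fin h => U)).filter (fun T =>
      2 * s ≤ (cell G Y T p.1 p.2.1).card ∧
      2 * s * (cell G Y T p.1 (insert p.2.2 p.2.1)).card < (cell G Y T p.1 p.2.1).card) with hE
  have hcov : (indepT G h U).filter (fun T => theta s h ≤ (cell G Y T univ ∅).card) ⊆
      I.biUnion E := by
    intro T hT
    rw [mem_filter, mem_indepT] at hT
    obtain ⟨⟨hTU, hT1, hT2⟩, hrich⟩ := hT
    by_contra hcon
    rw [mem_biUnion] at hcon
    push Not at hcon
    have hstep : ∀ P R : Finset (Fin h), ∀ j, j ∉ P → j ∉ R → 2 * s ≤ (cell G Y T P R).card →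
        (cell G Y T P R).card ≤ 2 * s * (cell G Y T P (insert j R)).card := by
      intro P R j hjP hjR h2
      by_contra hlt
      push Not at hlt
      apply hcon (P, R, j)
      · rw [hI, mem_filter]; exact ⟨by simp, hjP, hjR⟩
      · rw [hE, mem_filter, Fintype.mem_piFinset]
        exact ⟨hTU, h2, hlt⟩
    apply hfree.false
    refine (exists_embedding hK H hH Y T hT1 hT2 ?_).some
    intro S
    have hmain : ∀ R : Finset (Fin h), R ⊆ Sᶜ →
        theta s h ≤ (2 * s) ^ R.card * (cell G Y T S R).card := by
      intro R
      induction R using Finset.induction_on with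
      | empty =>
        intro _
        rw [card_empty, pow_zero, one_mul]
        refine hrich.trans (card_le_card ?_)
        intro y hy
        rw [mem_cell] at hy ⊢
        exact ⟨hy.1, fun i _ => hy.2.1 i (mem_univ _), by simp⟩
      | insert j R hj ih =>
        intro hsub
        have hR : R ⊆ Sᶜ := fun x hx => hsub (mem_insert_of_mem hx)
        have hjS : j ∉ S := by
          have := hsub (mem_insert_self j R)
          rwa [mem_compl] at this
        have h1 := ih hR
        have hcardR : R.card + 1 ≤ h := by
          rw [← card_insert_of_notMem hj]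
          exact (card_le_univ _).trans (by simp)
        have h2 : 2 * s ≤ (cell G Y T S R).card := by
          have h3 : (2 * s) ^ R.card * (2 * s) ≤ (2 * s) ^ R.card * (cell G Y T S R).card := by
            refine le_trans ?_ h1
            rw [← pow_succ, theta]
            calc (2 * s) ^ (R.card + 1) ≤ (2 * s) ^ h := Nat.pow_le_pow_right (by omega) hcardR
              _ ≤ (2 * s) ^ h * ((4 * s) ^ h + h) := by
                  apply Nat.le_mul_of_pos_right
                  have : 0 < (4 * s) ^ h := Nat.pow_pos (by omega)
                  omega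
          exact Nat.le_of_mul_le_mul_left h3 (Nat.pow_pos (by omega))
        have h3 := hstep S R j hjS hj h2
        rw [card_insert_of_notMem hj]
        calc theta s h ≤ (2 * s) ^ R.card * (cell G Y T S R).card := h1
          _ ≤ (2 * s) ^ R.card * (2 * s * (cell G Y T S (insert j R)).card) :=
              Nat.mul_le_mul_left _ h3
          _ = (2 * s) ^ (R.card + 1) * (cell G Y T S (insert j R)).card := by
              rw [pow_succ]; ring
    have h4 := hmain Sᶜ (subset_refl _)
    have h5 : (Sᶜ).card ≤ h := (card_le_univ _).trans (by simp)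
    have h6 : (2 * s) ^ h * ((4 * s) ^ h + h) ≤ (2 * s) ^ h * (cell G Y T S Sᶜ).card := by
      calc (2 * s) ^ h * ((4 * s) ^ h + h) = theta s h := rfl
        _ ≤ (2 * s) ^ (Sᶜ).card * (cell G Y T S Sᶜ).card := h4
        _ ≤ _ := Nat.mul_le_mul_right _ (Nat.pow_le_pow_right (by omega) h5)
    exact Nat.le_of_mul_le_mul_left h6 (Nat.pow_pos (by omega))
  calc ((indepT G h U).filter (fun T => theta s h ≤ (cell G Y T univ ∅).card)).card
      ≤ ∑ p ∈ I, (E p).card := (card_le_card hcov).trans card_biUnion_le
    _ ≤ ∑ _p ∈ I, s * U.card ^ (h - 1) := by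
        apply sum_le_sum
        rintro ⟨P, R, j⟩ hp
        rw [hI, mem_filter] at hp
        exact card_exc_tuples hK U Y P R j hp.2.1 hp.2.2
    _ = I.card * (s * U.card ^ (h - 1)) := by rw [sum_const, smul_eq_mul]
    _ ≤ (4 ^ h * h) * (s * U.card ^ (h - 1)) := by
        apply Nat.mul_le_mul_right
        refine (card_filter_le _ _).trans ?_
        rw [card_product, card_product]
        simp only [card_univ, Fintype.card_finset, Fintype.card_fin]
        have : (4 : ℕ) ^ h = 2 ^ h * 2 ^ h := by
          rw [← mul_pow]; norm_num
        rw [this]; apply le_of_eq; ring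
    _ = bad1 s h * U.card ^ (h - 1) := by rw [bad1]; ring

end Pool.Agent.Helper286_biclique
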