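import Pool.Agent.Helper286_biclique.Basic

/-!
Random subsets (fibres of random functions), orientations of degenerate graphs.
-/

set_option linter.unusedSectionVars false

namespace Pool.Agent.Helper286_biclique

open Finset

variable {V : Type*} [Fintype V] [DecidableEq V]

/-- The number of functions that vanish on `Z`. -/
lemma card_zero_on (N : ℕ) [NeZero N] (Z : Finset V) :
    (univ.filter (fun f : V → Fin N => ∀ z ∈ Z, f z = 0)).card * N ^ Z.card =
      N ^ Fintype.card V := by
  have h1 : univ.filter (fun f : V → Fin N => ∀ z ∈ Z, f z = 0) =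
      Fintype.piFinset (fun v => if v ∈ Z then {0} else univ) := by
    ext f
    rw [mem_filter, Fintype.mem_piFinset]
    constructor
    · rintro ⟨_, h⟩ v
      by_cases hv : v ∈ Z
      · rw [if_pos hv, mem_singleton]; exact h v hv
      · rw [if_neg hv]; exact mem_univ _
    · intro h
      refine ⟨mem_univ _, fun z hz => ?_⟩
      have := h z
      rw [if_pos hz, mem_singleton] at this
      exact this
  rw [h1, Fintype.card_piFinset]
  have h2 : ∀ v : V, ((if v ∈ Z then {0} else univ) : Finset (Fin N)).card
      = if v ∈ Z then 1 else N := by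
    intro v
    by_cases hv : v ∈ Z
    · rw [if_pos hv, if_pos hv, card_singleton]
    · rw [if_neg hv, if_neg hv, card_univ, Fintype.card_fin]
  simp_rw [h2]
  rw [prod_ite]
  simp only [prod_const_one, one_mul, prod_const]
  have h3 : univ.filter (fun v : V => v ∉ Z) = Zᶜ := by ext v; simp
  rw [h3, ← pow_add, card_compl]
  congr 1
  have := card_le_univ Z
  omega

/-- A random subset contains `P b` and misses `Q b` for many `b`. -/
lemma exists_sample {β : Type*} [DecidableEq β] (N K : ℕ) (hN : 1 ≤ N) (B : Finset β)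
    (P Q : β → Finset V) (hdisj : ∀ b ∈ B, Disjoint (P b) (Q b)) (hP : ∀ b ∈ B, (P b).card = K)
    (hQ : ∀ b ∈ B, 2 * (Q b).card ≤ N) :
    ∃ S : Finset V, B.card ≤ 2 * N ^ K * (B.filter (fun b => P b ⊆ S ∧ Disjoint (Q b) S)).card := by
  classical
  have : NeZero N := ⟨by omega⟩
  set S : (V → Fin N) → Finset V := fun f => univ.filter (fun v => f v = 0) with hS
  have hb1 : ∀ b ∈ B, N ^ Fintype.card V ≤ 2 * N ^ K *
      ((univ : Finset (V → Fin N)).filter (fun f => P b ⊆ S f ∧ Disjoint (Q b) (S f))).card := by
    intro b hb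
    set g := ((univ : Finset (V → Fin N)).filter
      (fun f => P b ⊆ S f ∧ Disjoint (Q b) (S f))).card with hg
    have hcov : univ.filter (fun f : V → Fin N => ∀ z ∈ P b, f z = 0) ⊆
        (univ : Finset (V → Fin N)).filter (fun f => P b ⊆ S f ∧ Disjoint (Q b) (S f)) ∪
        (Q b).biUnion (fun q => univ.filter (fun f : V → Fin N => ∀ z ∈ insert q (P b), f z = 0)) := by
      intro f hf
      rw [mem_filter] at hf
      rw [mem_union, mem_biUnion]
      by_cases h : Disjoint (Q b) (S f)
      · left
        rw [mem_filter]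
        refine ⟨mem_univ _, ?_, h⟩
        intro v hv
        rw [hS, mem_filter]
        exact ⟨mem_univ _, hf.2 v hv⟩
      · right
        rw [not_disjoint_iff] at h
        obtain ⟨q, hq1, hq2⟩ := h
        refine ⟨q, hq1, ?_⟩
        rw [mem_filter]
        refine ⟨mem_univ _, ?_⟩
        intro z hz
        rcases mem_insert.mp hz with h | h
        · rw [h]
          exact (mem_filter.mp hq2).2
        · exact hf.2 z h
    have h1 := (card_le_card hcov).trans ((card_union_le _ _).trans
      (Nat.add_le_add_left card_biUnion_le _))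
    have h2 := card_zero_on N (P b)
    have h3 : ∀ q ∈ Q b, (univ.filter (fun f : V → Fin N => ∀ z ∈ insert q (P b), f z = 0)).card *
        N ^ (K + 1) = N ^ Fintype.card V := by
      intro q hq
      have h4 := card_zero_on N (insert q (P b))
      have hqP : q ∉ P b := fun h => (disjoint_left.mp (hdisj b hb)) h hq
      rw [card_insert_of_notMem hqP, hP b hb] at h4
      exact h4
    rw [hP b hb] at h2
    set n := Fintype.card V with hn
    have h5 : N * N ^ n ≤ g * N ^ (K + 1) + (Q b).card * N ^ n := by
      calc N * N ^ n = (univ.filter (fun f : V → Fin N => ∀ z ∈ P b, f z = 0)).card * N ^ (K + 1) := by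
            rw [← h2, pow_succ]; ring
        _ ≤ (g + ∑ q ∈ Q b, (univ.filter
              (fun f : V → Fin N => ∀ z ∈ insert q (P b), f z = 0)).card) * N ^ (K + 1) :=
            Nat.mul_le_mul_right _ h1
        _ = g * N ^ (K + 1) + ∑ q ∈ Q b, (univ.filter
              (fun f : V → Fin N => ∀ z ∈ insert q (P b), f z = 0)).card * N ^ (K + 1) := by
            rw [add_mul, sum_mul]
        _ = g * N ^ (K + 1) + (Q b).card * N ^ n := by
            rw [sum_congr rfl h3, sum_const, smul_eq_mul]
    have h6 := hQ b hb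
    have h7 : N * N ^ n ≤ N * (2 * N ^ K * g) := by
      have h8 : 2 * ((Q b).card * N ^ n) ≤ N * N ^ n := by
        calc 2 * ((Q b).card * N ^ n) = (2 * (Q b).card) * N ^ n := by ring
          _ ≤ N * N ^ n := Nat.mul_le_mul_right _ h6
      have h9 : N * (2 * N ^ K * g) = 2 * (g * N ^ (K + 1)) := by rw [pow_succ]; ring
      rw [h9]
      omega
    exact Nat.le_of_mul_le_mul_left h7 (by omega)
  have hsum : ∑ _f : V → Fin N, B.card ≤
      ∑ f : V → Fin N, 2 * N ^ K * (B.filter (fun b => P b ⊆ S f ∧ Disjoint (Q b) (S f))).card := by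
    calc ∑ _f : V → Fin N, B.card = ∑ _b ∈ B, N ^ Fintype.card V := by
          rw [sum_const, sum_const, smul_eq_mul, smul_eq_mul, card_univ, Fintype.card_fun,
            Fintype.card_fin, mul_comm]
      _ ≤ ∑ b ∈ B, 2 * N ^ K * ((univ : Finset (V → Fin N)).filter
            (fun f => P b ⊆ S f ∧ Disjoint (Q b) (S f))).card := sum_le_sum hb1
      _ = 2 * N ^ K * ∑ b ∈ B, ((univ : Finset (V → Fin N)).filter
            (fun f => P b ⊆ S f ∧ Disjoint (Q b) (S f))).card := by rw [mul_sum]
      _ = 2 * N ^ K * ∑ f : V → Fin N,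
            (B.filter (fun b => P b ⊆ S f ∧ Disjoint (Q b) (S f))).card := by
          congr 1
          simp_rw [card_filter]
          exact sum_comm
      _ = _ := by rw [mul_sum]
  obtain ⟨f, _, hf⟩ := exists_le_of_sum_le (⟨fun _ => 0, mem_univ _⟩ :
    (univ : Finset (V → Fin N)).Nonempty) hsum
  exact ⟨S f, hf⟩

variable {G : SimpleGraph V} [DecidableRel G.Adj]

/-- A graph in which every nonempty set spans a vertex of degree at most `κ` has an orientation
with out-degrees at most `κ`. -/
lemma exists_orientation (κ : ℕ) (A : Finset V)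
    (hA : ∀ X ⊆ A, X.Nonempty → ∃ v ∈ X, (nb G X v).card ≤ κ) :
    ∃ O : V → Finset V, (∀ v ∈ A, (O v).card ≤ κ) ∧
      (∀ u ∈ A, ∀ v ∈ A, G.Adj u v → u ∈ O v ∨ v ∈ O u) := by
  induction A using Finset.strongInduction with
  | H A ih =>
    rcases A.eq_empty_or_nonempty with he | hne
    · subst he
      exact ⟨fun _ => ∅, by simp, by simp⟩
    · obtain ⟨v, hvA, hv⟩ := hA A (subset_refl _) hne
      obtain ⟨O, hO1, hO2⟩ := ih (A.erase v) (erase_ssubset hvA)
        (fun X hX hXne => hA X (hX.trans (erase_subset _ _)) hXne)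
      refine ⟨fun w => if w = v then nb G A v else O w, ?_, ?_⟩
      · intro w hw
        by_cases h : w = v
        · simp only [h, if_true]; exact hv
        · simp only [h, if_false]; exact hO1 w (mem_erase.mpr ⟨h, hw⟩)
      · intro u hu w hw huw
        by_cases h : w = v
        · left
          simp only [h, if_true]
          rw [mem_nb]
          exact ⟨hu, h ▸ huw.symm⟩
        · by_cases h' : u = v
          · right
            simp only [h', if_true]
            rw [mem_nb]
            exact ⟨hw, h' ▸ huw⟩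
          · simp only [h, h', if_false]
            exact hO2 u (mem_erase.mpr ⟨h', hu⟩) w (mem_erase.mpr ⟨h, hw⟩) huw

lemma exists_low_degree {κ : ℕ} {X : Finset V} (hX : X.Nonempty)
    (h : ∑ v ∈ X, (nb G X v).card ≤ κ * X.card) : ∃ v ∈ X, (nb G X v).card ≤ κ := by
  by_contra hcon
  push Not at hcon
  have : ∑ _v ∈ X, κ < ∑ v ∈ X, (nb G X v).card := sum_lt_sum_of_nonempty hX hcon
  rw [sum_const, smul_eq_mul, mul_comm] at this
  omega

/-- A set spanning few edges contains a large independent set. -/
lemma exists_indep_subset {κ : ℕ} (hκ : 1 ≤ κ) (B : Finset V)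
    (h : ∑ v ∈ B, (nb G B v).card ≤ κ * B.card) :
    ∃ B1 ⊆ B, B.card ≤ 2 * (2 * κ + 1) * B1.card ∧ ∀ x ∈ B1, ∀ y ∈ B1, ¬ G.Adj x y := by
  set B0 := B.filter (fun b => (nb G B b).card ≤ 2 * κ) with hB0
  have hB0B : B0 ⊆ B := filter_subset _ _
  have hhalf : B.card ≤ 2 * B0.card := by
    have h1 : B0.card + (B.filter (fun b => ¬ (nb G B b).card ≤ 2 * κ)).card = B.card := by
      rw [hB0]; exact card_filter_add_card_filter_not _
    have h2 : (2 * κ + 1) * (B.filter (fun b => ¬ (nb G B b).card ≤ 2 * κ)).card ≤ κ * B.card := by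
      calc (2 * κ + 1) * (B.filter (fun b => ¬ (nb G B b).card ≤ 2 * κ)).card
          = ∑ _b ∈ B.filter (fun b => ¬ (nb G B b).card ≤ 2 * κ), (2 * κ + 1) := by
            rw [sum_const, smul_eq_mul, mul_comm]
        _ ≤ ∑ b ∈ B.filter (fun b => ¬ (nb G B b).card ≤ 2 * κ), (nb G B b).card := by
            apply sum_le_sum
            intro b hb
            have := (mem_filter.mp hb).2
            omega
        _ ≤ ∑ b ∈ B, (nb G B b).card :=
            sum_le_sum_of_subset_of_nonneg (filter_subset _ _) (fun _ _ _ => Nat.zero_le _)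
        _ ≤ κ * B.card := h
    by_contra hcon
    push Not at hcon
    nlinarith
  obtain ⟨B1, hB1, hcard, hind⟩ := exists_indep_of_degree B0 (fun x y => G.Adj x y)
    (fun x y hxy => hxy.symm) (2 * κ) (by
      intro b hb
      refine le_trans (card_le_card ?_) (mem_filter.mp hb).2
      intro x hx
      rw [mem_filter] at hx
      rw [mem_nb]
      exact ⟨hB0B hx.1, hx.2⟩)
  refine ⟨B1, hB1.trans hB0B, ?_, ?_⟩
  · calc B.card ≤ 2 * B0.card := hhalf
      _ ≤ 2 * ((2 * κ + 1) * B1.card) := Nat.mul_le_mul_left _ hcard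
      _ = _ := by ring
  · intro x hx y hy
    by_cases hxy : x = y
    · subst hxy; exact G.loopless.irrefl _
    · exact hind x hx y hy hxy

end Pool.Agent.Helper286_biclique
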