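import Pool.Agent.Helper286_biclique.Choice
import Pool.Agent.Helper286_biclique.Linear
import Pool.Agent.Helper286_biclique.Sampling

/-!
The exponentially unbalanced case: `B` is much larger than `A` and every vertex of `B` has many
neighbours in `A`.
-/

set_option linter.unusedSectionVars false

namespace Pool.Agent.Helper286_biclique

open Finset

variable {V : Type*} [Fintype V] [DecidableEq V] (G : SimpleGraph V) [DecidableRel G.Adj]

/-- the subgraph induced on `X` has no cycle of length four -/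
def C4F (X : Finset V) : Prop := ∀ a ∈ X, ∀ b ∈ X, ∀ c ∈ X, ∀ d ∈ X,
  G.Adj a b → G.Adj b c → G.Adj c d → G.Adj d a → a = c ∨ b = d

variable {G}

/-- the required ratio in `unbalanced` -/
def Theta (s m k κ N : ℕ) : ℕ :=
  2 * (2 * κ + 1) * (2 * N ^ (k ^ m)) * Lam k (k ^ m) (theta s (m + 1)) m

theorem unbalanced {s : ℕ} (hK : KFree G s) {m : ℕ} (H : SimpleGraph (Fin (m + 1)))
    (hH : H.Colorable 2) (hfree : IsEmpty (H ↪g G)) (A B : Finset V) (hAB : Disjoint A B)
    (κ M0 M1 k N : ℕ) (hκ : 1 ≤ κ) (hk : 1 ≤ k)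
    (hdeg : ∀ X ⊆ A ∪ B, ∑ v ∈ X, (nb G X v).card ≤ κ * X.card)
    (hlow : ∀ b ∈ B, M0 ≤ (nb G A b).card) (hup : ∀ b ∈ B, (nb G A b).card ≤ M1)
    (c1 : 4 * (k ^ m) ^ 2 ≤ M0) (c2 : 4 * ((k ^ m) ^ (m + 1) * bad1 s (m + 1)) ≤ M0)
    (c3 : 2 * (4 * (k ^ m) ^ 2) * nOne s (m + 1) ≤ M0)
    (c4 : yZero s (m + 1) (4 * (k ^ m) ^ 2) < M0)
    (hN : 2 * (M1 + k ^ m * κ) ≤ N) (hN1 : 1 ≤ N) (hB : B.Nonempty)
    (hunb : Theta s m k κ N * A.card ≤ B.card) :
    ∃ X : Finset V, X.Nonempty ∧ C4F G X ∧ k * X.card ≤ ∑ v ∈ X, (nb G X v).card := by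
  classical
  have hs := hK.pos
  obtain ⟨K, hKdef⟩ : ∃ K, K = k ^ m := ⟨_, rfl⟩
  have hK1 : 1 ≤ K := by rw [hKdef]; exact Nat.one_le_pow _ _ hk
  unfold Theta at hunb
  rw [← hKdef] at c1 c2 c3 c4 hN hunb
  -- choose the sets `I b`
  have hI : ∀ b, ∃ I : Finset V, b ∈ B → I ⊆ nb G A b ∧ I.card = K ∧
      (∀ x ∈ I, ∀ y ∈ I, ¬ G.Adj x y) ∧
      ∀ T : Fin (m + 1) → V, (∀ i, T i ∈ I) → (∀ i j, T i = T j → i = j) →
        (cell G B T univ ∅).card < theta s (m + 1) := by
    intro b
    by_cases hb : b ∈ B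
    · have h0 := hlow b hb
      obtain ⟨I, h1, h2, h3, h4⟩ := exists_good_subset hK (by omega) H hH hfree (nb G A b) B K hK1
        (c1.trans h0) (c2.trans h0) (c3.trans h0) (c4.trans_le h0)
      exact ⟨I, fun _ => ⟨h1, h2, h3, h4⟩⟩
    · exact ⟨∅, fun h => absurd h hb⟩
  choose I hI using hI
  -- orientation of `A`
  obtain ⟨O, hO1, hO2⟩ := exists_orientation (G := G) κ A (by
    intro X hX hXne
    exact exists_low_degree hXne (hdeg X (hX.trans subset_union_left)))
  -- independent subset of `B`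
  obtain ⟨B1, hB1B, hB1card, hB1ind⟩ := exists_indep_subset hκ B (hdeg B subset_union_right)
  -- sampling
  set Q : V → Finset V := fun b => (nb G A b ∪ (I b).biUnion O) \ I b with hQ
  have hIA : ∀ b ∈ B, I b ⊆ A := fun b hb => (hI b hb).1.trans (nb_subset _ _)
  obtain ⟨S, hS⟩ := exists_sample N K hN1 B1 I Q (by
      intro b _
      rw [hQ]
      exact disjoint_sdiff) (fun b hb => (hI b (hB1B hb)).2.1) (by
      intro b hb
      have hbB := hB1B hb
      have h1 : (Q b).card ≤ M1 + K * κ := by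
        calc (Q b).card ≤ (nb G A b ∪ (I b).biUnion O).card := card_le_card sdiff_subset
          _ ≤ (nb G A b).card + ((I b).biUnion O).card := card_union_le _ _
          _ ≤ M1 + ∑ x ∈ I b, (O x).card := Nat.add_le_add (hup b hbB) card_biUnion_le
          _ ≤ M1 + ∑ _x ∈ I b, κ := by
              apply Nat.add_le_add_left
              exact sum_le_sum (fun x hx => hO1 x (hIA b hbB hx))
          _ = M1 + K * κ := by rw [sum_const, smul_eq_mul, (hI b hbB).2.1]
      omega)
  obtain ⟨B2, hB2⟩ : ∃ B2, B2 = B1.filter (fun b => I b ⊆ S ∧ Disjoint (Q b) S) := ⟨_, rfl⟩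
  rw [← hB2] at hS
  have hB2B1 : B2 ⊆ B1 := by rw [hB2]; exact filter_subset _ _
  have hB2B : B2 ⊆ B := hB2B1.trans hB1B
  have hB2S : ∀ b ∈ B2, I b ⊆ S ∧ Disjoint (Q b) S := by
    intro b hb
    rw [hB2, mem_filter] at hb
    exact hb.2
  obtain ⟨A2, hA2⟩ : ∃ A2, A2 = B2.biUnion I := ⟨_, rfl⟩
  have hA2A : A2 ⊆ A := by
    rw [hA2]
    intro x hx
    obtain ⟨b, hb, hxb⟩ := mem_biUnion.mp hx
    exact hIA b (hB2B hb) hxb
  have hA2S : A2 ⊆ S := by
    rw [hA2]
    intro x hx
    obtain ⟨b, hb, hxb⟩ := mem_biUnion.mp hx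
    exact (hB2S b hb).1 hxb
  have hIA2 : ∀ b ∈ B2, I b ⊆ A2 := by
    intro b hb
    rw [hA2]
    exact subset_biUnion_of_mem I hb
  -- `A2` is independent
  have hA2ind : ∀ x ∈ A2, ∀ y ∈ A2, ¬ G.Adj x y := by
    have key : ∀ x ∈ A2, ∀ y ∈ A2, G.Adj x y → y ∉ O x := by
      intro x hx y hy hxy hyO
      rw [hA2] at hx
      obtain ⟨b, hb, hxb⟩ := mem_biUnion.mp hx
      have h1 : y ∉ I b := fun h => (hI b (hB2B hb)).2.2.1 x hxb y h hxy
      have h2 : y ∈ Q b := by
        rw [hQ]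
        simp only [mem_sdiff, mem_union, mem_biUnion]
        exact ⟨Or.inr ⟨x, hxb, hyO⟩, h1⟩
      exact disjoint_left.mp (hB2S b hb).2 h2 (hA2S hy)
    intro x hx y hy hxy
    rcases hO2 x (hA2A hx) y (hA2A hy) hxy with h | h
    · exact key y hy x hx hxy.symm h
    · exact key x hx y hy hxy h
  -- the neighbourhoods in `A2`
  have hnbA2 : ∀ b ∈ B2, nb G A2 b = I b := by
    intro b hb
    ext x
    rw [mem_nb]
    constructor
    · rintro ⟨hx, hadj⟩
      by_contra hxI
      have h2 : x ∈ Q b := by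
        rw [hQ]
        simp only [mem_sdiff, mem_union, mem_nb]
        exact ⟨Or.inl ⟨hA2A hx, hadj⟩, hxI⟩
      exact disjoint_left.mp (hB2S b hb).2 h2 (hA2S hx)
    · intro hx
      exact ⟨hIA2 b hb hx, (mem_nb.mp ((hI b (hB2B hb)).1 hx)).2⟩
  have hBle : B.card ≤ 2 * (2 * κ + 1) * (2 * N ^ K) * B2.card := by
    calc B.card ≤ 2 * (2 * κ + 1) * B1.card := hB1card
      _ ≤ 2 * (2 * κ + 1) * (2 * N ^ K * B2.card) := Nat.mul_le_mul_left _ hS
      _ = _ := by ring
  have hB2ne : B2.Nonempty := by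
    rw [nonempty_iff_ne_empty]
    intro he
    rw [he, card_empty, mul_zero] at hBle
    have := card_pos.mpr hB
    omega
  have hlam : Lam k K (theta s (m + 1)) m * A2.card ≤ B2.card := by
    have h1 : 2 * (2 * κ + 1) * (2 * N ^ K) * (Lam k K (theta s (m + 1)) m * A2.card) ≤
        2 * (2 * κ + 1) * (2 * N ^ K) * B2.card := by
      calc 2 * (2 * κ + 1) * (2 * N ^ K) * (Lam k K (theta s (m + 1)) m * A2.card)
          ≤ 2 * (2 * κ + 1) * (2 * N ^ K) * (Lam k K (theta s (m + 1)) m * A.card) :=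
            Nat.mul_le_mul_left _ (Nat.mul_le_mul_left _ (card_le_card hA2A))
        _ = 2 * (2 * κ + 1) * (2 * N ^ K) * Lam k K (theta s (m + 1)) m * A.card := by ring
        _ ≤ B.card := hunb
        _ ≤ _ := hBle
    have h2 : 0 < 2 * (2 * κ + 1) * (2 * N ^ K) := by positivity
    exact Nat.le_of_mul_le_mul_left h1 h2
  obtain ⟨A', hA'A2, B', hB'B2, hB'ne, hAB', hdegk, hlin⟩ := exists_linear k K (theta s (m + 1))
    hk hK1 (theta_pos hs) m A2 B2 I hB2ne hIA2 (fun b hb => (hI b (hB2B hb)).2.1.le)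
    (fun b hb => by rw [(hI b (hB2B hb)).2.1, hKdef]) (by
      intro Z hZ hZcard
      by_cases hex : ∃ b ∈ B2, Z ⊆ I b
      · obtain ⟨b, hb, hZb⟩ := hex
        set e := (Z.equivFinOfCardEq hZcard).symm with he
        have h1 := (hI b (hB2B hb)).2.2.2 (fun i => (e i : V)) (fun i => hZb (e i).2) (by
          intro i j hij
          exact e.injective (Subtype.ext hij))
        refine lt_of_le_of_lt (card_le_card ?_) h1
        intro b' hb'
        rw [mem_filter] at hb'
        rw [mem_cell]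
        refine ⟨hB2B hb'.1, ?_, by simp⟩
        intro i _
        have h2 := hb'.2 (e i).2
        exact ((mem_nb.mp ((hI b' (hB2B hb'.1)).1 h2)).2).symm
      · push Not at hex
        have h1 : B2.filter (fun b => Z ⊆ I b) = ∅ := by
          rw [eq_empty_iff_forall_notMem]
          intro b hb
          rw [mem_filter] at hb
          exact hex b hb.1 hb.2
        unfold cd
        rw [h1, card_empty]
        exact theta_pos hs) hlam
  -- the final set
  have hA'ind : ∀ x ∈ A', ∀ y ∈ A', ¬ G.Adj x y :=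
    fun x hx y hy => hA2ind x (hA'A2 hx) y (hA'A2 hy)
  have hB'ind : ∀ x ∈ B', ∀ y ∈ B', ¬ G.Adj x y :=
    fun x hx y hy => hB1ind x (hB2B1 (hB'B2 hx)) y (hB2B1 (hB'B2 hy))
  have hnbA' : ∀ b ∈ B', ∀ x ∈ A', G.Adj b x → x ∈ I b := by
    intro b hb x hx hadj
    rw [← hnbA2 b (hB'B2 hb), mem_nb]
    exact ⟨hA'A2 hx, hadj⟩
  have hdisj : Disjoint A' B' :=
    disjoint_of_subset_left (hA'A2.trans hA2A) (disjoint_of_subset_right (hB'B2.trans hB2B) hAB)
  refine ⟨A' ∪ B', hB'ne.mono subset_union_right, ?_, ?_⟩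
  · -- no four-cycles
    have key : ∀ a ∈ A', ∀ b ∈ B', ∀ c ∈ A', ∀ d ∈ B', G.Adj a b → G.Adj b c → G.Adj c d →
        G.Adj d a → a = c ∨ b = d := by
      intro a ha b hb c hc d hd hab hbc hcd hda
      by_cases hbd : b = d
      · exact Or.inr hbd
      · left
        have h1 := hlin b hb d hd hbd
        rw [card_le_one] at h1
        apply h1
        · simp only [mem_inter]
          exact ⟨⟨hnbA' b hb a ha hab.symm, hnbA' d hd a ha hda⟩, ha⟩
        · simp only [mem_inter]
          exact ⟨⟨hnbA' b hb c hc hbc, hnbA' d hd c hc hcd.symm⟩, hc⟩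
    intro a ha b hb c hc d hd hab hbc hcd hda
    rcases mem_union.mp ha with ha | ha <;> rcases mem_union.mp hb with hb | hb
    · exact absurd hab (hA'ind a ha b hb)
    · rcases mem_union.mp hc with hc | hc
      · rcases mem_union.mp hd with hd | hd
        · exact absurd hcd (hA'ind c hc d hd)
        · exact key a ha b hb c hc d hd hab hbc hcd hda
      · exact absurd hbc (hB'ind b hb c hc)
    · rcases mem_union.mp hc with hc | hc
      · exact absurd hbc (hA'ind b hb c hc)
      · rcases mem_union.mp hd with hd | hd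
        · rcases key b hb c hc d hd a ha hbc hcd hda hab with h | h
          · exact Or.inr h
          · exact Or.inl h.symm
        · exact absurd hda (hB'ind d hd a ha)
    · exact absurd hab (hB'ind a ha b hb)
  · -- the number of edges
    have h1 : ∑ v ∈ A' ∪ B', (nb G (A' ∪ B') v).card =
        ∑ v ∈ A', (nb G (A' ∪ B') v).card + ∑ v ∈ B', (nb G (A' ∪ B') v).card :=
      sum_union hdisj
    have h2 : ∑ v ∈ B', (nb G A' v).card ≤ ∑ v ∈ B', (nb G (A' ∪ B') v).card :=
      sum_le_sum (fun v _ => card_le_card (nb_mono subset_union_left v))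
    have h3 : ∑ v ∈ A', (nb G B' v).card ≤ ∑ v ∈ A', (nb G (A' ∪ B') v).card :=
      sum_le_sum (fun v _ => card_le_card (nb_mono subset_union_right v))
    have h4 : ∑ v ∈ A', (nb G B' v).card = ∑ v ∈ B', (nb G A' v).card := by
      unfold nb
      simp_rw [card_filter]
      rw [sum_comm]
      apply sum_congr rfl
      intro b _
      apply sum_congr rfl
      intro a _
      simp only [G.adj_comm]
    have h5 : k * B'.card ≤ ∑ v ∈ B', (nb G A' v).card := by
      calc k * B'.card = ∑ _v ∈ B', k := by rw [sum_const, smul_eq_mul, mul_comm]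
        _ ≤ ∑ v ∈ B', (nb G A' v).card := by
            apply sum_le_sum
            intro b hb
            refine (hdegk b hb).trans (card_le_card ?_)
            intro x hx
            rw [mem_inter] at hx
            rw [mem_nb]
            exact ⟨hx.2, (mem_nb.mp ((hI b (hB2B (hB'B2 hb))).1 hx.1)).2⟩
    have h6 : (A' ∪ B').card ≤ 2 * B'.card := by
      have := card_union_le A' B'
      omega
    calc k * (A' ∪ B').card ≤ k * (2 * B'.card) := Nat.mul_le_mul_left _ h6
      _ = 2 * (k * B'.card) := by ring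
      _ ≤ _ := by omega

end Pool.Agent.Helper286_biclique
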